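import Pool.Agent.W734.NS.Low

/-!
Smooth periodic functions with given Fourier coefficients.
-/

open MeasureTheory Set Filter Topology H459R3.NS Pool.Agent.W734.NS
open scoped ContDiff

namespace Pool.Agent.R923.HC

/-- The linear map with the given values on the standard basis. -/
noncomputable def mk (c : Fin 3 → ℂ) : V →L[ℝ] ℂ :=
  ∑ j, (ContinuousLinearMap.proj (R := ℝ) (φ := fun _ : Fin 3 => ℝ) j).smulRight (c j)

theorem mk_apply (c : Fin 3 → ℂ) (x : V) : mk c x = ∑ j, (x j : ℂ) * c j := by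
  unfold mk
  rw [ContinuousLinearMap.sum_apply]
  refine Finset.sum_congr rfl fun j _ => ?_
  rw [ContinuousLinearMap.smulRight_apply, ContinuousLinearMap.proj_apply, Complex.real_smul]

theorem norm_mk_le (c : Fin 3 → ℂ) : ‖mk c‖ ≤ ∑ j, ‖c j‖ := by
  refine ContinuousLinearMap.opNorm_le_bound _ (by positivity) fun x => ?_
  rw [mk_apply, Finset.sum_mul]
  refine (norm_sum_le _ _).trans (Finset.sum_le_sum fun j _ => ?_)
  rw [norm_mul, Complex.norm_real, mul_comm]
  exact mul_le_mul_of_nonneg_left (norm_le_pi_norm x j) (norm_nonneg _)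

theorem mk_eq {L : V →L[ℝ] ℂ} {c : Fin 3 → ℂ} (h : ∀ j, L (Pi.single j 1) = c j) : L = mk c := by
  ext x
  rw [mk_apply]
  conv_lhs => rw [← Finset.univ_sum_single x]
  rw [map_sum]
  refine Finset.sum_congr rfl fun j _ => ?_
  have : (Pi.single j (x j) : V) = x j • Pi.single j 1 := by
    rw [← Pi.single_smul]; simp
  rw [this, map_smul, h, Complex.real_smul]

theorem hasFDerivAt_ee (k : K3) (x : V) :
    HasFDerivAt (ee k) (mk fun j => 2 * Real.pi * Complex.I * (k j : ℂ) * ee k x) x := by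
  have h1 : HasFDerivAt (ee k) (fderiv ℝ (ee k) x) x :=
    ((ee_contDiff k (n := 1)).differentiable one_ne_zero x).hasFDerivAt
  rwa [mk_eq (L := fderiv ℝ (ee k) x) (fun j => pd_ee k j x)] at h1

theorem summable_D {a : K3 → ℂ} (ha : Rap a) (j : Fin 3) : Summable (D j a) := (ha.D j).summable

theorem hasFDerivAt_S {a : K3 → ℂ} (ha : Rap a) (x : V) :
    HasFDerivAt (S a) (mk fun j => S (D j a) x) x := by
  have hs : Summable fun k => ∑ j, ‖D j a k‖ :=
    summable_sum fun j _ => (summable_D ha j).norm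
  have hf : ∀ k (x : V), HasFDerivAt (fun y => a k * ee k y) (mk fun j => D j a k * ee k x) x := by
    intro k x
    have h1 := (hasFDerivAt_ee k x).const_mul (a k)
    refine h1.congr_fderiv ?_
    refine mk_eq fun j => ?_
    rw [smul_apply, mk_apply, Finset.sum_eq_single j]
    · simp only [Pi.single_eq_same, Complex.ofReal_one, one_mul, smul_eq_mul, D]
      ring
    · intro b _ hb
      rw [Pi.single_eq_of_ne hb]; simp
    · intro h; exact absurd (Finset.mem_univ j) h
  have hb : ∀ k (x : V), ‖(mk fun j => D j a k * ee k x)‖ ≤ ∑ j, ‖D j a k‖ := by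
    intro k x
    refine (norm_mk_le _).trans (le_of_eq (Finset.sum_congr rfl fun j _ => ?_))
    rw [norm_mul, norm_ee, mul_one]
  have key := hasFDerivAt_tsum hs hf hb (x₀ := x) (summable_term ha.summable x) x
  refine key.congr_fderiv ?_
  symm
  have hs2 : Summable fun k => (mk fun j => D j a k * ee k x) :=
    Summable.of_norm_bounded hs fun k => hb k x
  refine (mk_eq fun j => ?_).symm
  have h3 := (ContinuousLinearMap.apply ℝ ℂ (Pi.single j (1 : ℝ) : V)).map_tsum hs2
  simp only [ContinuousLinearMap.apply_apply] at h3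
  rw [h3]
  unfold S
  refine tsum_congr fun k => ?_
  rw [mk_apply, Finset.sum_eq_single j]
  · simp
  · intro b _ hb
    rw [Pi.single_eq_of_ne hb]; simp
  · intro h; exact absurd (Finset.mem_univ j) h

theorem contDiff_mk {n : WithTop ℕ∞} {f : V → Fin 3 → ℂ} (hf : ∀ j, ContDiff ℝ n fun x => f x j) :
    ContDiff ℝ n fun x => mk (f x) := by
  unfold mk
  refine ContDiff.sum fun j _ => ?_
  have : (fun x => (ContinuousLinearMap.proj (R := ℝ) (φ := fun _ : Fin 3 => ℝ) j).smulRight
      (f x j)) = fun x => ContinuousLinearMap.smulRightL ℝ V ℂ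
        (ContinuousLinearMap.proj (R := ℝ) (φ := fun _ : Fin 3 => ℝ) j) (f x j) := by
    funext x; rfl
  rw [this]
  exact (ContinuousLinearMap.contDiff _).comp (hf j)

theorem contDiff_S_nat (n : ℕ) : ∀ {a : K3 → ℂ}, Rap a → ContDiff ℝ n (S a) := by
  induction n with
  | zero =>
    intro a ha
    rw [Nat.cast_zero, contDiff_zero]
    exact S_continuous ha.summable
  | succ n ih =>
    intro a ha
    rw [show ((n + 1 : ℕ) : WithTop ℕ∞) = (n : WithTop ℕ∞) + 1 by push_cast; rfl,
      contDiff_succ_iff_fderiv]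
    refine ⟨fun x => (hasFDerivAt_S ha x).differentiableAt, by simp, ?_⟩
    have : fderiv ℝ (S a) = fun x => mk fun j => S (D j a) x :=
      funext fun x => (hasFDerivAt_S ha x).fderiv
    rw [this]
    exact contDiff_mk fun j => ih (ha.D j)

theorem contDiff_S {a : K3 → ℂ} (ha : Rap a) : ContDiff ℝ ∞ (S a) :=
  contDiff_infty.2 fun n => contDiff_S_nat n ha

/-- Coefficients of real functions. -/
def Herm (a : K3 → ℂ) : Prop := ∀ k, a (-k) = (starRingEnd ℂ) (a k)

theorem herm_fr (f : V → ℝ) : Herm (fr f) := fun k => fr_conj k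

/-- The real function with the given Fourier coefficients. -/
noncomputable def fn (a : K3 → ℂ) (x : V) : ℝ := (S a x).re

theorem S_per (a : K3 → ℂ) : Per (S a) := fun i x => by
  unfold S
  simp only [ee_per _ i x]

theorem sp_fn {a : K3 → ℂ} (ha : Rap a) : SP (fn a) where
  smooth := Complex.reCLM.contDiff.comp (contDiff_S ha)
  per := fun i x => by
    unfold fn
    rw [S_per a i x]

theorem ofReal_fn {a : K3 → ℂ} (hh : Herm a) (x : V) : ((fn a x : ℝ) : ℂ) = S a x := by
  have h : (starRingEnd ℂ) (S a x) = S a x := by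
    unfold S
    rw [Complex.conj_tsum, ← (Equiv.neg K3).tsum_eq]
    refine tsum_congr fun k => ?_
    simp only [Equiv.neg_apply]
    rw [map_mul, ← hh, ← ee_neg, neg_neg]
  exact Complex.conj_eq_iff_re.1 h

theorem fr_fn {a : K3 → ℂ} (ha : Rap a) (hh : Herm a) : fr (fn a) = a := by
  funext k
  have h := integral_ee_S (-k) ha.summable
  rw [neg_neg] at h
  rw [← h]
  show fc (fun x => ((fn a x : ℝ) : ℂ)) k = _
  unfold fc
  congr 1
  funext x
  simp only [ofReal_fn hh]

theorem fn_fr {f : V → ℝ} (hf : SP f) : fn (fr f) = f := by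
  funext x
  unfold fn
  rw [S_fr hf, Complex.ofReal_re]

/-- Smooth periodic functions are determined by their Fourier coefficients. -/
theorem fr_inj {f g : V → ℝ} (hf : SP f) (hg : SP g) (h : fr f = fr g) : f = g := by
  rw [← fn_fr hf, ← fn_fr hg, h]

/-- A real even multiplier of polynomial growth. -/
structure Mlt (m : K3 → ℝ) : Prop where
  even : ∀ k, m (-k) = m k
  bd : ∃ (C : ℝ) (n : ℕ), 0 ≤ C ∧ ∀ k, |m k| ≤ C * (1 + (N k : ℝ)) ^ n

theorem Rap.one_add {a : K3 → ℂ} (ha : Rap a) (n : ℕ) :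
    Summable fun k => (1 + (N k : ℝ)) ^ n * ‖a k‖ := by
  have h : ∀ k, (1 + (N k : ℝ)) ^ n * ‖a k‖
      = ∑ i ∈ Finset.range (n + 1), (n.choose i : ℝ) * ((N k : ℝ) ^ i * ‖a k‖) := by
    intro k
    rw [add_comm, add_pow, Finset.sum_mul]
    refine Finset.sum_congr rfl fun i _ => ?_
    rw [one_pow]
    ring
  simp_rw [h]
  exact summable_sum fun i _ => (ha i).mul_left _

theorem Mlt.rap {m : K3 → ℝ} (hm : Mlt m) {a : K3 → ℂ} (ha : Rap a) :
    Rap fun k => (m k : ℂ) * a k := by
  obtain ⟨C, n, hC, hb⟩ := hm.bd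
  intro l
  refine Summable.of_nonneg_of_le (fun k => by positivity) (fun k => ?_)
    ((Rap.one_add ha (l + n)).mul_left C)
  rw [norm_mul, Complex.norm_real, Real.norm_eq_abs]
  calc (N k : ℝ) ^ l * (|m k| * ‖a k‖) ≤ (1 + (N k : ℝ)) ^ l * ((C * (1 + (N k : ℝ)) ^ n) * ‖a k‖) := by
        gcongr
        · linarith
        · exact hb k
    _ = _ := by ring

theorem Mlt.herm {m : K3 → ℝ} (hm : Mlt m) {a : K3 → ℂ} (ha : Herm a) :
    Herm fun k => (m k : ℂ) * a k := by
  intro k
  simp only [hm.even k, ha k, map_mul, Complex.conj_ofReal]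

/-- The Fourier multiplier. -/
noncomputable def mul (m : K3 → ℝ) (f : V → ℝ) : V → ℝ := fn fun k => (m k : ℂ) * fr f k

theorem sp_mul {m : K3 → ℝ} (hm : Mlt m) {f : V → ℝ} (hf : SP f) : SP (mul m f) :=
  sp_fn (hm.rap (rap_fr hf))

theorem fr_mul {m : K3 → ℝ} (hm : Mlt m) {f : V → ℝ} (hf : SP f) :
    fr (mul m f) = fun k => (m k : ℂ) * fr f k :=
  fr_fn (hm.rap (rap_fr hf)) (hm.herm (herm_fr f))

/-- `2 π |k|` -/
noncomputable def lam (k : K3) : ℝ := 2 * Real.pi * len k

theorem lam_nonneg (k : K3) : 0 ≤ lam k := by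
  have := len_nonneg k
  have := Real.pi_pos
  unfold lam
  positivity

theorem lam_neg (k : K3) : lam (-k) = lam k := by unfold lam; rw [len_neg]

theorem N_le_len (k : K3) : (N k : ℝ) ≤ len k := by
  have h := N_sq_le k
  rw [← len_sq] at h
  exact (pow_le_pow_iff_left₀ (by positivity) (len_nonneg k) (by norm_num)).1 h

theorem len_le_N (k : K3) : len k ≤ 2 * N k := by
  have h : len k ^ 2 ≤ (2 * (N k : ℝ)) ^ 2 := by
    rw [len_sq]
    have h1 : ∀ j, (k j : ℝ) ^ 2 ≤ (N k : ℝ) ^ 2 := by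
      intro j
      have h := (N_le_iff k (N k)).1 le_rfl j
      have h1 : |(k j : ℝ)| ≤ N k := by exact_mod_cast h
      rw [← sq_abs (k j : ℝ)]
      exact pow_le_pow_left₀ (abs_nonneg _) h1 2
    calc ∑ j, (k j : ℝ) ^ 2 ≤ ∑ _j : Fin 3, (N k : ℝ) ^ 2 := Finset.sum_le_sum fun j _ => h1 j
      _ = 3 * (N k : ℝ) ^ 2 := by simp
      _ ≤ _ := by nlinarith [sq_nonneg (N k : ℝ)]
  exact (pow_le_pow_iff_left₀ (len_nonneg k) (by positivity) (by norm_num)).1 h

theorem len_zero : len 0 = 0 := by unfold len; simp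

theorem len_eq_zero {k : K3} : len k = 0 ↔ k = 0 := by
  constructor
  · intro h
    have h1 := N_le_len k
    rw [h] at h1
    have h2 : N k = 0 := by exact_mod_cast le_antisymm h1 (by positivity)
    exact N_eq_zero.1 h2
  · rintro rfl; exact len_zero

theorem one_le_len {k : K3} (hk : k ≠ 0) : 1 ≤ len k := by
  have h1 : 1 ≤ N k := Nat.one_le_iff_ne_zero.2 fun h => hk (N_eq_zero.1 h)
  have h2 : (1 : ℝ) ≤ N k := by exact_mod_cast h1
  exact h2.trans (N_le_len k)

theorem lam_zero : lam 0 = 0 := by unfold lam; rw [len_zero, mul_zero]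

theorem lam_eq_zero {k : K3} : lam k = 0 ↔ k = 0 := by
  unfold lam
  rw [mul_eq_zero, len_eq_zero]
  have := Real.pi_pos
  constructor
  · rintro (h | h)
    · linarith
    · exact h
  · intro h; exact Or.inr h

theorem one_le_lam {k : K3} (hk : k ≠ 0) : 1 ≤ lam k := by
  have h1 := one_le_len hk
  have h2 := Real.pi_gt_three
  unfold lam
  nlinarith

theorem lam_pos {k : K3} (hk : k ≠ 0) : 0 < lam k := lt_of_lt_of_le one_pos (one_le_lam hk)

theorem lam_le (k : K3) : lam k ≤ 16 * (1 + (N k : ℝ)) := by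
  have h1 := len_le_N k
  have h2 := Real.pi_lt_four
  have h3 := Real.pi_pos
  have h4 := len_nonneg k
  unfold lam
  nlinarith [Nat.cast_nonneg (α := ℝ) (N k)]

theorem lam_sq (k : K3) : lam k ^ 2 = (2 * Real.pi) ^ 2 * ∑ j, (k j : ℝ) ^ 2 := by
  unfold lam; rw [mul_pow, len_sq]

theorem mlt_lam : Mlt lam where
  even := lam_neg
  bd := ⟨16, 1, by norm_num, fun k => by
    rw [abs_of_nonneg (lam_nonneg k), pow_one]
    exact lam_le k⟩

end Pool.Agent.R923.HC
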