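import Pool.Agent.R923.HC.A1

/-!
Parseval's identity, norms of order `s`, interpolation.
-/

open MeasureTheory Set Filter Topology H459R3.NS Pool.Agent.W734.NS
open scoped ContDiff

namespace Pool.Agent.R923.HC

/-- Parseval's identity. -/
theorem parseval {f g : V → ℝ} (hf : SP f) (hg : SP g) :
    HasSum (fun k => fr f k * (starRingEnd ℂ) (fr g k)) ((∫ x in cube, f x * g x : ℝ) : ℂ) := by
  have h := integral_S_mul (rap_fr hf).summable (g := fun x => (g x : ℂ))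
    (contDiff_ofReal hg.smooth).continuous
  have e : ∀ k, fr f k * ∫ x in cube, ee k x * (g x : ℂ)
      = fr f k * (starRingEnd ℂ) (fr g k) := by
    intro k
    rw [← fr_conj k]
    unfold fr fc
    rw [neg_neg]
  simp_rw [e] at h
  have e2 : (∫ x in cube, S (fr f) x * (g x : ℂ)) = ((∫ x in cube, f x * g x : ℝ) : ℂ) := by
    rw [← integral_complex_ofReal]
    congr 1
    funext x
    rw [S_fr hf]
    push_cast
    ring
  rwa [e2] at h

theorem parseval_re {f g : V → ℝ} (hf : SP f) (hg : SP g) :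
    HasSum (fun k => (fr f k * (starRingEnd ℂ) (fr g k)).re) (∫ x in cube, f x * g x) := by
  have h := Complex.hasSum_re (parseval hf hg)
  rwa [Complex.ofReal_re] at h

theorem nrm_eq {f : V → ℝ} (hf : SP f) : nrm f = n2 (fr f) := by
  have h : nrm f ^ 2 = n2 (fr f) ^ 2 := by rw [nrm_sq, n2_fr hf]
  exact (pow_left_inj₀ (nrm_nonneg _) (n2_nonneg _) two_ne_zero).1 h

/-- powers of `lam` are multipliers -/
theorem mlt_lam_rpow {s : ℝ} (hs : 0 ≤ s) : Mlt fun k => lam k ^ s where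
  even := fun k => by simp only [lam_neg]
  bd := by
    refine ⟨16 ^ ⌈s⌉₊, ⌈s⌉₊, by positivity, fun k => ?_⟩
    rw [abs_of_nonneg (Real.rpow_nonneg (lam_nonneg k) s), ← mul_pow]
    have h1 := lam_le k
    have h2 : (1 : ℝ) ≤ 16 * (1 + (N k : ℝ)) := by
      nlinarith [Nat.cast_nonneg (α := ℝ) (N k)]
    calc lam k ^ s ≤ (16 * (1 + (N k : ℝ))) ^ s := Real.rpow_le_rpow (lam_nonneg k) h1 hs
      _ ≤ (16 * (1 + (N k : ℝ))) ^ ((⌈s⌉₊ : ℕ) : ℝ) :=
        Real.rpow_le_rpow_of_exponent_le h2 (Nat.le_ceil s)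
      _ = _ := Real.rpow_natCast _ _

/-- The norm of order `s`. -/
noncomputable def hn (s : ℝ) (a : K3 → ℂ) : ℝ := n2 fun k => ((lam k ^ s : ℝ) : ℂ) * a k

theorem hn_nonneg (s : ℝ) (a : K3 → ℂ) : 0 ≤ hn s a := n2_nonneg _

theorem norm_lam_mul (s : ℝ) (a : K3 → ℂ) (k : K3) :
    ‖((lam k ^ s : ℝ) : ℂ) * a k‖ ^ 2 = lam k ^ (2 * s) * ‖a k‖ ^ 2 := by
  rw [norm_mul, mul_pow, Complex.norm_real, Real.norm_eq_abs, sq_abs]
  congr 1
  rw [← Real.rpow_natCast (lam k ^ s) 2, ← Real.rpow_mul (lam_nonneg k)]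
  congr 1
  push_cast
  ring

theorem hn_sq (s : ℝ) (a : K3 → ℂ) : hn s a ^ 2 = ∑' k, lam k ^ (2 * s) * ‖a k‖ ^ 2 := by
  unfold hn
  rw [n2_sq]
  exact tsum_congr fun k => norm_lam_mul s a k

theorem summable_hn {s : ℝ} (hs : 0 ≤ s) {a : K3 → ℂ} (ha : Rap a) :
    Summable fun k => lam k ^ (2 * s) * ‖a k‖ ^ 2 := by
  have h := summable_sq ((mlt_lam_rpow hs).rap ha).summable
  refine h.congr fun k => ?_
  exact norm_lam_mul s a k

/-- Hölder's inequality for sums. -/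
theorem tsum_holder {F G : K3 → ℝ} (hF : ∀ k, 0 ≤ F k) (hG : ∀ k, 0 ≤ G k) (sF : Summable F)
    (sG : Summable G) {θ : ℝ} (h0 : 0 ≤ θ) (h1 : θ ≤ 1) :
    ∑' k, F k ^ (1 - θ) * G k ^ θ ≤ (∑' k, F k) ^ (1 - θ) * (∑' k, G k) ^ θ := by
  rcases h0.eq_or_lt with h | h
  · rw [← h]
    simp
  rcases h1.eq_or_lt with h' | h'
  · rw [h']
    simp
  have hp : (1 / (1 - θ)).HolderConjugate (1 / θ) := by
    rw [Real.holderConjugate_iff]
    refine ⟨?_, ?_⟩
    · rw [lt_div_iff₀ (by linarith)]; linarith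
    · rw [one_div, one_div, inv_inv, inv_inv]; ring
  have e1 : ∀ k, (F k ^ (1 - θ)) ^ (1 / (1 - θ)) = F k := by
    intro k
    rw [← Real.rpow_mul (hF k)]
    have : (1 - θ) * (1 / (1 - θ)) = 1 := by
      have : 1 - θ ≠ 0 := by linarith
      field_simp
    rw [this, Real.rpow_one]
  have e2 : ∀ k, (G k ^ θ) ^ (1 / θ) = G k := by
    intro k
    rw [← Real.rpow_mul (hG k)]
    have : θ * (1 / θ) = 1 := by field_simp
    rw [this, Real.rpow_one]
  have key := Real.inner_le_Lp_mul_Lq_tsum_of_nonneg hp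
    (f := fun k => F k ^ (1 - θ)) (g := fun k => G k ^ θ)
    (fun k => Real.rpow_nonneg (hF k) _) (fun k => Real.rpow_nonneg (hG k) _)
    (by simp_rw [e1]; exact sF) (by simp_rw [e2]; exact sG)
  simp_rw [e1, e2] at key
  rw [one_div_one_div, one_div_one_div] at key
  exact key

/-- Interpolation. -/
theorem hn_interp {a : K3 → ℂ} (ha : Rap a) {x y z θ : ℝ} (hx : 0 ≤ x) (hy : 0 ≤ y) (hz : 0 < z)
    (h0 : 0 ≤ θ) (h1 : θ ≤ 1) (hxy : z = (1 - θ) * x + θ * y) :
    hn z a ≤ hn x a ^ (1 - θ) * hn y a ^ θ := by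
  have hX := hn_nonneg x a
  have hY := hn_nonneg y a
  have h := tsum_holder (F := fun k => lam k ^ (2 * x) * ‖a k‖ ^ 2)
    (G := fun k => lam k ^ (2 * y) * ‖a k‖ ^ 2)
    (fun k => mul_nonneg (Real.rpow_nonneg (lam_nonneg k) _) (sq_nonneg _))
    (fun k => mul_nonneg (Real.rpow_nonneg (lam_nonneg k) _) (sq_nonneg _))
    (summable_hn hx ha) (summable_hn hy ha) h0 h1
  rw [← hn_sq, ← hn_sq] at h
  have e : ∀ k, lam k ^ (2 * z) * ‖a k‖ ^ 2 ≤ (lam k ^ (2 * x) * ‖a k‖ ^ 2) ^ (1 - θ)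
      * (lam k ^ (2 * y) * ‖a k‖ ^ 2) ^ θ := by
    intro k
    rcases (lam_nonneg k).eq_or_lt with hk | hk
    · rw [← hk, Real.zero_rpow (by linarith : 2 * z ≠ 0), zero_mul]
      positivity
    · refine le_of_eq ?_
      rw [Real.mul_rpow (by positivity) (by positivity), Real.mul_rpow (by positivity)
        (by positivity), ← Real.rpow_mul hk.le, ← Real.rpow_mul hk.le]
      have a1 : (‖a k‖ ^ 2) ^ (1 - θ) * (‖a k‖ ^ 2) ^ θ = ‖a k‖ ^ 2 := by
        rcases (sq_nonneg ‖a k‖).eq_or_lt with h' | h'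
        · rw [← h']
          rcases h0.eq_or_lt with h2 | h2
          · rw [← h2]; simp
          · rw [Real.zero_rpow h2.ne', mul_zero]
        · rw [← Real.rpow_add h']; simp
      have a2 : lam k ^ (2 * x * (1 - θ)) * lam k ^ (2 * y * θ) = lam k ^ (2 * z) := by
        rw [← Real.rpow_add hk]
        congr 1
        rw [hxy]; ring
      calc lam k ^ (2 * z) * ‖a k‖ ^ 2
          = (lam k ^ (2 * x * (1 - θ)) * lam k ^ (2 * y * θ))
            * ((‖a k‖ ^ 2) ^ (1 - θ) * (‖a k‖ ^ 2) ^ θ) := by rw [a1, a2]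
        _ = _ := by ring
  have hle : hn z a ^ 2 ≤ (hn x a ^ (1 - θ) * hn y a ^ θ) ^ 2 := by
    have e3 : (hn x a ^ (1 - θ) * hn y a ^ θ) ^ 2 = (hn x a ^ 2) ^ (1 - θ) * (hn y a ^ 2) ^ θ := by
      rw [mul_pow]
      congr 1
      · rw [← Real.rpow_natCast (hn x a ^ (1 - θ)) 2, ← Real.rpow_natCast (hn x a) 2,
          ← Real.rpow_mul hX, ← Real.rpow_mul hX, mul_comm]
      · rw [← Real.rpow_natCast (hn y a ^ θ) 2, ← Real.rpow_natCast (hn y a) 2,
          ← Real.rpow_mul hY, ← Real.rpow_mul hY, mul_comm]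
    rw [e3, hn_sq z]
    refine le_trans ?_ h
    refine Summable.tsum_le_tsum e (summable_hn hz.le ha) ?_
    -- summability of the product
    have hsum := (summable_hn hx ha).add (summable_hn hy ha)
    refine Summable.of_nonneg_of_le (fun k => ?_) (fun k => ?_) hsum
    · have := lam_nonneg k
      positivity
    · have hA : 0 ≤ lam k ^ (2 * x) * ‖a k‖ ^ 2 :=
        mul_nonneg (Real.rpow_nonneg (lam_nonneg k) _) (sq_nonneg _)
      have hB : 0 ≤ lam k ^ (2 * y) * ‖a k‖ ^ 2 :=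
        mul_nonneg (Real.rpow_nonneg (lam_nonneg k) _) (sq_nonneg _)
      have := Real.geom_mean_le_arith_mean2_weighted (by linarith : 0 ≤ 1 - θ) h0 hA hB (by ring)
      refine this.trans ?_
      nlinarith
  exact (pow_le_pow_iff_left₀ (hn_nonneg _ _) (by positivity) two_ne_zero).1 hle

/-- monotonicity in the coefficients -/
theorem hn_mono {s : ℝ} (hs : 0 ≤ s) {a b : K3 → ℂ} (ha : Rap a) (hb : Rap b)
    (h : ∀ k, ‖a k‖ ≤ ‖b k‖) : hn s a ≤ hn s b := by
  have : hn s a ^ 2 ≤ hn s b ^ 2 := by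
    rw [hn_sq, hn_sq]
    refine Summable.tsum_le_tsum (fun k => ?_) (summable_hn hs ha) (summable_hn hs hb)
    have h1 := h k
    have h2 := Real.rpow_nonneg (lam_nonneg k) (2 * s)
    gcongr
  exact (pow_le_pow_iff_left₀ (hn_nonneg _ _) (hn_nonneg _ _) two_ne_zero).1 this

theorem hn_zero (a : K3 → ℂ) : hn 0 a = n2 a := by
  unfold hn
  congr 1
  funext k
  simp

theorem hn_mul_lam {s : ℝ} (hs : 0 ≤ s) (a : K3 → ℂ) :
    hn s (fun k => (lam k : ℂ) * a k) = hn (s + 1) a := by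
  unfold hn
  congr 1
  funext k
  rcases (lam_nonneg k).eq_or_lt with hk | hk
  · rw [← hk, Real.zero_rpow (by linarith : s + 1 ≠ 0)]
    simp [← hk]
  · rw [Real.rpow_add hk, Real.rpow_one]
    push_cast
    ring

end Pool.Agent.R923.HC
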