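import Pool.Agent.R923.HC.A2

/-!
The Sobolev embedding of the homogeneous space of order `θ` in `L^r`, `r = 6 / (3 - 2 θ)`,
`0 ≤ θ ≤ 1`, on the torus (proof of Chemin and Xu).
-/

open MeasureTheory Set Filter Topology H459R3.NS Pool.Agent.W734.NS
open scoped ContDiff ENNReal

namespace Pool.Agent.R923.HC

/-- The frequencies `k` with `N k ≤ m`. -/
noncomputable def bx (m : ℕ) : Finset K3 := Finset.Icc (fun _ => -(m : ℤ)) (fun _ => (m : ℤ))

theorem mem_bx {m : ℕ} {k : K3} : k ∈ bx m ↔ N k ≤ m := by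
  unfold bx
  rw [Finset.mem_Icc, N_le_iff]
  constructor
  · rintro ⟨h1, h2⟩ j
    exact abs_le.2 ⟨h1 j, h2 j⟩
  · intro h
    exact ⟨fun j => (abs_le.1 (h j)).1, fun j => (abs_le.1 (h j)).2⟩

theorem card_bx (m : ℕ) : (bx m).card = (2 * m + 1) ^ 3 := by
  unfold bx
  rw [Pi.card_Icc]
  simp only [Int.card_Icc, Finset.prod_const, Finset.card_univ, Fintype.card_fin]
  congr 1
  omega

theorem sum_box {θ : ℝ} (h1 : θ ≤ 1) (m : ℕ) :
    ∑ k ∈ (bx m).erase 0, (N k : ℝ) ^ (-(2 * θ)) ≤ 26 * (m : ℝ) ^ (3 - 2 * θ) := by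
  classical
  induction m with
  | zero =>
    have : (bx 0).erase 0 = ∅ := by
      ext k
      simp only [Finset.mem_erase, mem_bx, Nat.le_zero, N_eq_zero, Finset.notMem_empty, iff_false]
      tauto
    rw [this]
    simp only [Finset.sum_empty]
    positivity
  | succ m ih =>
    have hsub : bx m ⊆ bx (m + 1) := by
      intro k hk
      rw [mem_bx] at *
      omega
    have hdec : (bx (m + 1)).erase 0 = ((bx m).erase 0) ∪ (bx (m + 1) \ bx m) := by
      ext k
      simp only [Finset.mem_erase, Finset.mem_union, Finset.mem_sdiff, mem_bx]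
      constructor
      · rintro ⟨h1, h2⟩
        by_cases h : N k ≤ m
        · exact Or.inl ⟨h1, h⟩
        · exact Or.inr ⟨h2, h⟩
      · rintro (⟨h1, h2⟩ | ⟨h1, h2⟩)
        · exact ⟨h1, by omega⟩
        · refine ⟨fun h => ?_, h1⟩
          rw [h] at h2
          exact h2 (by rw [N_eq_zero.2 rfl]; omega)
    have hdis : Disjoint ((bx m).erase 0) (bx (m + 1) \ bx m) := by
      rw [Finset.disjoint_left]
      intro k hk hk'
      rw [Finset.mem_sdiff] at hk'
      exact hk'.2 (Finset.mem_of_mem_erase hk)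
    rw [hdec, Finset.sum_union hdis]
    have hm : (0 : ℝ) < (m : ℝ) + 1 := by positivity
    have hsh : ∑ k ∈ bx (m + 1) \ bx m, (N k : ℝ) ^ (-(2 * θ))
        ≤ 26 * ((m : ℝ) + 1) ^ (2 - 2 * θ) := by
      have e : ∀ k ∈ bx (m + 1) \ bx m, (N k : ℝ) ^ (-(2 * θ)) = ((m : ℝ) + 1) ^ (-(2 * θ)) := by
        intro k hk
        rw [Finset.mem_sdiff, mem_bx, mem_bx] at hk
        have : N k = m + 1 := by omega
        rw [this]; push_cast; rfl
      rw [Finset.sum_congr rfl e, Finset.sum_const, nsmul_eq_mul, Finset.card_sdiff_of_subset hsub,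
        card_bx, card_bx]
      have hcard : (((2 * (m + 1) + 1) ^ 3 - (2 * m + 1) ^ 3 : ℕ) : ℝ)
          ≤ 26 * ((m : ℝ) + 1) ^ (2 : ℝ) := by
        have hle : (2 * m + 1) ^ 3 ≤ (2 * (m + 1) + 1) ^ 3 := Nat.pow_le_pow_left (by omega) 3
        rw [Nat.cast_sub hle]
        push_cast
        rw [show (2 : ℝ) = ((2 : ℕ) : ℝ) by norm_num, Real.rpow_natCast]
        have : (0 : ℝ) ≤ m := by positivity
        push_cast
        nlinarith
      calc _ ≤ 26 * ((m : ℝ) + 1) ^ (2 : ℝ) * ((m : ℝ) + 1) ^ (-(2 * θ)) := by gcongr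
        _ = 26 * (((m : ℝ) + 1) ^ (2 : ℝ) * ((m : ℝ) + 1) ^ (-(2 * θ))) := by ring
        _ = _ := by rw [← Real.rpow_add hm]; congr 2
    refine (add_le_add ih hsh).trans ?_
    have e1 : ((m + 1 : ℕ) : ℝ) ^ (3 - 2 * θ) = ((m : ℝ) + 1) ^ (2 - 2 * θ) * ((m : ℝ) + 1) := by
      rw [← Real.rpow_add_one hm.ne']
      push_cast
      congr 1
      ring
    have e2 : (m : ℝ) ^ (3 - 2 * θ) ≤ ((m : ℝ) + 1) ^ (2 - 2 * θ) * m := by
      have hm0 : (0 : ℝ) ≤ m := by positivity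
      have : (m : ℝ) ^ (3 - 2 * θ) = (m : ℝ) ^ (2 - 2 * θ) * m := by
        rw [← Real.rpow_add_one' hm0 (by linarith)]
        congr 1
        ring
      rw [this]
      refine mul_le_mul_of_nonneg_right ?_ hm0
      exact Real.rpow_le_rpow hm0 (by linarith) (by linarith)
    rw [e1]
    nlinarith

/-- The part of `f` with frequencies `k` with `N k ≤ m` -/
noncomputable def lo (m : ℕ) (f : V → ℝ) : V → ℝ :=
  fn ((bx m : Set K3).indicator (fr f))

theorem herm_ind {a : K3 → ℂ} (ha : Herm a) {Q : Set K3} (hQ : ∀ k ∈ Q, -k ∈ Q) :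
    Herm (Q.indicator a) := by
  intro k
  by_cases hk : k ∈ Q
  · rw [indicator_of_mem hk, indicator_of_mem (hQ k hk), ha]
  · rw [indicator_of_notMem hk, indicator_of_notMem, map_zero]
    intro h
    apply hk
    have := hQ _ h
    rwa [neg_neg] at this

theorem bx_neg (m : ℕ) : ∀ k ∈ (bx m : Set K3), -k ∈ (bx m : Set K3) := by
  intro k hk
  rw [Finset.mem_coe, mem_bx] at *
  rwa [N_neg]

theorem sp_lo {f : V → ℝ} (hf : SP f) (m : ℕ) : SP (lo m f) := sp_fn ((rap_fr hf).ind _)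

theorem fr_lo {f : V → ℝ} (hf : SP f) (m : ℕ) : fr (lo m f) = (bx m : Set K3).indicator (fr f) :=
  fr_fn ((rap_fr hf).ind _) (herm_ind (herm_fr f) (bx_neg m))

theorem fr_sub {f g : V → ℝ} (hf : SP f) (hg : SP g) (k : K3) :
    fr (fun x => f x - g x) k = fr f k - fr g k := by
  have i1 : IntegrableOn (fun x => ee (-k) x * (f x : ℂ)) cube :=
    integrableOn_cube ((ee_continuous _).mul (contDiff_ofReal hf.smooth).continuous)
  have i2 : IntegrableOn (fun x => ee (-k) x * (g x : ℂ)) cube :=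
    integrableOn_cube ((ee_continuous _).mul (contDiff_ofReal hg.smooth).continuous)
  have h := integral_sub i1 i2
  unfold fr fc
  rw [← h]
  congr 1
  funext x
  push_cast
  ring

theorem N_rpow_le {k : K3} {s : ℝ} (hs : 0 ≤ s) : (N k : ℝ) ^ s ≤ lam k ^ s := by
  refine Real.rpow_le_rpow (by positivity) ?_ hs
  have h1 := N_le_len k
  have h2 := Real.pi_gt_three
  have h3 := len_nonneg k
  unfold lam
  nlinarith

theorem abs_lo_le {f : V → ℝ} (hf : SP f) (hf0 : fr f 0 = 0) {θ : ℝ} (h0 : 0 ≤ θ) (h1 : θ ≤ 1)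
    (m : ℕ) (x : V) : |lo m f x| ≤ Real.sqrt (26 * (m : ℝ) ^ (3 - 2 * θ)) * hn θ (fr f) := by
  classical
  have hr := rap_fr hf
  have e1 : |lo m f x| = ‖((lo m f x : ℝ) : ℂ)‖ := by rw [Complex.norm_real, Real.norm_eq_abs]
  have e2 : ((lo m f x : ℝ) : ℂ) = ∑ k ∈ (bx m).erase 0, fr f k * ee k x := by
    unfold lo
    rw [ofReal_fn (herm_ind (herm_fr f) (bx_neg m))]
    unfold S
    rw [tsum_eq_sum (s := (bx m).erase 0)]
    · refine Finset.sum_congr rfl fun k hk => ?_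
      rw [indicator_of_mem (Finset.mem_coe.2 (Finset.mem_of_mem_erase hk))]
    · intro k hk
      rw [Finset.mem_erase, not_and_or] at hk
      rcases hk with hk | hk
      · rw [not_not] at hk
        rw [hk]
        have : (bx m : Set K3).indicator (fr f) 0 = 0 := by
          by_cases h : (0 : K3) ∈ (bx m : Set K3)
          · rw [indicator_of_mem h, hf0]
          · rw [indicator_of_notMem h]
        rw [this, zero_mul]
      · rw [indicator_of_notMem (fun h => hk (Finset.mem_coe.1 h)), zero_mul]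
  rw [e1, e2]
  refine (norm_sum_le _ _).trans ?_
  have e3 : ∀ k ∈ (bx m).erase 0, ‖fr f k * ee k x‖
      = (N k : ℝ) ^ (-θ) * ((N k : ℝ) ^ θ * ‖fr f k‖) := by
    intro k hk
    have hN : (0 : ℝ) < N k := by
      have : N k ≠ 0 := fun h => (Finset.ne_of_mem_erase hk) (N_eq_zero.1 h)
      exact_mod_cast Nat.pos_of_ne_zero this
    rw [norm_mul, norm_ee, mul_one, ← mul_assoc, ← Real.rpow_add hN]
    simp
  rw [Finset.sum_congr rfl e3]
  have h2 := Finset.sum_mul_sq_le_sq_mul_sq ((bx m).erase 0) (fun k => (N k : ℝ) ^ (-θ))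
    (fun k => (N k : ℝ) ^ θ * ‖fr f k‖)
  have h3 : ∑ k ∈ (bx m).erase 0, ((N k : ℝ) ^ (-θ)) ^ 2 ≤ 26 * (m : ℝ) ^ (3 - 2 * θ) := by
    refine le_trans (le_of_eq (Finset.sum_congr rfl fun k _ => ?_)) (sum_box h1 m)
    rw [← Real.rpow_natCast, ← Real.rpow_mul (by positivity)]
    congr 1
    push_cast
    ring
  have h4 : ∑ k ∈ (bx m).erase 0, ((N k : ℝ) ^ θ * ‖fr f k‖) ^ 2 ≤ hn θ (fr f) ^ 2 := by
    rw [hn_sq]
    refine le_trans (Finset.sum_le_sum fun k _ => ?_)
      ((summable_hn h0 hr).sum_le_tsum ((bx m).erase 0) fun k _ => ?_)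
    · rw [mul_pow, ← Real.rpow_natCast ((N k : ℝ) ^ θ), ← Real.rpow_mul (by positivity)]
      refine mul_le_mul_of_nonneg_right ?_ (sq_nonneg _)
      have : θ * ((2 : ℕ) : ℝ) = 2 * θ := by push_cast; ring
      rw [this]
      exact N_rpow_le (by linarith)
    · have := lam_nonneg k
      positivity
  have h5 : (∑ k ∈ (bx m).erase 0, (N k : ℝ) ^ (-θ) * ((N k : ℝ) ^ θ * ‖fr f k‖)) ^ 2
      ≤ (Real.sqrt (26 * (m : ℝ) ^ (3 - 2 * θ)) * hn θ (fr f)) ^ 2 := by
    rw [mul_pow, Real.sq_sqrt (by positivity)]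
    exact h2.trans (mul_le_mul h3 h4 (Finset.sum_nonneg fun _ _ => sq_nonneg _) (by positivity))
  exact (pow_le_pow_iff_left₀ (Finset.sum_nonneg fun _ _ => by positivity)
    (mul_nonneg (Real.sqrt_nonneg _) (hn_nonneg _ _)) two_ne_zero).1 h5

/-- the square of the norm of the high frequency part -/
theorem int_hi_sq {f : V → ℝ} (hf : SP f) (m : ℕ) :
    ∫ x in cube, (f x - lo m f x) ^ 2 = ∑' k, if m < N k then ‖fr f k‖ ^ 2 else 0 := by
  have hs := hf.sub (sp_lo hf m)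
  rw [← n2_fr hs, n2_sq]
  refine tsum_congr fun k => ?_
  rw [fr_sub hf (sp_lo hf m), fr_lo hf m]
  by_cases hk : N k ≤ m
  · rw [indicator_of_mem (Finset.mem_coe.2 (mem_bx.2 hk)), if_neg (by omega), sub_self]
    simp
  · rw [indicator_of_notMem (fun h => hk (mem_bx.1 (Finset.mem_coe.1 h))), if_pos (by omega),
      sub_zero]

end Pool.Agent.R923.HC
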