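import Pool.Agent.R923.HC.B1

/-!
The Sobolev embedding of the homogeneous space of order `θ` in `L^r`, `r = 6 / (3 - 2 θ)`,
`0 ≤ θ ≤ 1`, on the torus (proof of Chemin and Xu).
-/

open MeasureTheory Set Filter Topology H459R3.NS Pool.Agent.W734.NS
open scoped ContDiff ENNReal

namespace Pool.Agent.R923.HC

theorem fn_zero_of {f : V → ℝ} (hf : SP f) {θ : ℝ} (h0 : 0 ≤ θ) (hf0 : fr f 0 = 0)
    (hH : hn θ (fr f) = 0) : f = fun _ => 0 := by
  have h1 : ∑' k, lam k ^ (2 * θ) * ‖fr f k‖ ^ 2 = 0 := by rw [← hn_sq, hH]; simp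
  have h2 : ∀ k, fr f k = 0 := by
    intro k
    by_cases hk : k = 0
    · rw [hk, hf0]
    have h3 : lam k ^ (2 * θ) * ‖fr f k‖ ^ 2 ≤ 0 := by
      rw [← h1]
      exact (summable_hn h0 (rap_fr hf)).le_tsum k fun j _ => by
        have := lam_nonneg j
        positivity
    have h4 := Real.rpow_pos_of_pos (lam_pos hk) (2 * θ)
    have h5 : ‖fr f k‖ ^ 2 ≤ 0 := by
      by_contra hcon
      push Not at hcon
      have := mul_pos h4 hcon
      linarith
    have h6 : ‖fr f k‖ = 0 := by
      have := sq_nonneg ‖fr f k‖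
      have h7 : ‖fr f k‖ ^ 2 = 0 := le_antisymm h5 this
      exact pow_eq_zero_iff two_ne_zero |>.1 h7
    exact norm_eq_zero.1 h6
  funext x
  have h3 := S_fr hf x
  have h4 : S (fr f) x = 0 := by
    unfold S
    simp [h2]
  rw [h4] at h3
  exact_mod_cast h3.symm

theorem lintegral_pow {c r : ℝ} (hc : 0 ≤ c) (hr : 2 < r) :
    ∫⁻ t in Ioo 0 c, ENNReal.ofReal (4 * t ^ (r - 3)) = ENNReal.ofReal (4 * c ^ (r - 2) / (r - 2)) := by
  have hi : IntervalIntegrable (fun t : ℝ => t ^ (r - 3)) volume 0 c :=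
    intervalIntegral.intervalIntegrable_rpow' (by linarith)
  have hi2 : IntegrableOn (fun t : ℝ => 4 * t ^ (r - 3)) (Ioo 0 c) := by
    have := (intervalIntegrable_iff_integrableOn_Ioo_of_le hc).1 hi
    exact this.const_mul 4
  rw [← ofReal_integral_eq_lintegral_ofReal hi2]
  · congr 1
    rw [integral_const_mul, ← integral_Ioc_eq_integral_Ioo, ← intervalIntegral.integral_of_le hc,
      integral_rpow (Or.inl (by linarith))]
    have : r - 3 + 1 = r - 2 := by ring
    rw [this, Real.zero_rpow (by linarith)]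
    ring
  · filter_upwards [ae_restrict_mem measurableSet_Ioo] with t ht
    have := ht.1
    simp only [Pi.zero_apply]
    positivity

/-- The level sets. -/
theorem meas_level {f : V → ℝ} (hf : SP f) (hf0 : fr f 0 = 0) {θ : ℝ} (h0 : 0 < θ) (h1 : θ ≤ 1)
    (hH : 0 < hn θ (fr f)) {t : ℝ} (ht : 0 < t) :
    (volume.restrict cube) {x | t < |f x|} ≤ ∑' k, ENNReal.ofReal (‖fr f k‖ ^ 2)
      * (Ioo 0 (2 * Real.sqrt 26 * hn θ (fr f) * (N k : ℝ) ^ (3 / 2 - θ))).indicator
        (fun t => ENNReal.ofReal (4 / t ^ 2)) t := by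
  set H := hn θ (fr f) with hHdef
  set κ : ℝ := 2 * Real.sqrt 26 * H with hκ
  have hκ0 : 0 < κ := by positivity
  set γ : ℝ := 3 / 2 - θ with hγ
  have hγ0 : 0 < γ := by rw [hγ]; linarith
  set m : ℕ := ⌊(t / κ) ^ (1 / γ)⌋₊ with hm
  have hm1 : κ * (m : ℝ) ^ γ ≤ t := by
    have a1 : (m : ℝ) ≤ (t / κ) ^ (1 / γ) := Nat.floor_le (by positivity)
    have a2 : (m : ℝ) ^ γ ≤ t / κ := by
      calc (m : ℝ) ^ γ ≤ ((t / κ) ^ (1 / γ)) ^ γ := Real.rpow_le_rpow (by positivity) a1 hγ0.le
        _ = t / κ := by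
          rw [← Real.rpow_mul (by positivity)]
          have : 1 / γ * γ = 1 := by field_simp
          rw [this, Real.rpow_one]
    calc κ * (m : ℝ) ^ γ ≤ κ * (t / κ) := by gcongr
      _ = t := by field_simp
  have hlo : ∀ x, |lo m f x| ≤ t / 2 := by
    intro x
    refine (abs_lo_le hf hf0 h0.le h1 m x).trans ?_
    have e : Real.sqrt (26 * (m : ℝ) ^ (3 - 2 * θ)) = Real.sqrt 26 * (m : ℝ) ^ γ := by
      rw [Real.sqrt_mul (by norm_num)]
      congr 1
      rw [Real.sqrt_eq_rpow, ← Real.rpow_mul (by positivity)]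
      congr 1
      rw [hγ]; ring
    rw [e]
    have : Real.sqrt 26 * (m : ℝ) ^ γ * H = κ * (m : ℝ) ^ γ / 2 := by rw [hκ]; ring
    rw [this]
    linarith
  have hsp := hf.sub (sp_lo hf m)
  have hsub : {x | t < |f x|} ⊆ {x | ENNReal.ofReal ((t / 2) ^ 2)
      ≤ ENNReal.ofReal ((f x - lo m f x) ^ 2)} := by
    intro x hx
    have hx' : t < |f x| := hx
    have h2 : t / 2 ≤ |f x - lo m f x| := by
      have := abs_sub_abs_le_abs_sub (f x) (lo m f x)
      have := hlo x
      linarith
    show ENNReal.ofReal _ ≤ ENNReal.ofReal _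
    refine ENNReal.ofReal_le_ofReal ?_
    rw [← sq_abs (f x - lo m f x)]
    exact pow_le_pow_left₀ (by positivity) h2 2
  have hcheb := mul_meas_ge_le_lintegral₀ (μ := volume.restrict cube)
    (f := fun x => ENNReal.ofReal ((f x - lo m f x) ^ 2))
    ((hsp.cont.pow 2).measurable.ennreal_ofReal.aemeasurable) (ENNReal.ofReal ((t / 2) ^ 2))
  have hint : ∫⁻ x in cube, ENNReal.ofReal ((f x - lo m f x) ^ 2)
      = ENNReal.ofReal (∑' k, if m < N k then ‖fr f k‖ ^ 2 else 0) := by
    rw [← int_hi_sq hf m, ofReal_integral_eq_lintegral_ofReal (f := fun x => (f x - lo m f x) ^ 2)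
      (integrableOn_cube (hsp.cont.pow 2)) (Eventually.of_forall fun x => sq_nonneg _)]
  rw [hint] at hcheb
  have hμ : (volume.restrict cube) {x | t < |f x|} ≤ ENNReal.ofReal (4 / t ^ 2)
      * ENNReal.ofReal (∑' k, if m < N k then ‖fr f k‖ ^ 2 else 0) := by
    have h2 := (mul_le_mul_right (measure_mono hsub) (ENNReal.ofReal ((t / 2) ^ 2))).trans hcheb
    have h3 : ENNReal.ofReal (4 / t ^ 2) * ENNReal.ofReal ((t / 2) ^ 2) = 1 := by
      rw [← ENNReal.ofReal_mul (by positivity)]
      have : 4 / t ^ 2 * (t / 2) ^ 2 = 1 := by field_simp; norm_num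
      rw [this, ENNReal.ofReal_one]
    calc (volume.restrict cube) {x | t < |f x|}
        = ENNReal.ofReal (4 / t ^ 2) * (ENNReal.ofReal ((t / 2) ^ 2)
          * (volume.restrict cube) {x | t < |f x|}) := by rw [← mul_assoc, h3, one_mul]
      _ ≤ _ := by gcongr
  refine hμ.trans ?_
  rw [ENNReal.ofReal_tsum_of_nonneg (fun k => by positivity), ← ENNReal.tsum_mul_left]
  · refine ENNReal.tsum_le_tsum fun k => ?_
    by_cases hk : m < N k
    · rw [if_pos hk, indicator_of_mem, mul_comm]
      refine ⟨ht, ?_⟩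
      have a1 : (t / κ) ^ (1 / γ) < N k := (Nat.floor_lt (by positivity)).1 hk
      have a2 : t / κ < (N k : ℝ) ^ γ := by
        calc t / κ = ((t / κ) ^ (1 / γ)) ^ γ := by
              rw [← Real.rpow_mul (by positivity)]
              have : 1 / γ * γ = 1 := by field_simp
              rw [this, Real.rpow_one]
          _ < (N k : ℝ) ^ γ := Real.rpow_lt_rpow (by positivity) a1 hγ0
      rw [div_lt_iff₀ hκ0] at a2
      linarith
    · rw [if_neg hk, ENNReal.ofReal_zero, mul_zero]
      exact bot_le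
  · refine Summable.of_nonneg_of_le (fun k => by positivity) (fun k => ?_)
      (summable_sq (rap_fr hf).summable)
    split_ifs
    · exact le_rfl
    · positivity

theorem sob_pos {θ : ℝ} (h0 : 0 < θ) (h1 : θ ≤ 1) : ∃ C : ℝ, 0 ≤ C ∧ ∀ f : V → ℝ, SP f →
    fr f 0 = 0 → eLpNorm f (ENNReal.ofReal (6 / (3 - 2 * θ))) (volume.restrict cube)
      ≤ ENNReal.ofReal (C * hn θ (fr f)) := by
  set r : ℝ := 6 / (3 - 2 * θ) with hr
  have h3 : 0 < 3 - 2 * θ := by linarith
  have hr2 : 2 < r := by rw [hr, lt_div_iff₀ h3]; linarith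
  have hr0 : 0 < r := by linarith
  set C0 : ℝ := 4 * r * (2 * Real.sqrt 26) ^ (r - 2) / (r - 2) with hC0
  have hC00 : 0 ≤ C0 := by
    have : 0 < r - 2 := by linarith
    positivity
  refine ⟨C0 ^ (1 / r), by positivity, fun f hf hf0 => ?_⟩
  set H := hn θ (fr f) with hHdef
  have hH0 : 0 ≤ H := hn_nonneg _ _
  rcases hH0.eq_or_lt with hH | hH
  · rw [fn_zero_of hf h0.le hf0 hH.symm]
    simp
  set κ : ℝ := 2 * Real.sqrt 26 * H with hκ
  have hκ0 : 0 < κ := by positivity
  have hlay := lintegral_rpow_eq_lintegral_meas_lt_mul (volume.restrict cube)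
    (f := fun x => |f x|) (Eventually.of_forall fun x => abs_nonneg _)
    (hf.cont.abs.measurable.aemeasurable) hr0
  have hkey : ∫⁻ x in cube, ENNReal.ofReal (|f x| ^ r) ≤ ENNReal.ofReal (C0 * H ^ r) := by
    rw [hlay]
    have hstep : ∫⁻ t in Ioi 0, (volume.restrict cube) {x | t < |f x|}
        * ENNReal.ofReal (t ^ (r - 1)) ≤ ENNReal.ofReal (4 * κ ^ (r - 2) / (r - 2) * H ^ 2) := by
      calc ∫⁻ t in Ioi 0, (volume.restrict cube) {x | t < |f x|} * ENNReal.ofReal (t ^ (r - 1))
          ≤ ∫⁻ t in Ioi 0, ∑' k, ENNReal.ofReal (‖fr f k‖ ^ 2) *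
            (Ioo 0 (κ * (N k : ℝ) ^ (3 / 2 - θ))).indicator
              (fun t => ENNReal.ofReal (4 * t ^ (r - 3))) t := by
            refine setLIntegral_mono_ae' measurableSet_Ioi (Eventually.of_forall fun t ht => ?_)
            have ht' : 0 < t := ht
            refine (mul_le_mul_left (meas_level hf hf0 h0 h1 hH ht') _).trans ?_
            rw [← ENNReal.tsum_mul_right]
            refine ENNReal.tsum_le_tsum fun k => ?_
            rw [mul_assoc]
            refine mul_le_mul_right (le_of_eq ?_) _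
            by_cases hk : t ∈ Ioo 0 (κ * (N k : ℝ) ^ (3 / 2 - θ))
            · rw [indicator_of_mem hk, indicator_of_mem hk, ← ENNReal.ofReal_mul (by positivity)]
              congr 1
              have : t ^ (r - 1) = t ^ 2 * t ^ (r - 3) := by
                rw [← Real.rpow_natCast, ← Real.rpow_add ht']
                congr 1
                push_cast
                ring
              rw [this]
              field_simp
            · rw [indicator_of_notMem hk, indicator_of_notMem hk, zero_mul]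
        _ = ∑' k, ENNReal.ofReal (‖fr f k‖ ^ 2) *
            ∫⁻ t in Ioi 0, (Ioo 0 (κ * (N k : ℝ) ^ (3 / 2 - θ))).indicator
              (fun t => ENNReal.ofReal (4 * t ^ (r - 3))) t := by
            rw [lintegral_tsum]
            · refine tsum_congr fun k => ?_
              rw [lintegral_const_mul]
              refine Measurable.indicator ?_ measurableSet_Ioo
              exact (measurable_const.mul (measurable_id.pow_const _)).ennreal_ofReal
            · intro k
              refine (Measurable.const_mul ?_ _).aemeasurable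
              refine Measurable.indicator ?_ measurableSet_Ioo
              exact (measurable_const.mul (measurable_id.pow_const _)).ennreal_ofReal
        _ = ∑' k, ENNReal.ofReal (‖fr f k‖ ^ 2) * ENNReal.ofReal
            (4 * (κ * (N k : ℝ) ^ (3 / 2 - θ)) ^ (r - 2) / (r - 2)) := by
            refine tsum_congr fun k => ?_
            congr 1
            rw [lintegral_indicator measurableSet_Ioo, Measure.restrict_restrict measurableSet_Ioo,
              inter_eq_left.2 (Ioo_subset_Ioi_self), lintegral_pow (by positivity) hr2]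
        _ ≤ ∑' k, ENNReal.ofReal (4 * κ ^ (r - 2) / (r - 2) * (lam k ^ (2 * θ) * ‖fr f k‖ ^ 2)) := by
            refine ENNReal.tsum_le_tsum fun k => ?_
            rw [← ENNReal.ofReal_mul (by positivity)]
            refine ENNReal.ofReal_le_ofReal ?_
            have hr20 : 0 < r - 2 := by linarith
            have e1 : (κ * (N k : ℝ) ^ (3 / 2 - θ)) ^ (r - 2)
                = κ ^ (r - 2) * (N k : ℝ) ^ (2 * θ) := by
              rw [Real.mul_rpow hκ0.le (by positivity), ← Real.rpow_mul (by positivity)]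
              congr 2
              rw [hr]
              field_simp
              ring
            rw [e1]
            have h4 := N_rpow_le (k := k) (s := 2 * θ) (by linarith)
            calc ‖fr f k‖ ^ 2 * (4 * (κ ^ (r - 2) * (N k : ℝ) ^ (2 * θ)) / (r - 2))
                = 4 * κ ^ (r - 2) / (r - 2) * ((N k : ℝ) ^ (2 * θ) * ‖fr f k‖ ^ 2) := by ring
              _ ≤ _ := by gcongr
        _ = ENNReal.ofReal (4 * κ ^ (r - 2) / (r - 2) * H ^ 2) := by
            have hr20 : 0 < r - 2 := by linarith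
            rw [hHdef, hn_sq, ← tsum_mul_left, ENNReal.ofReal_tsum_of_nonneg]
            · intro k
              have := lam_nonneg k
              positivity
            · exact (summable_hn h0.le (rap_fr hf)).mul_left _
    refine (mul_le_mul_right hstep _).trans (le_of_eq ?_)
    rw [← ENNReal.ofReal_mul hr0.le]
    congr 1
    rw [hκ, hC0, Real.mul_rpow (by positivity) hH.le]
    have : H ^ r = H ^ (r - 2) * H ^ 2 := by
      rw [← Real.rpow_natCast H 2, ← Real.rpow_add hH]
      congr 1
      push_cast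
      ring
    rw [this]
    ring
  rw [eLpNorm_eq_lintegral_rpow_enorm_toReal (by simpa using hr0) ENNReal.ofReal_ne_top,
    ENNReal.toReal_ofReal hr0.le]
  have e2 : ∀ x, ‖f x‖ₑ ^ r = ENNReal.ofReal (|f x| ^ r) := by
    intro x
    rw [← ofReal_norm, ENNReal.ofReal_rpow_of_nonneg (norm_nonneg _) hr0.le, Real.norm_eq_abs]
  simp_rw [e2]
  calc (∫⁻ x in cube, ENNReal.ofReal (|f x| ^ r)) ^ (1 / r)
      ≤ (ENNReal.ofReal (C0 * H ^ r)) ^ (1 / r) := by gcongr
    _ = ENNReal.ofReal (C0 ^ (1 / r) * H) := by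
      rw [ENNReal.ofReal_rpow_of_nonneg (by positivity) (by positivity),
        Real.mul_rpow hC00 (by positivity), ← Real.rpow_mul hH.le]
      have : r * (1 / r) = 1 := by field_simp
      rw [this, Real.rpow_one]

/-- The Sobolev embedding. -/
theorem sob {θ : ℝ} (h0 : 0 ≤ θ) (h1 : θ ≤ 1) : ∃ C : ℝ, 0 ≤ C ∧ ∀ f : V → ℝ, SP f →
    fr f 0 = 0 → eLpNorm f (ENNReal.ofReal (6 / (3 - 2 * θ))) (volume.restrict cube)
      ≤ ENNReal.ofReal (C * hn θ (fr f)) := by
  rcases h0.eq_or_lt with h | h
  · refine ⟨1, zero_le_one, fun f hf _ => ?_⟩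
    rw [← h]
    have : (6 : ℝ) / (3 - 2 * 0) = 2 := by norm_num
    rw [this, one_mul, hn_zero, ← nrm_eq hf]
    have e : ENNReal.ofReal 2 = 2 := by simp
    rw [e]
    exact (eLpNorm_two hf.cont).le
  · exact sob_pos h h1

end Pool.Agent.R923.HC
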