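import Pool.Agent.R923.HC.A2

/-!
The resolvents `s² (s² - Δ)⁻¹` of the Laplacian on the torus are contractions of `L^p`, `2 ≤ p ≤ ∞`.
-/

open MeasureTheory Set Filter Topology H459R3.NS Pool.Agent.W734.NS
open scoped ContDiff ENNReal

namespace Pool.Agent.R923.HC

theorem fr_lap {f : V → ℝ} (hf : SP f) (k : K3) :
    fr (lap f) k = -((lam k ^ 2 : ℝ) : ℂ) * fr f k := by
  unfold lap
  rw [fr_sum fun j _ => (hf.pd j).pd j, lam_sq]
  push_cast
  rw [Finset.mul_sum, ← Finset.sum_neg_distrib, Finset.sum_mul]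
  refine Finset.sum_congr rfl fun j _ => ?_
  rw [fr_pd (hf.pd j), fr_pd hf, D, D]
  have := Complex.I_sq
  linear_combination ((2 * Real.pi : ℂ) ^ 2 * (k j : ℂ) ^ 2 * fr f k) * this

/-- The symbol of the resolvent. -/
noncomputable def rs (s : ℝ) (k : K3) : ℝ := s ^ 2 / (s ^ 2 + lam k ^ 2)

theorem rs_nonneg (s : ℝ) (k : K3) : 0 ≤ rs s k := by unfold rs; positivity

theorem rs_le_one (s : ℝ) (k : K3) : rs s k ≤ 1 := by
  unfold rs
  rcases (sq_nonneg s).eq_or_lt with h | h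
  · rw [← h, zero_div]; exact zero_le_one
  · rw [div_le_one (by positivity)]
    nlinarith [sq_nonneg (lam k)]

theorem mlt_rs (s : ℝ) : Mlt (rs s) where
  even := fun k => by unfold rs; rw [lam_neg]
  bd := ⟨1, 0, zero_le_one, fun k => by
    rw [abs_of_nonneg (rs_nonneg s k)]
    simpa using rs_le_one s k⟩

theorem rs_eq {f : V → ℝ} (hf : SP f) {s : ℝ} (hs : 0 < s) (x : V) :
    mul (rs s) f x - f x = (s ^ 2)⁻¹ * lap (mul (rs s) f) x := by
  have hg := sp_mul (mlt_rs s) hf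
  have h1 : SP (fun x => (s ^ 2)⁻¹ * lap (mul (rs s) f) x) :=
    ⟨contDiff_const.mul hg.lap.smooth, fun i x => by simp only [hg.lap.per i x]⟩
  have h2 := hg.sub hf
  have key : (fun x => mul (rs s) f x - f x) = fun x => (s ^ 2)⁻¹ * lap (mul (rs s) f) x := by
    refine fr_inj h2 h1 (funext fun k => ?_)
    rw [fr_sub' hg hf]
    have e : fr (fun x => (s ^ 2)⁻¹ * lap (mul (rs s) f) x) k
        = ((s ^ 2)⁻¹ : ℝ) * fr (lap (mul (rs s) f)) k := by
      unfold fr fc
      rw [← integral_const_mul]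
      congr 1
      funext x
      push_cast
      ring
    rw [e, fr_lap hg, fr_mul (mlt_rs s) hf]
    unfold rs
    have h0 : (s ^ 2 + lam k ^ 2 : ℝ) ≠ 0 := by positivity
    have h0' : ((s : ℂ) ^ 2 + (lam k : ℂ) ^ 2) ≠ 0 := by exact_mod_cast h0
    have h3 : (s : ℂ) ≠ 0 := by exact_mod_cast hs.ne'
    push_cast
    field_simp
    ring
  exact congrFun key x
where
  fr_sub' {f g : V → ℝ} (hf : SP f) (hg : SP g) (k : K3) :
      fr (fun x => f x - g x) k = fr f k - fr g k := by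
    have i1 : IntegrableOn (fun x => ee (-k) x * (f x : ℂ)) cube :=
      integrableOn_cube ((ee_continuous _).mul (contDiff_ofReal hf.smooth).continuous)
    have i2 : IntegrableOn (fun x => ee (-k) x * (g x : ℂ)) cube :=
      integrableOn_cube ((ee_continuous _).mul (contDiff_ofReal hg.smooth).continuous)
    have h := integral_sub i1 i2
    unfold fr fc
    rw [← h]
    congr 1
    funext x
    push_cast
    ring

/-- Bernoulli's inequality -/
theorem conv_ineq {q t T : ℝ} (hq : 1 ≤ q) (ht : 0 < t) (hT : 0 ≤ T) :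
    t ^ q + q * t ^ (q - 1) * (T - t) ≤ T ^ q := by
  have h := one_add_mul_self_le_rpow_one_add (s := T / t - 1) (by
    have : 0 ≤ T / t := by positivity
    linarith) hq
  have e : 1 + (T / t - 1) = T / t := by ring
  rw [e, Real.div_rpow hT ht.le, le_div_iff₀ (Real.rpow_pos_of_pos ht q)] at h
  refine le_trans (le_of_eq ?_) h
  rw [Real.rpow_sub_one ht.ne']
  field_simp

variable {ε q : ℝ}

/-- `y (y² + ε)^(q - 1)` -/
theorem hasDerivAt_h (hε : 0 < ε) (q : ℝ) (y : ℝ) :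
    HasDerivAt (fun y : ℝ => y * (y ^ 2 + ε) ^ (q - 1))
      ((y ^ 2 + ε) ^ (q - 1) + y * ((2 * y) * (q - 1) * (y ^ 2 + ε) ^ (q - 1 - 1))) y := by
  have h1 : HasDerivAt (fun y : ℝ => y ^ 2 + ε) (2 * y) y := by
    have := (hasDerivAt_pow 2 y).add_const ε
    simpa using this
  have h2 := h1.rpow_const (p := q - 1) (Or.inl (by positivity))
  have h3 := (hasDerivAt_id y).mul h2
  simp only [id_eq, one_mul] at h3
  exact h3

theorem sp_h (hε : 0 < ε) (q : ℝ) {g : V → ℝ} (hg : SP g) :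
    SP (fun x => g x * (g x ^ 2 + ε) ^ (q - 1)) where
  smooth := by
    refine hg.smooth.mul (ContDiff.rpow_const_of_ne ((hg.smooth.pow 2).add contDiff_const)
      fun x => ?_)
    positivity
  per := fun i x => by simp only [hg.per i x]

theorem int_h_lap (hε : 0 < ε) (hq : 1 ≤ q) {g : V → ℝ} (hg : SP g) :
    ∫ x in cube, lap g x * (g x * (g x ^ 2 + ε) ^ (q - 1)) ≤ 0 := by
  rw [int_lap_mul hg (sp_h hε q hg)]
  refine neg_nonpos.2 (Finset.sum_nonneg fun j _ => integral_nonneg fun x => ?_)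
  have e : pd j (fun x => g x * (g x ^ 2 + ε) ^ (q - 1)) x
      = ((g x ^ 2 + ε) ^ (q - 1) + g x * ((2 * g x) * (q - 1) * (g x ^ 2 + ε) ^ (q - 1 - 1)))
        * pd j g x := by
    unfold pd
    have h1 := (hasDerivAt_h hε q (g x)).comp_hasFDerivAt x (hg.diff x).hasFDerivAt
    have h2 : HasFDerivAt (fun x => g x * (g x ^ 2 + ε) ^ (q - 1)) _ x := h1
    rw [h2.fderiv]
    simp
  simp only
  rw [e]
  have h1 : 0 < g x ^ 2 + ε := by positivity
  have h2 : 0 ≤ q - 1 := by linarith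
  have h3 : pd j g x * (((g x ^ 2 + ε) ^ (q - 1)
      + g x * ((2 * g x) * (q - 1) * (g x ^ 2 + ε) ^ (q - 1 - 1))) * pd j g x)
      = (pd j g x) ^ 2 * ((g x ^ 2 + ε) ^ (q - 1)
        + 2 * (g x) ^ 2 * (q - 1) * (g x ^ 2 + ε) ^ (q - 1 - 1)) := by ring
  rw [h3]
  positivity

theorem int_conv_le (hε : 0 < ε) (hq : 1 ≤ q) {f : V → ℝ} (hf : SP f) {s : ℝ} (hs : 0 < s) :
    ∫ x in cube, (mul (rs s) f x ^ 2 + ε) ^ q ≤ ∫ x in cube, (f x ^ 2 + ε) ^ q := by
  set g := mul (rs s) f with hg'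
  have hg : SP g := sp_mul (mlt_rs s) hf
  have hc : ∀ {u : V → ℝ}, SP u → Continuous fun x => (u x ^ 2 + ε) ^ q := fun {u} hu =>
    ((hu.cont.pow 2).add continuous_const).rpow_const fun x => Or.inr (by linarith)
  have hpt : ∀ x, (g x ^ 2 + ε) ^ q - 2 * q * ((s ^ 2)⁻¹ * (lap g x * (g x
      * (g x ^ 2 + ε) ^ (q - 1)))) ≤ (f x ^ 2 + ε) ^ q := by
    intro x
    have h1 := conv_ineq hq (t := g x ^ 2 + ε) (T := f x ^ 2 + ε) (by positivity) (by positivity)
    refine le_trans ?_ h1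
    have h2 := rs_eq hf hs x
    rw [← hg'] at h2
    have h3 : -(2 * q * ((s ^ 2)⁻¹ * (lap g x * (g x * (g x ^ 2 + ε) ^ (q - 1)))))
        = q * (g x ^ 2 + ε) ^ (q - 1) * (2 * g x * (f x - g x)) := by
      have : (s ^ 2)⁻¹ * (lap g x * (g x * (g x ^ 2 + ε) ^ (q - 1)))
          = ((s ^ 2)⁻¹ * lap g x) * (g x * (g x ^ 2 + ε) ^ (q - 1)) := by ring
      rw [this, ← h2]
      ring
    have h4 : q * (g x ^ 2 + ε) ^ (q - 1) * (2 * g x * (f x - g x))
        ≤ q * (g x ^ 2 + ε) ^ (q - 1) * (f x ^ 2 + ε - (g x ^ 2 + ε)) := by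
      refine mul_le_mul_of_nonneg_left ?_ (by positivity)
      nlinarith [sq_nonneg (f x - g x)]
    linarith
  have hsp := sp_h hε q hg
  have i1 : IntegrableOn (fun x => (g x ^ 2 + ε) ^ q) cube := integrableOn_cube (hc hg)
  have i2 : IntegrableOn (fun x => 2 * q * ((s ^ 2)⁻¹ * (lap g x * (g x
      * (g x ^ 2 + ε) ^ (q - 1))))) cube :=
    ((hg.lap.mul hsp).int.const_mul _).const_mul _
  have h1 : ∫ x in cube, ((g x ^ 2 + ε) ^ q - 2 * q * ((s ^ 2)⁻¹ * (lap g x * (g x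
      * (g x ^ 2 + ε) ^ (q - 1))))) ≤ ∫ x in cube, (f x ^ 2 + ε) ^ q :=
    integral_mono (i1.sub i2) (integrableOn_cube (hc hf)) hpt
  rw [integral_sub i1 i2, integral_const_mul, integral_const_mul] at h1
  have h2 := int_h_lap hε hq hg
  have h3 : 0 ≤ -(2 * q * ((s ^ 2)⁻¹ * ∫ x in cube, lap g x * (g x * (g x ^ 2 + ε) ^ (q - 1)))) := by
    have : 0 ≤ (s ^ 2)⁻¹ * -∫ x in cube, lap g x * (g x * (g x ^ 2 + ε) ^ (q - 1)) :=
      mul_nonneg (by positivity) (by linarith)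
    nlinarith
  linarith

/-- The `L^p` norm of a real function in terms of integrals. -/
theorem eLpNorm_eq_ofReal {p : ℝ} (hp : 0 < p) {u : V → ℝ} (hu : Continuous u) :
    eLpNorm u (ENNReal.ofReal p) (volume.restrict cube)
      = ENNReal.ofReal ((∫ x in cube, |u x| ^ p) ^ (1 / p)) := by
  rw [eLpNorm_eq_lintegral_rpow_enorm_toReal (by simpa using hp) ENNReal.ofReal_ne_top,
    ENNReal.toReal_ofReal hp.le]
  have e2 : ∀ x, ‖u x‖ₑ ^ p = ENNReal.ofReal (|u x| ^ p) := by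
    intro x
    rw [← ofReal_norm, ENNReal.ofReal_rpow_of_nonneg (norm_nonneg _) hp.le, Real.norm_eq_abs]
  simp_rw [e2]
  rw [← ofReal_integral_eq_lintegral_ofReal (f := fun x => |u x| ^ p)
    (integrableOn_cube (hu.abs.rpow_const fun x => Or.inr hp.le))
    (Eventually.of_forall fun x => Real.rpow_nonneg (abs_nonneg _) _),
    ENNReal.ofReal_rpow_of_nonneg (integral_nonneg fun x => Real.rpow_nonneg (abs_nonneg _) _)
      (by positivity)]

theorem sqrt_rpow {a p : ℝ} (ha : 0 ≤ a) : Real.sqrt a ^ p = a ^ (p / 2) := by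
  rw [Real.sqrt_eq_rpow, ← Real.rpow_mul ha]
  congr 1
  ring

theorem cube_prob : IsProbabilityMeasure (volume.restrict cube) :=
  ⟨by rw [Measure.restrict_apply_univ, volume_cube]⟩

/-- The resolvent is a contraction of `L^p`, `2 ≤ p < ∞`. -/
theorem rs_contr {p : ℝ} (hp : 2 ≤ p) {f : V → ℝ} (hf : SP f) {s : ℝ} (hs : 0 < s) :
    eLpNorm (mul (rs s) f) (ENNReal.ofReal p) (volume.restrict cube)
      ≤ eLpNorm f (ENNReal.ofReal p) (volume.restrict cube) := by
  have := cube_prob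
  have hp0 : 0 < p := by linarith
  set g := mul (rs s) f with hg'
  have hg : SP g := sp_mul (mlt_rs s) hf
  refine ENNReal.le_of_forall_pos_le_add fun ε hε _ => ?_
  have hε2 : (0 : ℝ) < (ε : ℝ) ^ 2 := by positivity
  have hcu : ∀ {u : V → ℝ}, SP u → Continuous fun x => Real.sqrt (u x ^ 2 + (ε : ℝ) ^ 2) :=
    fun {u} hu => ((hu.cont.pow 2).add continuous_const).sqrt
  have h1 : eLpNorm g (ENNReal.ofReal p) (volume.restrict cube)
      ≤ eLpNorm (fun x => Real.sqrt (g x ^ 2 + (ε : ℝ) ^ 2)) (ENNReal.ofReal p)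
        (volume.restrict cube) := by
    refine eLpNorm_mono fun x => ?_
    rw [Real.norm_eq_abs, Real.norm_eq_abs, abs_of_nonneg (Real.sqrt_nonneg _), ← Real.sqrt_sq_eq_abs]
    exact Real.sqrt_le_sqrt (by linarith)
  have h2 : eLpNorm (fun x => Real.sqrt (g x ^ 2 + (ε : ℝ) ^ 2)) (ENNReal.ofReal p)
        (volume.restrict cube)
      ≤ eLpNorm (fun x => Real.sqrt (f x ^ 2 + (ε : ℝ) ^ 2)) (ENNReal.ofReal p)
        (volume.restrict cube) := by
    rw [eLpNorm_eq_ofReal hp0 (hcu hg), eLpNorm_eq_ofReal hp0 (hcu hf)]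
    refine ENNReal.ofReal_le_ofReal (Real.rpow_le_rpow (integral_nonneg fun x =>
      Real.rpow_nonneg (abs_nonneg _) _) ?_ (by positivity))
    have e : ∀ u : V → ℝ, ∀ x, |Real.sqrt (u x ^ 2 + (ε : ℝ) ^ 2)| ^ p
        = (u x ^ 2 + (ε : ℝ) ^ 2) ^ (p / 2) := by
      intro u x
      rw [abs_of_nonneg (Real.sqrt_nonneg _), sqrt_rpow (by positivity)]
    simp_rw [e]
    exact int_conv_le hε2 (by linarith) hf hs
  have h3 : eLpNorm (fun x => Real.sqrt (f x ^ 2 + (ε : ℝ) ^ 2)) (ENNReal.ofReal p)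
        (volume.restrict cube)
      ≤ eLpNorm (fun x => |f x| + (ε : ℝ)) (ENNReal.ofReal p) (volume.restrict cube) := by
    refine eLpNorm_mono fun x => ?_
    rw [Real.norm_eq_abs, Real.norm_eq_abs, abs_of_nonneg (Real.sqrt_nonneg _),
      abs_of_nonneg (by positivity)]
    refine Real.sqrt_le_iff.2 ⟨by positivity, ?_⟩
    have : (0 : ℝ) ≤ |f x| * ε := by positivity
    nlinarith [sq_abs (f x)]
  have h4 : eLpNorm (fun x => |f x| + (ε : ℝ)) (ENNReal.ofReal p) (volume.restrict cube)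
      ≤ eLpNorm (fun x => |f x|) (ENNReal.ofReal p) (volume.restrict cube)
        + eLpNorm (fun _ : V => (ε : ℝ)) (ENNReal.ofReal p) (volume.restrict cube) :=
    eLpNorm_add_le hf.cont.abs.aestronglyMeasurable aestronglyMeasurable_const (by
      rw [← ENNReal.ofReal_one]
      exact ENNReal.ofReal_le_ofReal (by linarith))
  have h5 : eLpNorm (fun x => |f x|) (ENNReal.ofReal p) (volume.restrict cube)
      = eLpNorm f (ENNReal.ofReal p) (volume.restrict cube) :=
    eLpNorm_norm f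
  have h6 : eLpNorm (fun _ : V => (ε : ℝ)) (ENNReal.ofReal p) (volume.restrict cube) = ε := by
    rw [eLpNorm_const _ (by simpa using hp0) (NeZero.ne _), measure_univ, ENNReal.one_rpow, mul_one,
      Real.enorm_eq_ofReal (by positivity), ENNReal.ofReal_coe_nnreal]
  rw [h5, h6] at h4
  exact h1.trans (h2.trans (h3.trans h4))

/-- The `L^∞` norm is bounded by the `L^p` norms. -/
theorem top_le_of_all {u : V → ℝ} (hu : Continuous u) {M : ℝ≥0∞}
    (h : ∀ n : ℕ, 2 ≤ n → eLpNorm u (ENNReal.ofReal n) (volume.restrict cube) ≤ M) :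
    eLpNorm u (⊤ : ℝ≥0∞) (volume.restrict cube) ≤ M := by
  have := cube_prob
  by_contra hcon
  push Not at hcon
  rw [eLpNorm_exponent_top] at hcon
  obtain ⟨b, hb1, hb2⟩ := exists_between hcon
  have hb0 : b ≠ 0 := (bot_lt_iff_ne_bot.1 (lt_of_le_of_lt bot_le hb1))
  have hpos : (volume.restrict cube) {x | b ≤ ‖u x‖ₑ} ≠ 0 := by
    intro h0
    have h1 : ∀ᵐ x ∂(volume.restrict cube), ‖u x‖ₑ ≤ b := by
      have : ∀ᵐ x ∂(volume.restrict cube), ¬ (b ≤ ‖u x‖ₑ) := by
        rw [ae_iff]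
        simpa using h0
      filter_upwards [this] with x hx
      exact (not_le.1 hx).le
    exact absurd (eLpNormEssSup_le_of_ae_enorm_bound h1) (not_le.2 hb2)
  have hbt : b ≠ (⊤ : ℝ≥0∞) := (lt_of_lt_of_le hb2 le_top).ne
  have hM : M / b < 1 := by
    rw [ENNReal.div_lt_iff (Or.inl hb0) (Or.inl hbt), one_mul]
    exact hb1
  have hle : ∀ n : ℕ, 2 ≤ n → (volume.restrict cube) {x | b ≤ ‖u x‖ₑ} ≤ (M / b) ^ n := by
    intro n hn
    have hn0 : ENNReal.ofReal (n : ℝ) ≠ 0 := by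
      simp only [ne_eq, ENNReal.ofReal_eq_zero, not_le]
      exact_mod_cast (by omega : 0 < n)
    have h1 := mul_meas_ge_le_pow_eLpNorm' (volume.restrict cube) hn0 ENNReal.ofReal_ne_top
      hu.aestronglyMeasurable b
    rw [ENNReal.toReal_ofReal (by positivity), ENNReal.rpow_natCast, ENNReal.rpow_natCast] at h1
    have h2 : b ^ n * (volume.restrict cube) {x | b ≤ ‖u x‖ₑ} ≤ M ^ n :=
      h1.trans (pow_le_pow_left₀ bot_le (h n hn) n)
    rw [ENNReal.div_eq_inv_mul, mul_pow, ← ENNReal.inv_pow, ← ENNReal.div_eq_inv_mul]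
    rw [ENNReal.le_div_iff_mul_le (Or.inl (pow_ne_zero _ hb0)) (Or.inl (ENNReal.pow_ne_top hbt)),
      mul_comm]
    exact h2
  have hlim : Tendsto (fun n : ℕ => (M / b) ^ n) atTop (𝓝 0) :=
    ENNReal.tendsto_pow_atTop_nhds_zero_of_lt_one hM
  have h0 := ge_of_tendsto hlim (by
    filter_upwards [eventually_ge_atTop 2] with n hn
    exact hle n hn)
  exact hpos (le_antisymm h0 bot_le)

/-- The resolvent is a contraction of `L^p`, `2 ≤ p ≤ ∞`. -/
theorem rs_contr' {p : ℝ≥0∞} (hp : 2 ≤ p) {f : V → ℝ} (hf : SP f) {s : ℝ} (hs : 0 < s) :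
    eLpNorm (mul (rs s) f) p (volume.restrict cube) ≤ eLpNorm f p (volume.restrict cube) := by
  have := cube_prob
  rcases eq_or_ne p (⊤ : ℝ≥0∞) with h | h
  · rw [h]
    refine top_le_of_all (sp_mul (mlt_rs s) hf).cont fun n hn => ?_
    refine (rs_contr (by exact_mod_cast hn) hf hs).trans ?_
    exact eLpNorm_le_eLpNorm_of_exponent_le le_top hf.cont.aestronglyMeasurable
  · rw [← ENNReal.ofReal_toReal h]
    refine rs_contr ?_ hf hs
    have := (ENNReal.toReal_le_toReal (by norm_num) h).2 hp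
    simpa using this

end Pool.Agent.R923.HC
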