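import Pool.Agent.R923.HC.C1

/-!
Helical fields: the algebraic identity, and the trilinear forms as sums over triads.
-/

open MeasureTheory Set Filter Topology H459R3.NS Pool.Agent.W734.NS
open scoped ContDiff ENNReal

namespace Pool.Agent.R923.HC

/-- `k × z` -/
noncomputable def cr (k : K3) (z : Fin 3 → ℂ) : Fin 3 → ℂ := crossProduct (fun j => (k j : ℂ)) z

/-- The field with Fourier coefficients `A` is helical with sign `s`: `curl v = s Λ v`, and has mean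
zero. -/
structure Hel (s : ℝ) (A : Fin 3 → K3 → ℂ) : Prop where
  zero : ∀ i, A i 0 = 0
  eig : ∀ k i, Complex.I * cr k (fun j => A j k) i = s * len k * A i k

theorem cr0 (k : K3) (z : Fin 3 → ℂ) : cr k z 0 = k 1 * z 2 - k 2 * z 1 := by
  simp [cr, crossProduct]

theorem cr1 (k : K3) (z : Fin 3 → ℂ) : cr k z 1 = k 2 * z 0 - k 0 * z 2 := by
  simp [cr, crossProduct]

theorem cr2 (k : K3) (z : Fin 3 → ℂ) : cr k z 2 = k 0 * z 1 - k 1 * z 0 := by
  simp [cr, crossProduct]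

theorem Hel.div {s : ℝ} (hs : s ≠ 0) {A : Fin 3 → K3 → ℂ} (h : Hel s A) (k : K3) :
    ∑ j, (k j : ℂ) * A j k = 0 := by
  by_cases hk : k = 0
  · rw [hk]; simp
  have h0 := h.eig k 0
  have h1 := h.eig k 1
  have h2 := h.eig k 2
  rw [cr0] at h0
  rw [cr1] at h1
  rw [cr2] at h2
  have h3 : (s : ℂ) * len k * ∑ j, (k j : ℂ) * A j k = 0 := by
    rw [Fin.sum_univ_three]
    linear_combination (-(k 0 : ℂ)) * h0 - (k 1 : ℂ) * h1 - (k 2 : ℂ) * h2
  have h4 : (s : ℂ) * len k ≠ 0 := by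
    refine mul_ne_zero (by exact_mod_cast hs) ?_
    have := one_le_len hk
    exact_mod_cast (by linarith : (len k : ℝ) ≠ 0)
  exact (mul_eq_zero.1 h3).resolve_left h4

/-- The algebraic identity behind the cancellation. -/
theorem hel_id {k0 k1 k2 q0 q1 q2 A0 A1 A2 B0 B1 B2 C0 C1 C2 a b s : ℂ}
    (hA0 : Complex.I * (k1 * A2 - k2 * A1) = s * a * A0)
    (hA1 : Complex.I * (k2 * A0 - k0 * A2) = s * a * A1)
    (hA2 : Complex.I * (k0 * A1 - k1 * A0) = s * a * A2)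
    (hB0 : Complex.I * (q1 * B2 - q2 * B1) = -s * b * B0)
    (hB1 : Complex.I * (q2 * B0 - q0 * B2) = -s * b * B1)
    (hB2 : Complex.I * (q0 * B1 - q1 * B0) = -s * b * B2)
    (hk : k0 * A0 + k1 * A1 + k2 * A2 = 0) (hq : q0 * B0 + q1 * B1 + q2 * B2 = 0)
    (hl : (-k0 - q0) * C0 + (-k1 - q1) * C1 + (-k2 - q2) * C2 = 0) :
    s * (a + b) * (C0 * (A1 * B2 - A2 * B1) + C1 * (A2 * B0 - A0 * B2) + C2 * (A0 * B1 - A1 * B0))
      = -(Complex.I * ((C0 * A0 + C1 * A1 + C2 * A2)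
          * ((-k0 - q0) * B0 + (-k1 - q1) * B1 + (-k2 - q2) * B2)
        + (C0 * B0 + C1 * B1 + C2 * B2)
          * ((-k0 - q0) * A0 + (-k1 - q1) * A1 + (-k2 - q2) * A2))) := by
  linear_combination (-(B1 * C2 - B2 * C1)) * hA0 - (B2 * C0 - B0 * C2) * hA1
    - (B0 * C1 - B1 * C0) * hA2 + (C1 * A2 - C2 * A1) * hB0 + (C2 * A0 - C0 * A2) * hB1
    + (C0 * A1 - C1 * A0) * hB2 - Complex.I * (C0 * B0 + C1 * B1 + C2 * B2) * hk
    - Complex.I * (C0 * A0 + C1 * A1 + C2 * A2) * hq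
    + Complex.I * (A0 * B0 + A1 * B1 + A2 * B2) * hl

end Pool.Agent.R923.HC
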