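import Pool.Agent.R923.HC.D1

/-!
The production of the critical norm by a helical field, written with resolvents.
-/

open MeasureTheory Set Filter Topology H459R3.NS Pool.Agent.W734.NS
open scoped ContDiff ENNReal

namespace Pool.Agent.R923.HC

/-- trilinear sums -/
theorem hasSum_tri {a b c : V → ℝ} (ha : SP a) (hb : SP b) (hc : SP c) :
    HasSum (fun p : K3 × K3 => fr a p.1 * fr b p.2 * fr c (-p.1 - p.2))
      ((∫ x in cube, a x * (b x * c x) : ℝ) : ℂ) := by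
  rw [← tri_fr ha hb hc]
  exact (summable_tri (rap_fr ha).summable (rap_fr hb).summable (rap_fr hc).summable).hasSum

/-- `∂ⱼ uᵢ + ∂ᵢ uⱼ` -/
noncomputable def sg (u : Fin 3 → V → ℝ) (i j : Fin 3) (x : V) : ℝ := pd j (u i) x + pd i (u j) x

theorem sp_sg {u : Fin 3 → V → ℝ} (hu : ∀ i, SP (u i)) (i j : Fin 3) : SP (sg u i j) :=
  ((hu i).pd j).add ((hu j).pd i)

theorem fr_add {f g : V → ℝ} (hf : SP f) (hg : SP g) (k : K3) :
    fr (fun x => f x + g x) k = fr f k + fr g k := by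
  have i1 : IntegrableOn (fun x => ee (-k) x * (f x : ℂ)) cube :=
    integrableOn_cube ((ee_continuous _).mul (contDiff_ofReal hf.smooth).continuous)
  have i2 : IntegrableOn (fun x => ee (-k) x * (g x : ℂ)) cube :=
    integrableOn_cube ((ee_continuous _).mul (contDiff_ofReal hg.smooth).continuous)
  have h := integral_add i1 i2
  unfold fr fc
  rw [← h]
  congr 1
  funext x
  push_cast
  ring

theorem fr_sg {u : Fin 3 → V → ℝ} (hu : ∀ i, SP (u i)) (i j : Fin 3) (k : K3) :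
    fr (sg u i j) k = 2 * Real.pi * Complex.I * ((k j : ℂ) * fr (u i) k + (k i : ℂ) * fr (u j) k) := by
  show fr (fun x => pd j (u i) x + pd i (u j) x) k = _
  rw [fr_add ((hu i).pd j) ((hu j).pd i), fr_pd (hu i), fr_pd (hu j), D, D]
  ring

/-- `∑ ∫ vᵢ wⱼ (∂ⱼ uᵢ + ∂ᵢ uⱼ)` -/
noncomputable def Gf (u v w : Fin 3 → V → ℝ) : ℝ :=
  ∑ i, ∑ j, ∫ x in cube, v i x * (w j x * sg u i j x)

/-- the terms of the sum over triads -/
noncomputable def X (u : Fin 3 → V → ℝ) (A B : Fin 3 → K3 → ℂ) (p : K3 × K3) : ℂ :=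
  ∑ i, ∑ j, A i p.1 * B j p.2 * fr (sg u i j) (-p.1 - p.2)

theorem hasSum_Gf {u v w : Fin 3 → V → ℝ} (hu : ∀ i, SP (u i)) (hv : ∀ i, SP (v i))
    (hw : ∀ i, SP (w i)) :
    HasSum (X u (fun i => fr (v i)) (fun i => fr (w i))) ((Gf u v w : ℝ) : ℂ) := by
  unfold Gf X
  push_cast
  exact hasSum_sum fun i _ => hasSum_sum fun j _ => by
    have := hasSum_tri (hv i) (hw j) (sp_sg hu i j)
    exact_mod_cast this

theorem summable_X {u : Fin 3 → V → ℝ} (hu : ∀ i, SP (u i)) {A B : Fin 3 → K3 → ℂ}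
    (hA : ∀ i, Rap (A i)) (hB : ∀ i, Rap (B i)) : Summable fun p => ‖X u A B p‖ := by
  have h : ∀ i j, Summable fun p : K3 × K3 =>
      ‖A i p.1‖ * ‖B j p.2‖ * ‖fr (sg u i j) (-p.1 - p.2)‖ := fun i j =>
    summable_norm_tri (hA i).summable (hB j).summable (rap_fr (sp_sg hu i j)).summable
  refine Summable.of_nonneg_of_le (fun p => norm_nonneg _) (fun p => ?_)
    (summable_sum (s := Finset.univ) fun i _ => summable_sum (s := Finset.univ) fun j _ => h i j)
  unfold X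
  refine (norm_sum_le _ _).trans (Finset.sum_le_sum fun i _ => ?_)
  refine (norm_sum_le _ _).trans (Finset.sum_le_sum fun j _ => ?_)
  rw [norm_mul, norm_mul]

theorem X_mul (u : Fin 3 → V → ℝ) (A B : Fin 3 → K3 → ℂ) (m n : K3 → ℝ) (p : K3 × K3) :
    X u (fun i k => (m k : ℂ) * A i k) (fun i k => (n k : ℂ) * B i k) p
      = ((m p.1 * n p.2 : ℝ) : ℂ) * X u A B p := by
  unfold X
  rw [Finset.mul_sum]
  refine Finset.sum_congr rfl fun i _ => ?_
  rw [Finset.mul_sum]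
  refine Finset.sum_congr rfl fun j _ => ?_
  push_cast
  ring

/-- `u · (a × b)` integrated -/
noncomputable def trip (u a b : Fin 3 → V → ℝ) : ℝ :=
  ((∫ x in cube, a 1 x * (b 2 x * u 0 x)) - ∫ x in cube, a 2 x * (b 1 x * u 0 x))
  + ((∫ x in cube, a 2 x * (b 0 x * u 1 x)) - ∫ x in cube, a 0 x * (b 2 x * u 1 x))
  + ((∫ x in cube, a 0 x * (b 1 x * u 2 x)) - ∫ x in cube, a 1 x * (b 0 x * u 2 x))

/-- the terms of the sum over triads -/
noncomputable def Y (C A B : Fin 3 → K3 → ℂ) (p : K3 × K3) : ℂ :=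
  C 0 (-p.1 - p.2) * (A 1 p.1 * B 2 p.2 - A 2 p.1 * B 1 p.2)
  + C 1 (-p.1 - p.2) * (A 2 p.1 * B 0 p.2 - A 0 p.1 * B 2 p.2)
  + C 2 (-p.1 - p.2) * (A 0 p.1 * B 1 p.2 - A 1 p.1 * B 0 p.2)

theorem hasSum_trip {u a b : Fin 3 → V → ℝ} (hu : ∀ i, SP (u i)) (ha : ∀ i, SP (a i))
    (hb : ∀ i, SP (b i)) :
    HasSum (Y (fun i => fr (u i)) (fun i => fr (a i)) (fun i => fr (b i)))
      ((trip u a b : ℝ) : ℂ) := by
  have h := fun i j m => hasSum_tri (ha i) (hb j) (hu m)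
  have h1 := (((h 1 2 0).sub (h 2 1 0)).add ((h 2 0 1).sub (h 0 2 1))).add
    ((h 0 1 2).sub (h 1 0 2))
  unfold trip
  push_cast
  have e : (Y (fun i => fr (u i)) (fun i => fr (a i)) (fun i => fr (b i)))
      = fun p : K3 × K3 => ((fr (a 1) p.1 * fr (b 2) p.2 * fr (u 0) (-p.1 - p.2)
        - fr (a 2) p.1 * fr (b 1) p.2 * fr (u 0) (-p.1 - p.2))
        + (fr (a 2) p.1 * fr (b 0) p.2 * fr (u 1) (-p.1 - p.2)
        - fr (a 0) p.1 * fr (b 2) p.2 * fr (u 1) (-p.1 - p.2)))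
        + (fr (a 0) p.1 * fr (b 1) p.2 * fr (u 2) (-p.1 - p.2)
        - fr (a 1) p.1 * fr (b 0) p.2 * fr (u 2) (-p.1 - p.2)) := by
    funext p
    unfold Y
    ring
  rw [e]
  exact h1

theorem Y_mul (C A B : Fin 3 → K3 → ℂ) (m n : K3 → ℝ) (p : K3 × K3) :
    Y C (fun i k => (m k : ℂ) * A i k) (fun i k => (n k : ℂ) * B i k) p
      = ((m p.1 * n p.2 : ℝ) : ℂ) * Y C A B p := by
  unfold Y
  push_cast
  ring

/-- The identity for each triad. -/
theorem Y_eq_X {u : Fin 3 → V → ℝ} (hu : ∀ i, SP (u i)) (hdiv : ∀ x, ∑ i, pd i (u i) x = 0)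
    {s : ℝ} (hs : s ≠ 0) {A B : Fin 3 → K3 → ℂ} (hA : Hel s A) (hB : Hel (-s) B) (p : K3 × K3) :
    (s : ℂ) * ((lam p.1 + lam p.2 : ℝ) : ℂ) * Y (fun i => fr (u i)) A B p = -X u A B p := by
  obtain ⟨k, q⟩ := p
  have hk := hA.div hs k
  have hq := hB.div (neg_ne_zero.2 hs) q
  have hl := fr_div hu hdiv (-k - q)
  rw [Fin.sum_univ_three] at hk hq hl
  have hA0 := hA.eig k 0
  have hA1 := hA.eig k 1
  have hA2 := hA.eig k 2
  have hB0 := hB.eig q 0
  have hB1 := hB.eig q 1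
  have hB2 := hB.eig q 2
  rw [cr0] at hA0 hB0
  rw [cr1] at hA1 hB1
  rw [cr2] at hA2 hB2
  simp only [Pi.sub_apply, Pi.neg_apply, Int.cast_sub, Int.cast_neg] at hl
  push_cast at hB0 hB1 hB2
  have key := hel_id (C0 := fr (u 0) (-k - q)) (C1 := fr (u 1) (-k - q))
    (C2 := fr (u 2) (-k - q)) hA0 hA1 hA2 hB0 hB1 hB2 hk hq hl
  simp only [Y, X, Fin.sum_univ_three, fr_sg hu, lam, Pi.sub_apply, Pi.neg_apply, Int.cast_sub,
    Int.cast_neg]
  push_cast
  linear_combination (2 * (Real.pi : ℂ)) * key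

/-- The symbol `λ² / (σ² + λ²)`. -/
noncomputable def ks (s : ℝ) (k : K3) : ℝ := lam k ^ 2 / (s ^ 2 + lam k ^ 2)

theorem ks_nonneg (s : ℝ) (k : K3) : 0 ≤ ks s k := by unfold ks; positivity

theorem ks_le_one (s : ℝ) (k : K3) : ks s k ≤ 1 := by
  unfold ks
  rcases (sq_nonneg (lam k)).eq_or_lt with h | h
  · rw [← h, zero_div]; exact zero_le_one
  · rw [div_le_one (by positivity)]
    nlinarith [sq_nonneg s]

theorem mlt_ks (s : ℝ) : Mlt (ks s) where
  even := fun k => by unfold ks; rw [lam_neg]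
  bd := ⟨1, 0, zero_le_one, fun k => by
    rw [abs_of_nonneg (ks_nonneg s k)]
    simpa using ks_le_one s k⟩

/-- The integral of the product of the symbols. -/
theorem int_symbols {a b : ℝ} (ha : 0 < a) (hb : 0 < b) :
    IntegrableOn (fun s : ℝ => s ^ 2 / (s ^ 2 + a ^ 2) * (b ^ 2 / (s ^ 2 + b ^ 2))) (Ioi 0) ∧
    ∫ s in Ioi (0 : ℝ), s ^ 2 / (s ^ 2 + a ^ 2) * (b ^ 2 / (s ^ 2 + b ^ 2))
      = Real.pi / 2 * (b ^ 2 / (a + b)) := by
  obtain ⟨F, hF, hF0, hFl⟩ : ∃ F : ℝ → ℝ,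
      (∀ s ∈ Ici (0 : ℝ), HasDerivAt F (s ^ 2 / (s ^ 2 + a ^ 2) * (b ^ 2 / (s ^ 2 + b ^ 2))) s) ∧
      F 0 = 0 ∧ Tendsto F atTop (𝓝 (Real.pi / 2 * (b ^ 2 / (a + b)))) := by
    have hat : ∀ {c : ℝ}, 0 < c → ∀ s : ℝ,
        HasDerivAt (fun s => c * Real.arctan (s / c)) (c ^ 2 / (s ^ 2 + c ^ 2)) s := by
      intro c hc s
      have h1 : HasDerivAt (fun s : ℝ => s / c) (1 / c) s := (hasDerivAt_id s).div_const c
      have h2 := (h1.arctan).const_mul c
      refine h2.congr_deriv ?_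
      have : 1 + (s / c) ^ 2 ≠ 0 := by positivity
      have h3 : s ^ 2 + c ^ 2 ≠ 0 := by positivity
      field_simp
      ring
    have hlim : ∀ {c : ℝ}, 0 < c → Tendsto (fun s : ℝ => c * Real.arctan (s / c)) atTop
        (𝓝 (c * (Real.pi / 2))) := by
      intro c hc
      have h1 : Tendsto (fun s : ℝ => s / c) atTop atTop := tendsto_id.atTop_div_const hc
      exact (tendsto_nhds_of_tendsto_nhdsWithin (Real.tendsto_arctan_atTop.comp h1)).const_mul c
    rcases eq_or_ne a b with hab | hab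
    · subst hab
      refine ⟨fun s => 1 / 2 * (a * Real.arctan (s / a)) - a ^ 2 / 2 * (s / (s ^ 2 + a ^ 2)),
        fun s _ => ?_, by simp, ?_⟩
      · have h0 : s ^ 2 + a ^ 2 ≠ 0 := by positivity
        have h1 : HasDerivAt (fun s : ℝ => s ^ 2 + a ^ 2) (2 * s) s := by
          have := (hasDerivAt_pow 2 s).add_const (a ^ 2)
          simpa using this
        have h2 := (hasDerivAt_id s).div h1 h0
        have h3 := ((hat ha s).const_mul (1 / 2)).sub (h2.const_mul (a ^ 2 / 2))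
        refine h3.congr_deriv ?_
        simp only [id_eq, one_mul]
        field_simp
        ring
      · have h1 := (hlim ha).const_mul (1 / 2)
        have h2 : Tendsto (fun s : ℝ => s / (s ^ 2 + a ^ 2)) atTop (𝓝 0) := by
          have h3 : Tendsto (fun s : ℝ => s⁻¹) atTop (𝓝 0) := tendsto_inv_atTop_zero
          refine squeeze_zero' ?_ ?_ h3
          · filter_upwards [eventually_gt_atTop 0] with s hs
            positivity
          · filter_upwards [eventually_gt_atTop 0] with s hs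
            rw [div_le_iff₀ (by positivity), inv_mul_eq_div, le_div_iff₀ hs]
            nlinarith [sq_nonneg a]
        have h4 := h1.sub (h2.const_mul (a ^ 2 / 2))
        convert h4 using 2
        field_simp
        ring
    · have hne : a ^ 2 - b ^ 2 ≠ 0 := by
        intro h
        have : (a - b) * (a + b) = 0 := by linarith
        rcases mul_eq_zero.1 this with h' | h'
        · exact hab (by linarith)
        · linarith
      refine ⟨fun s => b ^ 2 / (a ^ 2 - b ^ 2) * (a * Real.arctan (s / a)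
        - b * Real.arctan (s / b)), fun s _ => ?_, by simp, ?_⟩
      · have h3 := ((hat ha s).sub (hat hb s)).const_mul (b ^ 2 / (a ^ 2 - b ^ 2))
        refine h3.congr_deriv ?_
        have h0 : s ^ 2 + a ^ 2 ≠ 0 := by positivity
        have h1 : s ^ 2 + b ^ 2 ≠ 0 := by positivity
        field_simp
        ring
      · have h4 := ((hlim ha).sub (hlim hb)).const_mul (b ^ 2 / (a ^ 2 - b ^ 2))
        convert h4 using 2
        have : a + b ≠ 0 := by positivity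
        have hne2 : a ^ 2 - b ^ 2 = (a - b) * (a + b) := by ring
        have hne3 : a - b ≠ 0 := sub_ne_zero.2 hab
        rw [hne2]
        field_simp
  have hnn : ∀ s ∈ Ioi (0 : ℝ), 0 ≤ s ^ 2 / (s ^ 2 + a ^ 2) * (b ^ 2 / (s ^ 2 + b ^ 2)) := by
    intro s _
    positivity
  refine ⟨integrableOn_Ioi_deriv_of_nonneg' hF hnn hFl, ?_⟩
  rw [integral_Ioi_of_hasDerivAt_of_nonneg' hF hnn hFl, hF0, sub_zero]

end Pool.Agent.R923.HC
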