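import Pool.Agent.R923.HC.D2

/-!
The production of the critical norm by a helical field, written with resolvents.
-/

open MeasureTheory Set Filter Topology H459R3.NS Pool.Agent.W734.NS
open scoped ContDiff ENNReal

namespace Pool.Agent.R923.HC

variable {u v w : Fin 3 → V → ℝ}

theorem X_zero1 (u : Fin 3 → V → ℝ) {A : Fin 3 → K3 → ℂ} (hA : ∀ i, A i 0 = 0) (B : Fin 3 → K3 → ℂ)
    {p : K3 × K3} (hp : p.1 = 0) : X u A B p = 0 := by
  unfold X
  rw [hp]
  simp [hA]

theorem X_zero2 (u : Fin 3 → V → ℝ) (A : Fin 3 → K3 → ℂ) {B : Fin 3 → K3 → ℂ}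
    (hB : ∀ i, B i 0 = 0) {p : K3 × K3} (hp : p.2 = 0) : X u A B p = 0 := by
  unfold X
  rw [hp]
  simp [hB]

theorem Y_zero1 (C : Fin 3 → K3 → ℂ) {A : Fin 3 → K3 → ℂ} (hA : ∀ i, A i 0 = 0)
    (B : Fin 3 → K3 → ℂ) {p : K3 × K3} (hp : p.1 = 0) : Y C A B p = 0 := by
  unfold Y
  rw [hp]
  simp [hA]

theorem Y_zero2 (C : Fin 3 → K3 → ℂ) (A : Fin 3 → K3 → ℂ) {B : Fin 3 → K3 → ℂ}
    (hB : ∀ i, B i 0 = 0) {p : K3 × K3} (hp : p.2 = 0) : Y C A B p = 0 := by
  unfold Y
  rw [hp]
  simp [hB]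

/-- The integral over the resolvent parameter as a sum over triads. -/
theorem hasSum_int (hu : ∀ i, SP (u i)) (hv : ∀ i, SP (v i)) (hw : ∀ i, SP (w i))
    (hv0 : ∀ i, fr (v i) 0 = 0) (hw0 : ∀ i, fr (w i) 0 = 0) :
    HasSum (fun p : K3 × K3 => ((Real.pi / 2 * (lam p.2 ^ 2 / (lam p.1 + lam p.2)) : ℝ) : ℂ)
        * X u (fun i => fr (v i)) (fun i => fr (w i)) p)
      ((∫ s in Ioi (0 : ℝ), Gf u (fun i => mul (rs s) (v i)) (fun i => mul (ks s) (w i)) : ℝ) : ℂ) := by
  set A : Fin 3 → K3 → ℂ := fun i => fr (v i) with hA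
  set B : Fin 3 → K3 → ℂ := fun i => fr (w i) with hB
  have hrA : ∀ i, Rap (A i) := fun i => rap_fr (hv i)
  have hrB : ∀ i, Rap (B i) := fun i => rap_fr (hw i)
  set F : K3 × K3 → ℝ → ℂ := fun p s => ((rs s p.1 * ks s p.2 : ℝ) : ℂ) * X u A B p with hF
  have hcase : ∀ p : K3 × K3, X u A B p = 0 ∨ (0 < lam p.1 ∧ 0 < lam p.2) := by
    intro p
    by_cases h1 : p.1 = 0
    · exact Or.inl (X_zero1 u hv0 B h1)
    by_cases h2 : p.2 = 0
    · exact Or.inl (X_zero2 u A hw0 h2)
    exact Or.inr ⟨lam_pos h1, lam_pos h2⟩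
  have hint : ∀ p, IntegrableOn (F p) (Ioi 0) := by
    intro p
    rcases hcase p with h | ⟨h1, h2⟩
    · have : F p = fun _ => 0 := by
        funext s
        simp only [hF, h, mul_zero]
      rw [this]
      exact integrableOn_zero
    · exact ((int_symbols h1 h2).1.ofReal).mul_const _
  have hval : ∀ p, ∫ s in Ioi (0 : ℝ), F p s
      = ((Real.pi / 2 * (lam p.2 ^ 2 / (lam p.1 + lam p.2)) : ℝ) : ℂ) * X u A B p := by
    intro p
    rcases hcase p with h | ⟨h1, h2⟩
    · simp only [hF, h, mul_zero, integral_zero]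
    · simp only [hF]
      rw [integral_mul_const, integral_complex_ofReal]
      congr 2
      exact (int_symbols h1 h2).2
  have hnorm : ∀ p, ∫ s in Ioi (0 : ℝ), ‖F p s‖
      = Real.pi / 2 * (lam p.2 ^ 2 / (lam p.1 + lam p.2)) * ‖X u A B p‖ := by
    intro p
    rcases hcase p with h | ⟨h1, h2⟩
    · simp only [hF, h, mul_zero, norm_zero, integral_zero]
    · simp only [hF]
      have e : ∀ s, ‖((rs s p.1 * ks s p.2 : ℝ) : ℂ) * X u A B p‖
          = (rs s p.1 * ks s p.2) * ‖X u A B p‖ := by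
        intro s
        rw [norm_mul, Complex.norm_real, Real.norm_eq_abs,
          abs_of_nonneg (mul_nonneg (rs_nonneg _ _) (ks_nonneg _ _))]
      simp_rw [e]
      rw [integral_mul_const]
      congr 1
      exact (int_symbols h1 h2).2
  have hsum : Summable fun p => ∫ s in Ioi (0 : ℝ), ‖F p s‖ := by
    simp_rw [hnorm]
    have h1 : Summable fun p => ‖X u A (fun i k => (lam k : ℂ) * B i k) p‖ :=
      summable_X hu hrA fun i => mlt_lam.rap (hrB i)
    refine Summable.of_nonneg_of_le (fun p => ?_) (fun p => ?_) (h1.mul_left (Real.pi / 2))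
    · have a1 := lam_nonneg p.1
      have a2 := lam_nonneg p.2
      positivity
    · have e : X u A (fun i k => (lam k : ℂ) * B i k) p = ((lam p.2 : ℝ) : ℂ) * X u A B p := by
        have := X_mul u A B (fun _ => 1) lam p
        simpa using this
      rw [e, norm_mul, Complex.norm_real, Real.norm_eq_abs, abs_of_nonneg (lam_nonneg _)]
      have a1 := lam_nonneg p.1
      have a2 := lam_nonneg p.2
      have h3 : lam p.2 ^ 2 / (lam p.1 + lam p.2) ≤ lam p.2 := by
        rcases (add_nonneg a1 a2).eq_or_lt with h | h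
        · rw [← h, div_zero]; exact a2
        · rw [div_le_iff₀ h]
          nlinarith
      calc Real.pi / 2 * (lam p.2 ^ 2 / (lam p.1 + lam p.2)) * ‖X u A B p‖
          ≤ Real.pi / 2 * lam p.2 * ‖X u A B p‖ := by
            have := Real.pi_pos
            gcongr
        _ = _ := by ring
  have key := hasSum_integral_of_summable_integral_norm hint hsum
  simp_rw [hval] at key
  have e : (∫ s in Ioi (0 : ℝ), ∑' p, F p s)
      = ((∫ s in Ioi (0 : ℝ), Gf u (fun i => mul (rs s) (v i)) (fun i => mul (ks s) (w i)) : ℝ) : ℂ) := by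
    rw [← integral_complex_ofReal]
    congr 1
    funext s
    have h1 := hasSum_Gf hu (fun i => sp_mul (mlt_rs s) (hv i)) (fun i => sp_mul (mlt_ks s) (hw i))
    rw [← h1.tsum_eq]
    refine tsum_congr fun p => ?_
    have e1 : (fun i => fr (mul (rs s) (v i))) = fun i k => (rs s k : ℂ) * A i k :=
      funext fun i => fr_mul (mlt_rs s) (hv i)
    have e2 : (fun i => fr (mul (ks s) (w i))) = fun i k => (ks s k : ℂ) * B i k :=
      funext fun i => fr_mul (mlt_ks s) (hw i)
    rw [e1, e2, X_mul]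
  rw [e] at key
  exact key

/-- The formula for the production. -/
theorem trip_formula (hu : ∀ i, SP (u i)) (hdiv : ∀ x, ∑ i, pd i (u i) x = 0)
    (hv : ∀ i, SP (v i)) (hw : ∀ i, SP (w i)) {s : ℝ} (hs : s ≠ 0)
    (hA : Hel s fun i => fr (v i)) (hB : Hel (-s) fun i => fr (w i)) :
    s * trip u (fun i => mul lam (v i)) (fun i => mul lam (w i))
      = -Gf u v (fun i => mul lam (w i)) + 2 / Real.pi *
        ∫ σ in Ioi (0 : ℝ), Gf u (fun i => mul (rs σ) (v i)) (fun i => mul (ks σ) (w i)) := by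
  set A : Fin 3 → K3 → ℂ := fun i => fr (v i) with hA'
  set B : Fin 3 → K3 → ℂ := fun i => fr (w i) with hB'
  have eA : (fun i => fr (mul lam (v i))) = fun i k => (lam k : ℂ) * A i k :=
    funext fun i => fr_mul mlt_lam (hv i)
  have eB : (fun i => fr (mul lam (w i))) = fun i k => (lam k : ℂ) * B i k :=
    funext fun i => fr_mul mlt_lam (hw i)
  have h1 := (hasSum_trip hu (fun i => sp_mul mlt_lam (hv i))
    (fun i => sp_mul mlt_lam (hw i))).mul_left (s : ℂ)
  rw [eA, eB] at h1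
  have h2 := hasSum_Gf hu hv (fun i => sp_mul mlt_lam (hw i))
  rw [eB] at h2
  have h3 := hasSum_int hu hv hw hA.zero hB.zero
  have h4 := h2.neg.add (h3.mul_left ((2 / Real.pi : ℝ) : ℂ))
  have e : ∀ p : K3 × K3, (s : ℂ) * Y (fun i => fr (u i)) (fun i k => (lam k : ℂ) * A i k)
      (fun i k => (lam k : ℂ) * B i k) p = -X u A (fun i k => (lam k : ℂ) * B i k) p
      + ((2 / Real.pi : ℝ) : ℂ) * (((Real.pi / 2 * (lam p.2 ^ 2 / (lam p.1 + lam p.2)) : ℝ) : ℂ)
        * X u A B p) := by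
    intro p
    have e1 : X u A (fun i k => (lam k : ℂ) * B i k) p = ((lam p.2 : ℝ) : ℂ) * X u A B p := by
      have := X_mul u A B (fun _ => 1) lam p
      simpa using this
    rw [Y_mul, e1]
    have hpi : (Real.pi : ℂ) ≠ 0 := by exact_mod_cast Real.pi_ne_zero
    by_cases h1 : p.1 = 0
    · rw [Y_zero1 _ hA.zero _ h1, X_zero1 u hA.zero B h1]
      simp
    by_cases h2 : p.2 = 0
    · rw [Y_zero2 _ _ hB.zero h2, X_zero2 u A hB.zero h2]
      simp
    have hl : ((lam p.1 : ℝ) : ℂ) + ((lam p.2 : ℝ) : ℂ) ≠ 0 := by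
      have : lam p.1 + lam p.2 ≠ 0 := by
        have := lam_pos h1
        have := lam_pos h2
        positivity
      exact_mod_cast this
    have h3 := Y_eq_X hu hdiv hs hA hB p
    push_cast at h3 ⊢
    have h4 : X u A B p = -((s : ℂ) * ((lam p.1 : ℂ) + (lam p.2 : ℂ))
        * Y (fun i => fr (u i)) A B p) := by
      rw [h3]; ring
    rw [h4]
    field_simp
    ring
  simp_rw [e] at h1
  have h5 := h1.unique h4
  exact_mod_cast h5

end Pool.Agent.R923.HC
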