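import Pool.Agent.R923.HC.D3
import Pool.Agent.R923.HC.B2

/-!
Estimate of the production by a helical field in `L^p`.
-/

open MeasureTheory Set Filter Topology H459R3.NS Pool.Agent.W734.NS
open scoped ContDiff ENNReal

namespace Pool.Agent.R923.HC

/-- Hölder's inequality. -/
theorem holder3 {p a b : ℝ} (hp : 0 < p) (ha : 0 < a) (hb : 0 < b) (h : 1 / p + 1 / a + 1 / b = 1)
    {f g k : V → ℝ} (hf : Continuous f) (hg : Continuous g) (hk : Continuous k) :
    ∫⁻ x in cube, ‖f x‖ₑ * (‖g x‖ₑ * ‖k x‖ₑ) ≤ eLpNorm f (ENNReal.ofReal p) (volume.restrict cube)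
      * (eLpNorm g (ENNReal.ofReal a) (volume.restrict cube)
        * eLpNorm k (ENNReal.ofReal b) (volume.restrict cube)) := by
  have h := ENNReal.lintegral_prod_norm_pow_le (μ := volume.restrict cube)
    (Finset.univ : Finset (Fin 3))
    (f := ![fun x => ‖f x‖ₑ ^ p, fun x => ‖g x‖ₑ ^ a, fun x => ‖k x‖ₑ ^ b])
    (p := ![1 / p, 1 / a, 1 / b])
    (by
      intro i _
      fin_cases i
      · exact (hf.enorm.measurable.pow_const _).aemeasurable
      · exact (hg.enorm.measurable.pow_const _).aemeasurable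
      · exact (hk.enorm.measurable.pow_const _).aemeasurable)
    (by
      simp only [Fin.sum_univ_three, Matrix.cons_val]
      exact h)
    (by
      intro i _
      fin_cases i
      · show 0 ≤ 1 / p
        positivity
      · show 0 ≤ 1 / a
        positivity
      · show 0 ≤ 1 / b
        positivity)
  simp only [Fin.prod_univ_three, Matrix.cons_val] at h
  have e : ∀ x, (‖f x‖ₑ ^ p) ^ (1 / p) * (‖g x‖ₑ ^ a) ^ (1 / a) * (‖k x‖ₑ ^ b) ^ (1 / b)
      = ‖f x‖ₑ * (‖g x‖ₑ * ‖k x‖ₑ) := by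
    intro x
    rw [← ENNReal.rpow_mul, ← ENNReal.rpow_mul, ← ENNReal.rpow_mul]
    have a1 : p * (1 / p) = 1 := by field_simp
    have a2 : a * (1 / a) = 1 := by field_simp
    have a3 : b * (1 / b) = 1 := by field_simp
    rw [a1, a2, a3, ENNReal.rpow_one, ENNReal.rpow_one, ENNReal.rpow_one, mul_assoc]
  simp_rw [e] at h
  refine h.trans (le_of_eq ?_)
  rw [eLpNorm_eq_lintegral_rpow_enorm_toReal (by simpa using hp) ENNReal.ofReal_ne_top,
    eLpNorm_eq_lintegral_rpow_enorm_toReal (by simpa using ha) ENNReal.ofReal_ne_top,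
    eLpNorm_eq_lintegral_rpow_enorm_toReal (by simpa using hb) ENNReal.ofReal_ne_top,
    ENNReal.toReal_ofReal hp.le, ENNReal.toReal_ofReal ha.le, ENNReal.toReal_ofReal hb.le]
  ring

/-- Hölder's inequality with the exponents of the criterion. -/
theorem holderS {p : ℝ≥0∞} (hp : 3 < p) {f g k : V → ℝ} (hf : Continuous f) (hg : Continuous g)
    (hk : Continuous k) :
    ∫⁻ x in cube, ‖f x‖ₑ * (‖g x‖ₑ * ‖k x‖ₑ) ≤ eLpNorm f p (volume.restrict cube)
      * (eLpNorm g (ENNReal.ofReal (6 / (3 - 2 * (th p / 2)))) (volume.restrict cube)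
        * eLpNorm k (ENNReal.ofReal (6 / (3 - 2 * (th p / 2)))) (volume.restrict cube)) := by
  rcases eq_or_ne p (⊤ : ℝ≥0∞) with h | h
  · have e : th p = 0 := by unfold th; simp [h]
    rw [e, h]
    have e2 : ENNReal.ofReal (6 / (3 - 2 * ((0 : ℝ) / 2))) = 2 := by
      have : (6 : ℝ) / (3 - 2 * ((0 : ℝ) / 2)) = 2 := by norm_num
      rw [this]; simp
    rw [e2]
    exact holder_top hf hg hk
  · have h3 : 3 < p.toReal := by
      have := (ENNReal.toReal_lt_toReal (by norm_num) h).2 hp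
      simpa using this
    have hp0 : 0 < p.toReal := by linarith
    have ht : th p = 3 / p.toReal := by
      unfold th
      rw [ENNReal.toReal_inv, div_eq_mul_inv]
    have ht1 := th_lt_one hp
    have ha : 0 < 6 / (3 - 2 * (th p / 2)) := by
      apply div_pos (by norm_num); linarith
    have key := holder3 hp0 ha ha (by
      rw [ht, one_div_div, one_div]
      field_simp
      ring) hf hg hk
    rw [ENNReal.ofReal_toReal h] at key
    exact key

theorem abs_int_le3 {f g k : V → ℝ} {R : ℝ≥0∞}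
    (h : ∫⁻ x in cube, ‖f x‖ₑ * (‖g x‖ₑ * ‖k x‖ₑ) ≤ R) :
    ENNReal.ofReal |∫ x in cube, f x * (g x * k x)| ≤ R := by
  have h2 := enorm_integral_le_lintegral_enorm (μ := volume.restrict cube)
    (fun x => f x * (g x * k x))
  rw [← ofReal_norm, Real.norm_eq_abs] at h2
  refine h2.trans ((le_of_eq ?_).trans h)
  refine lintegral_congr fun x => ?_
  rw [enorm_mul, enorm_mul]

/-- The sequence of the lengths of the Fourier coefficients of a field. -/
noncomputable def nC (u : Fin 3 → V → ℝ) (k : K3) : ℂ :=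
  ((Real.sqrt (∑ i, ‖fr (u i) k‖ ^ 2) : ℝ) : ℂ)

theorem norm_nC (u : Fin 3 → V → ℝ) (k : K3) : ‖nC u k‖ = Real.sqrt (∑ i, ‖fr (u i) k‖ ^ 2) := by
  unfold nC
  rw [Complex.norm_real, Real.norm_eq_abs, abs_of_nonneg (Real.sqrt_nonneg _)]

theorem norm_nC_sq (u : Fin 3 → V → ℝ) (k : K3) : ‖nC u k‖ ^ 2 = ∑ i, ‖fr (u i) k‖ ^ 2 := by
  rw [norm_nC, Real.sq_sqrt (by positivity)]

theorem le_nC (u : Fin 3 → V → ℝ) (i : Fin 3) (k : K3) : ‖fr (u i) k‖ ≤ ‖nC u k‖ := by
  refine (pow_le_pow_iff_left₀ (norm_nonneg _) (norm_nonneg _) two_ne_zero).1 ?_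
  rw [norm_nC_sq]
  exact Finset.single_le_sum (f := fun i => ‖fr (u i) k‖ ^ 2) (fun _ _ => sq_nonneg _)
    (Finset.mem_univ i)

theorem nC_le (u : Fin 3 → V → ℝ) (k : K3) : ‖nC u k‖ ≤ ∑ i, ‖fr (u i) k‖ := by
  refine (pow_le_pow_iff_left₀ (norm_nonneg _) (by positivity) two_ne_zero).1 ?_
  rw [norm_nC_sq, Fin.sum_univ_three, Fin.sum_univ_three]
  have h0 := norm_nonneg (fr (u 0) k)
  have h1 := norm_nonneg (fr (u 1) k)
  have h2 := norm_nonneg (fr (u 2) k)
  nlinarith [mul_nonneg h0 h1, mul_nonneg h0 h2, mul_nonneg h1 h2]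

theorem rap_nC {u : Fin 3 → V → ℝ} (hu : ∀ i, SP (u i)) : Rap (nC u) := by
  intro n
  refine Summable.of_nonneg_of_le (fun k => by positivity) (fun k => ?_)
    (summable_sum (s := Finset.univ) fun i _ => rap_fr (hu i) n)
  rw [← Finset.mul_sum]
  exact mul_le_mul_of_nonneg_left (nC_le u k) (by positivity)

theorem norm_fr_sg_le {u : Fin 3 → V → ℝ} (hu : ∀ i, SP (u i)) (i j : Fin 3) (k : K3) :
    ‖fr (sg u i j) k‖ ≤ 2 * (lam k * ‖nC u k‖) := by
  rw [fr_sg hu, norm_mul, norm_mul, norm_mul, Complex.norm_I, mul_one, Complex.norm_real,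
    Real.norm_eq_abs, abs_of_pos Real.pi_pos, Complex.norm_ofNat]
  have hpi := Real.pi_pos
  have h1 : ∀ a b : Fin 3, ‖(k a : ℂ) * fr (u b) k‖ ≤ len k * ‖nC u k‖ := by
    intro a b
    rw [norm_mul, Complex.norm_intCast]
    exact mul_le_mul (abs_le_len k a) (le_nC u b k) (norm_nonneg _) (len_nonneg k)
  have h2 := (norm_add_le ((k j : ℂ) * fr (u i) k) ((k i : ℂ) * fr (u j) k)).trans
    (add_le_add (h1 j i) (h1 i j))
  unfold lam
  calc 2 * Real.pi * ‖(k j : ℂ) * fr (u i) k + (k i : ℂ) * fr (u j) k‖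
      ≤ 2 * Real.pi * (len k * ‖nC u k‖ + len k * ‖nC u k‖) := by gcongr
    _ = _ := by ring

theorem hn_smul {s : ℝ} (c : ℝ) (hc : 0 ≤ c) (a : K3 → ℂ) :
    hn s (fun k => (c : ℂ) * a k) = c * hn s a := by
  have h : hn s (fun k => (c : ℂ) * a k) ^ 2 = (c * hn s a) ^ 2 := by
    rw [mul_pow, hn_sq, hn_sq, ← tsum_mul_left]
    refine tsum_congr fun k => ?_
    rw [norm_mul, Complex.norm_real, Real.norm_eq_abs, abs_of_nonneg hc]
    ring
  exact (pow_left_inj₀ (hn_nonneg _ _) (mul_nonneg hc (hn_nonneg _ _)) two_ne_zero).1 h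

theorem mlt_two : Mlt fun _ => (2 : ℝ) where
  even := fun _ => rfl
  bd := ⟨2, 0, by norm_num, fun k => by norm_num⟩

theorem hn_sg_le {u : Fin 3 → V → ℝ} (hu : ∀ i, SP (u i)) {θ : ℝ} (h0 : 0 ≤ θ) (i j : Fin 3) :
    hn θ (fr (sg u i j)) ≤ 2 * hn (θ + 1) (nC u) := by
  have hr := rap_nC hu
  have h1 : hn θ (fr (sg u i j)) ≤ hn θ (fun k => ((2 : ℝ) : ℂ) * ((lam k : ℂ) * nC u k)) := by
    refine hn_mono h0 (rap_fr (sp_sg hu i j)) (mlt_two.rap (mlt_lam.rap hr)) fun k => ?_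
    refine (norm_fr_sg_le hu i j k).trans (le_of_eq ?_)
    rw [norm_mul, norm_mul, Complex.norm_real, Complex.norm_real, Real.norm_eq_abs,
      Real.norm_eq_abs, abs_of_nonneg (lam_nonneg k), abs_of_pos (by norm_num : (0 : ℝ) < 2)]
  rw [hn_smul 2 (by norm_num), hn_mul_lam h0] at h1
  exact h1

theorem fr_sg_zero {u : Fin 3 → V → ℝ} (hu : ∀ i, SP (u i)) (i j : Fin 3) :
    fr (sg u i j) 0 = 0 := by
  rw [fr_sg hu]; simp

/-- The trilinear estimate. -/
theorem Gf_le {p : ℝ≥0∞} (hp : 3 < p) : ∃ C : ℝ, 0 ≤ C ∧ ∀ (u v w : Fin 3 → V → ℝ) (d : K3 → ℂ)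
    (β : ℝ), (∀ i, SP (u i)) → (∀ i, SP (v i)) → (∀ i, SP (w i)) → 0 ≤ β →
    (∀ i, eLpNorm (v i) p (volume.restrict cube) ≤ ENNReal.ofReal β) →
    (∀ i, fr (w i) 0 = 0) → Rap d → (∀ i k, ‖fr (w i) k‖ ≤ ‖d k‖) →
    |Gf u v w| ≤ C * β * (hn (th p / 2) d * hn (th p / 2 + 1) (nC u)) := by
  have hθ0 : 0 ≤ th p / 2 := by have := th_nonneg p; linarith
  have hθ1 : th p / 2 ≤ 1 := by have := th_lt_one hp; linarith
  obtain ⟨C, hC0, hC⟩ := sob hθ0 hθ1
  refine ⟨18 * C ^ 2, by positivity, fun u v w d β hu hv hw hβ hvβ hw0 hd hwd => ?_⟩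
  set θ := th p / 2 with hθ
  have hterm : ∀ i j, |∫ x in cube, v i x * (w j x * sg u i j x)|
      ≤ 2 * C ^ 2 * β * (hn θ d * hn (θ + 1) (nC u)) := by
    intro i j
    have h1 := abs_int_le3 (holderS hp (hv i).cont (hw j).cont (sp_sg hu i j).cont)
    have h2 := hC (w j) (hw j) (hw0 j)
    have h3 := hC (sg u i j) (sp_sg hu i j) (fr_sg_zero hu i j)
    have h4 : hn θ (fr (w j)) ≤ hn θ d := hn_mono hθ0 (rap_fr (hw j)) hd (hwd j)
    have h5 := hn_sg_le hu hθ0 i j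
    have hn1 := hn_nonneg θ d
    have hn2 := hn_nonneg (θ + 1) (nC u)
    have h6 : ENNReal.ofReal |∫ x in cube, v i x * (w j x * sg u i j x)|
        ≤ ENNReal.ofReal (β * ((C * hn θ d) * (C * (2 * hn (θ + 1) (nC u))))) := by
      refine h1.trans ?_
      rw [ENNReal.ofReal_mul hβ, ENNReal.ofReal_mul (by positivity)]
      refine mul_le_mul' (hvβ i) (mul_le_mul' (h2.trans ?_) (h3.trans ?_))
      · exact ENNReal.ofReal_le_ofReal (mul_le_mul_of_nonneg_left h4 hC0)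
      · exact ENNReal.ofReal_le_ofReal (mul_le_mul_of_nonneg_left h5 hC0)
    have h7 := (ENNReal.ofReal_le_ofReal_iff (by positivity)).1 h6
    refine h7.trans (le_of_eq (by ring))
  unfold Gf
  refine (Finset.abs_sum_le_sum_abs _ _).trans ?_
  have h1 : ∀ i, |∑ j, ∫ x in cube, v i x * (w j x * sg u i j x)|
      ≤ 3 * (2 * C ^ 2 * β * (hn θ d * hn (θ + 1) (nC u))) := by
    intro i
    refine (Finset.abs_sum_le_sum_abs _ _).trans ((Finset.sum_le_sum fun j _ => hterm i j).trans ?_)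
    simp
  refine (Finset.sum_le_sum fun i _ => h1 i).trans ?_
  simp only [Finset.sum_const, Finset.card_univ, Fintype.card_fin, nsmul_eq_mul]
  push_cast
  linarith

end Pool.Agent.R923.HC
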