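import Pool.Agent.R923.HC.E1

/-!
Estimate of the production by a helical field in `L^p`.
-/

open MeasureTheory Set Filter Topology H459R3.NS Pool.Agent.W734.NS
open scoped ContDiff ENNReal

namespace Pool.Agent.R923.HC

theorem frac_le {l σ x : ℝ} (hl : 0 < l) (hσ : 0 < σ) (h0 : 0 ≤ x) (h2 : x ≤ 2) :
    l ^ 2 / (σ ^ 2 + l ^ 2) ≤ (l / σ) ^ x := by
  have hr : 0 < l / σ := by positivity
  rcases le_total l σ with h | h
  · calc l ^ 2 / (σ ^ 2 + l ^ 2) ≤ l ^ 2 / σ ^ 2 := by gcongr; nlinarith [sq_nonneg l]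
      _ = (l / σ) ^ (2 : ℝ) := by rw [← div_pow]; norm_cast
      _ ≤ (l / σ) ^ x := Real.rpow_le_rpow_of_exponent_ge hr ((div_le_one hσ).2 h) h2
  · calc l ^ 2 / (σ ^ 2 + l ^ 2) ≤ 1 := by
          rw [div_le_one (by positivity)]; nlinarith [sq_nonneg σ]
      _ ≤ (l / σ) ^ x := Real.one_le_rpow ((one_le_div hσ).2 h) h0

theorem hn_ks_le {θ x σ : ℝ} (hθ : 0 ≤ θ) (h0 : 0 ≤ x) (h2 : x ≤ 2) (hx : 0 < θ + x) (hσ : 0 < σ)
    {c : K3 → ℂ} (hc : Rap c) :
    hn θ (fun k => (ks σ k : ℂ) * c k) ≤ σ ^ (-x) * hn (θ + x) c := by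
  have hr := (mlt_ks σ).rap hc
  have h : hn θ (fun k => (ks σ k : ℂ) * c k) ^ 2 ≤ (σ ^ (-x) * hn (θ + x) c) ^ 2 := by
    rw [mul_pow, hn_sq, hn_sq, ← tsum_mul_left]
    refine Summable.tsum_le_tsum (fun k => ?_) (summable_hn hθ hr)
      ((summable_hn hx.le hc).mul_left _)
    rw [norm_mul, Complex.norm_real, Real.norm_eq_abs, abs_of_nonneg (ks_nonneg _ _)]
    rcases (lam_nonneg k).eq_or_lt with hk | hk
    · have : ks σ k = 0 := by unfold ks; rw [← hk]; simp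
      rw [this]
      have : 0 ≤ lam k ^ (2 * (θ + x)) := Real.rpow_nonneg (lam_nonneg k) _
      simp only [zero_mul, ne_eq, OfNat.ofNat_ne_zero, not_false_eq_true, zero_pow, mul_zero]
      positivity
    · have h1 : ks σ k ≤ (lam k / σ) ^ x := frac_le hk hσ h0 h2
      have h3 : lam k ^ θ * ks σ k ≤ σ ^ (-x) * lam k ^ (θ + x) := by
        calc lam k ^ θ * ks σ k ≤ lam k ^ θ * (lam k / σ) ^ x := by gcongr
          _ = σ ^ (-x) * lam k ^ (θ + x) := by
            rw [Real.div_rpow hk.le hσ.le, Real.rpow_add hk, Real.rpow_neg hσ.le]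
            ring
      have h4 : (lam k ^ θ * ks σ k) ^ 2 ≤ (σ ^ (-x) * lam k ^ (θ + x)) ^ 2 :=
        pow_le_pow_left₀ (mul_nonneg (Real.rpow_nonneg hk.le _) (ks_nonneg _ _)) h3 2
      have e1 : lam k ^ (2 * θ) = (lam k ^ θ) ^ 2 := by
        rw [← Real.rpow_natCast, ← Real.rpow_mul hk.le]; congr 1; push_cast; ring
      have e2 : lam k ^ (2 * (θ + x)) = (lam k ^ (θ + x)) ^ 2 := by
        rw [← Real.rpow_natCast (lam k ^ (θ + x)), ← Real.rpow_mul hk.le]; congr 1; push_cast; ring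
      rw [e1, e2]
      calc (lam k ^ θ) ^ 2 * (ks σ k * ‖c k‖) ^ 2 = (lam k ^ θ * ks σ k) ^ 2 * ‖c k‖ ^ 2 := by ring
        _ ≤ (σ ^ (-x) * lam k ^ (θ + x)) ^ 2 * ‖c k‖ ^ 2 := by gcongr
        _ = _ := by ring
  exact (pow_le_pow_iff_left₀ (hn_nonneg _ _)
    (mul_nonneg (Real.rpow_nonneg hσ.le _) (hn_nonneg _ _)) two_ne_zero).1 h

theorem aux_rpow1 {Q D a b : ℝ} (hQ : 0 < Q) (hD : 0 < D) (hab : a + b = 1) :
    (D / Q) ^ b * Q = Q ^ a * D ^ b := by
  have h1 : Q = Q ^ a * Q ^ b := by rw [← Real.rpow_add hQ, hab, Real.rpow_one]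
  have h2 : Q ^ b ≠ 0 := (Real.rpow_pos_of_pos hQ _).ne'
  rw [Real.div_rpow hD.le hQ.le]
  calc D ^ b / Q ^ b * Q = D ^ b / Q ^ b * (Q ^ a * Q ^ b) := by rw [← h1]
    _ = Q ^ a * D ^ b := by field_simp

theorem aux_rpow2 {Q D a b : ℝ} (hQ : 0 < Q) (hD : 0 < D) (hab : a + b = 1) :
    (D / Q) ^ (-a) * D = Q ^ a * D ^ b := by
  have h1 : D = D ^ a * D ^ b := by rw [← Real.rpow_add hD, hab, Real.rpow_one]
  have h2 : D ^ a ≠ 0 := (Real.rpow_pos_of_pos hD _).ne'
  rw [Real.rpow_neg (by positivity), Real.div_rpow hD.le hQ.le, inv_div]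
  calc Q ^ a / D ^ a * D = Q ^ a / D ^ a * (D ^ a * D ^ b) := by rw [← h1]
    _ = Q ^ a * D ^ b := by field_simp

/-- The integral over the resolvent parameter. -/
theorem abs_int_le_of_two {F : ℝ → ℝ} {M Q D θ : ℝ} (h0 : 0 ≤ θ) (h1 : θ < 1 / 2) (hM : 0 ≤ M)
    (hQ : 0 ≤ Q) (hD : 0 ≤ D) (hF1 : ∀ σ, 0 < σ → |F σ| ≤ M * (σ ^ (-(1 / 2 - θ)) * Q))
    (hF2 : ∀ σ, 0 < σ → |F σ| ≤ M * (σ ^ (-(3 / 2 - θ)) * D)) :
    |∫ σ in Ioi (0 : ℝ), F σ| ≤ (1 / (1 / 2 + θ) + 1 / (1 / 2 - θ)) * M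
      * (Q ^ (1 / 2 - θ) * D ^ (1 / 2 + θ)) := by
  have hpos1 : 0 < 1 / 2 - θ := by linarith
  have hpos2 : 0 < 1 / 2 + θ := by linarith
  have hF0 : (Q = 0 ∨ D = 0) → |∫ σ in Ioi (0 : ℝ), F σ| ≤ (1 / (1 / 2 + θ) + 1 / (1 / 2 - θ)) * M
      * (Q ^ (1 / 2 - θ) * D ^ (1 / 2 + θ)) := by
    intro h
    have : ∫ σ in Ioi (0 : ℝ), F σ = ∫ σ in Ioi (0 : ℝ), (0 : ℝ) := by
      refine setIntegral_congr_fun measurableSet_Ioi fun σ hσ => ?_
      have hσ' : 0 < σ := hσ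
      rcases h with h | h
      · have := hF1 σ hσ'
        rw [h, mul_zero, mul_zero] at this
        exact abs_eq_zero.1 (le_antisymm this (abs_nonneg _))
      · have := hF2 σ hσ'
        rw [h, mul_zero, mul_zero] at this
        exact abs_eq_zero.1 (le_antisymm this (abs_nonneg _))
    rw [this, integral_zero, abs_zero]
    positivity
  rcases hQ.eq_or_lt with hq | hq
  · exact hF0 (Or.inl hq.symm)
  rcases hD.eq_or_lt with hd | hd
  · exact hF0 (Or.inr hd.symm)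
  set R : ℝ := D / Q with hR
  have hR0 : 0 < R := by positivity
  -- the bound
  set b : ℝ → ℝ := fun σ => (Ioc 0 R).indicator (fun σ => M * (σ ^ (-(1 / 2 - θ)) * Q)) σ
    + (Ioi R).indicator (fun σ => M * (σ ^ (-(3 / 2 - θ)) * D)) σ with hb
  have hi1 : IntegrableOn (fun σ : ℝ => σ ^ (-(1 / 2 - θ))) (Ioc 0 R) := by
    have := intervalIntegral.intervalIntegrable_rpow' (a := 0) (b := R) (r := -(1 / 2 - θ))
      (by linarith)
    exact (intervalIntegrable_iff_integrableOn_Ioc_of_le hR0.le).1 this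
  have hi2 : IntegrableOn (fun σ : ℝ => σ ^ (-(3 / 2 - θ))) (Ioi R) :=
    integrableOn_Ioi_rpow_of_lt (by linarith) hR0
  have j1 : Integrable ((Ioc 0 R).indicator (fun σ => M * (σ ^ (-(1 / 2 - θ)) * Q)))
      (volume.restrict (Ioi 0)) :=
    ((integrable_indicator_iff measurableSet_Ioc).2 ((hi1.mul_const _).const_mul _)).mono_measure
      Measure.restrict_le_self
  have j2 : Integrable ((Ioi R).indicator (fun σ => M * (σ ^ (-(3 / 2 - θ)) * D)))
      (volume.restrict (Ioi 0)) :=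
    ((integrable_indicator_iff measurableSet_Ioi).2 ((hi2.mul_const _).const_mul _)).mono_measure
      Measure.restrict_le_self
  have hle : ∀ᵐ σ ∂(volume.restrict (Ioi (0 : ℝ))), ‖F σ‖ ≤ b σ := by
    filter_upwards [ae_restrict_mem measurableSet_Ioi] with σ hσ
    have hσ' : 0 < σ := hσ
    rw [Real.norm_eq_abs]
    simp only [hb]
    rcases le_or_gt σ R with h | h
    · rw [indicator_of_mem (show σ ∈ Ioc 0 R from ⟨hσ', h⟩),
        indicator_of_notMem (show σ ∉ Ioi R from fun h' => absurd h' (not_lt.2 h)), add_zero]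
      exact hF1 σ hσ'
    · rw [indicator_of_notMem (show σ ∉ Ioc 0 R from fun h' => absurd h'.2 (not_le.2 h)),
        indicator_of_mem (show σ ∈ Ioi R from h), zero_add]
      exact hF2 σ hσ'
  have jb : Integrable b (volume.restrict (Ioi 0)) := j1.add j2
  have key := norm_integral_le_of_norm_le jb hle
  rw [Real.norm_eq_abs] at key
  refine key.trans (le_of_eq ?_)
  have e0 : (∫ σ in Ioi (0 : ℝ), b σ) = (∫ σ in Ioc 0 R, M * (σ ^ (-(1 / 2 - θ)) * Q))
      + ∫ σ in Ioi R, M * (σ ^ (-(3 / 2 - θ)) * D) := by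
    rw [hb, integral_add j1 j2, setIntegral_indicator measurableSet_Ioc,
      setIntegral_indicator measurableSet_Ioi, inter_eq_right.2 Ioc_subset_Ioi_self,
      inter_eq_right.2 (Ioi_subset_Ioi hR0.le)]
  rw [e0, integral_const_mul, integral_const_mul, integral_mul_const, integral_mul_const,
    ← intervalIntegral.integral_of_le hR0.le, integral_rpow (Or.inl (by linarith)),
    integral_Ioi_rpow_of_lt (by linarith) hR0]
  have e1 : -(1 / 2 - θ) + 1 = 1 / 2 + θ := by ring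
  have e2 : -(3 / 2 - θ) + 1 = -(1 / 2 - θ) := by ring
  rw [e1, e2, Real.zero_rpow hpos2.ne', sub_zero]
  have e3 : R ^ (1 / 2 + θ) * Q = Q ^ (1 / 2 - θ) * D ^ (1 / 2 + θ) :=
    aux_rpow1 hq hd (by ring)
  have e4 : R ^ (-(1 / 2 - θ)) * D = Q ^ (1 / 2 - θ) * D ^ (1 / 2 + θ) :=
    aux_rpow2 hq hd (by ring)
  calc M * (R ^ (1 / 2 + θ) / (1 / 2 + θ) * Q) + M * (-R ^ (-(1 / 2 - θ)) / -(1 / 2 - θ) * D)
      = M * (1 / (1 / 2 + θ) * (R ^ (1 / 2 + θ) * Q))
        + M * (1 / (1 / 2 - θ) * (R ^ (-(1 / 2 - θ)) * D)) := by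
        rw [neg_div_neg_eq]
        ring
    _ = _ := by
      rw [e3, e4]
      ring

/-- The estimate of the production by a helical field which is small in `L^p`. -/
theorem prod_le {p : ℝ≥0∞} (hp : 3 < p) : ∃ C : ℝ, 0 ≤ C ∧ ∀ (u v w : Fin 3 → V → ℝ) (s β : ℝ),
    (∀ i, SP (u i)) → (∀ x, ∑ i, pd i (u i) x = 0) → (∀ i, SP (v i)) → (∀ i, SP (w i)) → s ≠ 0 →
    Hel s (fun i => fr (v i)) → Hel (-s) (fun i => fr (w i)) → 0 ≤ β →
    (∀ i, eLpNorm (v i) p (volume.restrict cube) ≤ ENNReal.ofReal β) →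
    (∀ i k, ‖fr (w i) k‖ ≤ ‖nC u k‖) →
    |s * trip u (fun i => mul lam (v i)) (fun i => mul lam (w i))|
      ≤ C * (β * (hn (1 / 2) (nC u) ^ (1 - th p) * hn (3 / 2) (nC u) ^ (th p)
        * hn (3 / 2) (nC u))) := by
  obtain ⟨C, hC0, hC⟩ := Gf_le hp
  have ht0 := th_nonneg p
  have ht1 := th_lt_one hp
  set θ := th p / 2 with hθ
  have hθ0 : 0 ≤ θ := by rw [hθ]; linarith
  have hθ1 : θ < 1 / 2 := by rw [hθ]; linarith
  set K : ℝ := 1 / (1 / 2 + θ) + 1 / (1 / 2 - θ) with hK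
  have hK0 : 0 ≤ K := by
    have : 0 < 1 / 2 - θ := by linarith
    positivity
  refine ⟨C + 2 / Real.pi * (K * C), by
    have := Real.pi_pos
    positivity, fun u v w s β hu hdiv hv hw hs hA hB hβ hvβ hwc => ?_⟩
  set c := nC u with hc
  have hrc : Rap c := rap_nC hu
  set Q := hn (1 / 2) c with hQ
  set D := hn (3 / 2) c with hD
  have hQ0 : 0 ≤ Q := hn_nonneg _ _
  have hD0 : 0 ≤ D := hn_nonneg _ _
  have hint : hn (θ + 1) c ≤ Q ^ (1 / 2 - θ) * D ^ (1 / 2 + θ) := by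
    have h := hn_interp hrc (x := 1 / 2) (y := 3 / 2) (z := θ + 1) (θ := 1 / 2 + θ) (by norm_num)
      (by norm_num) (by linarith) (by linarith) (by linarith) (by ring)
    have e : 1 - (1 / 2 + θ) = 1 / 2 - θ := by ring
    rwa [e] at h
  set E := Q ^ (1 / 2 - θ) * D ^ (1 / 2 + θ) with hE
  have hE0 : 0 ≤ E := by positivity
  have hn1 := hn_nonneg (θ + 1) c
  -- first term
  have t1 : |Gf u v (fun i => mul lam (w i))| ≤ C * β * (E * E) := by
    have h := hC u v (fun i => mul lam (w i)) (fun k => (lam k : ℂ) * c k) β hu hv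
      (fun i => sp_mul mlt_lam (hw i)) hβ hvβ
      (fun i => by rw [fr_mul mlt_lam (hw i)]; simp [lam_zero]) (mlt_lam.rap hrc)
      (fun i k => by
        rw [fr_mul mlt_lam (hw i), norm_mul, norm_mul]
        exact mul_le_mul_of_nonneg_left (hwc i k) (norm_nonneg _))
    rw [hn_mul_lam hθ0] at h
    refine h.trans ?_
    have := mul_le_mul hint hint hn1 hE0
    exact mul_le_mul_of_nonneg_left this (by positivity)
  -- second term
  have t2 : |∫ σ in Ioi (0 : ℝ), Gf u (fun i => mul (rs σ) (v i)) (fun i => mul (ks σ) (w i))|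
      ≤ K * (C * β * E) * E := by
    have hgen : ∀ σ, 0 < σ → |Gf u (fun i => mul (rs σ) (v i)) (fun i => mul (ks σ) (w i))|
        ≤ C * β * (hn θ (fun k => (ks σ k : ℂ) * c k) * hn (θ + 1) c) := by
      intro σ hσ
      exact hC u (fun i => mul (rs σ) (v i)) (fun i => mul (ks σ) (w i))
        (fun k => (ks σ k : ℂ) * c k) β hu (fun i => sp_mul (mlt_rs σ) (hv i))
        (fun i => sp_mul (mlt_ks σ) (hw i)) hβ
        (fun i => (rs_contr' (le_trans (by norm_num) hp.le) (hv i) hσ).trans (hvβ i))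
        (fun i => by rw [fr_mul (mlt_ks σ) (hw i)]; simp [ks, lam_zero]) ((mlt_ks σ).rap hrc)
        (fun i k => by
          rw [fr_mul (mlt_ks σ) (hw i), norm_mul, norm_mul]
          exact mul_le_mul_of_nonneg_left (hwc i k) (norm_nonneg _))
    have hks := fun σ => hn_nonneg θ (fun k => (ks σ k : ℂ) * c k)
    refine abs_int_le_of_two hθ0 hθ1 (by positivity) hQ0 hD0 (fun σ hσ => ?_) (fun σ hσ => ?_)
    · refine (hgen σ hσ).trans ?_
      have h1 := hn_ks_le (θ := θ) (x := 1 / 2 - θ) hθ0 (by linarith) (by linarith) (by linarith)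
        hσ hrc
      have e : θ + (1 / 2 - θ) = 1 / 2 := by ring
      rw [e] at h1
      calc C * β * (hn θ (fun k => (ks σ k : ℂ) * c k) * hn (θ + 1) c)
          ≤ C * β * ((σ ^ (-(1 / 2 - θ)) * Q) * E) := by
            refine mul_le_mul_of_nonneg_left ?_ (by positivity)
            exact mul_le_mul h1 hint hn1 (by positivity)
        _ = _ := by ring
    · refine (hgen σ hσ).trans ?_
      have h1 := hn_ks_le (θ := θ) (x := 3 / 2 - θ) hθ0 (by linarith) (by linarith) (by linarith)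
        hσ hrc
      have e : θ + (3 / 2 - θ) = 3 / 2 := by ring
      rw [e] at h1
      calc C * β * (hn θ (fun k => (ks σ k : ℂ) * c k) * hn (θ + 1) c)
          ≤ C * β * ((σ ^ (-(3 / 2 - θ)) * D) * E) := by
            refine mul_le_mul_of_nonneg_left ?_ (by positivity)
            exact mul_le_mul h1 hint hn1 (by positivity)
        _ = _ := by ring
  rw [trip_formula hu hdiv hv hw hs hA hB]
  have hEE : E * E = Q ^ (1 - th p) * D ^ (th p) * D := by
    have e1 : Q ^ (1 / 2 - θ) * Q ^ (1 / 2 - θ) = Q ^ (1 - th p) := by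
      rw [← Real.rpow_add_of_nonneg hQ0 (by linarith) (by linarith)]
      congr 1
      rw [hθ]; ring
    have e2 : D ^ (1 / 2 + θ) * D ^ (1 / 2 + θ) = D ^ (th p) * D := by
      rw [← Real.rpow_add_of_nonneg hD0 (by linarith) (by linarith),
        ← Real.rpow_add_one' hD0 (by linarith)]
      congr 1
      rw [hθ]; ring
    calc E * E = (Q ^ (1 / 2 - θ) * Q ^ (1 / 2 - θ)) * (D ^ (1 / 2 + θ) * D ^ (1 / 2 + θ)) := by
          rw [hE]; ring
      _ = _ := by rw [e1, e2]; ring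
  refine (abs_add_le _ _).trans ?_
  rw [abs_neg, abs_mul, abs_of_pos (by have := Real.pi_pos; positivity : 0 < 2 / Real.pi)]
  have hpi : 0 ≤ 2 / Real.pi := by have := Real.pi_pos; positivity
  have t3 := mul_le_mul_of_nonneg_left t2 hpi
  refine (add_le_add t1 t3).trans (le_of_eq ?_)
  rw [← hEE]
  ring

end Pool.Agent.R923.HC
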