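import Pool.Agent.R923.HC.F3

/-!
Estimate of the production by a helical field whose curl is in `L^r`, `2 ≤ r ≤ 6`.
-/

open MeasureTheory Set Filter Topology H459R3.NS Pool.Agent.W734.NS
open scoped ContDiff ENNReal

namespace Pool.Agent.R923.HC

/-- The field minus its mean. -/
noncomputable def um (u : Fin 3 → V → ℝ) (i : Fin 3) : V → ℝ := fn (({0}ᶜ : Set K3).indicator (fr (u i)))

theorem compl_zero_neg : ∀ k ∈ ({0}ᶜ : Set K3), -k ∈ ({0}ᶜ : Set K3) := by
  intro k hk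
  simpa using hk

theorem sp_um {u : Fin 3 → V → ℝ} (hu : ∀ i, SP (u i)) (i : Fin 3) : SP (um u i) :=
  sp_fn ((rap_fr (hu i)).ind _)

theorem fr_um {u : Fin 3 → V → ℝ} (hu : ∀ i, SP (u i)) (i : Fin 3) :
    fr (um u i) = ({0}ᶜ : Set K3).indicator (fr (u i)) :=
  fr_fn ((rap_fr (hu i)).ind _) (herm_ind (herm_fr _) compl_zero_neg)

theorem trip_um {u v w : Fin 3 → V → ℝ} (hu : ∀ i, SP (u i)) (hdiv : ∀ x, ∑ i, pd i (u i) x = 0)
    (hv : ∀ i, SP (v i)) (hw : ∀ i, SP (w i)) {s : ℝ} (hs : s ≠ 0)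
    (hA : Hel s fun i => fr (v i)) (hB : Hel (-s) fun i => fr (w i)) :
    trip u (fun i => mul lam (v i)) (fun i => mul lam (w i))
      = trip (um u) (fun i => mul lam (v i)) (fun i => mul lam (w i)) := by
  set A : Fin 3 → K3 → ℂ := fun i => fr (v i) with hA'
  set B : Fin 3 → K3 → ℂ := fun i => fr (w i) with hB'
  have eA : (fun i => fr (mul lam (v i))) = fun i k => (lam k : ℂ) * A i k :=
    funext fun i => fr_mul mlt_lam (hv i)
  have eB : (fun i => fr (mul lam (w i))) = fun i k => (lam k : ℂ) * B i k :=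
    funext fun i => fr_mul mlt_lam (hw i)
  have h1 := hasSum_trip hu (fun i => sp_mul mlt_lam (hv i)) (fun i => sp_mul mlt_lam (hw i))
  have h2 := hasSum_trip (sp_um hu) (fun i => sp_mul mlt_lam (hv i))
    (fun i => sp_mul mlt_lam (hw i))
  rw [eA, eB] at h1 h2
  have e : Y (fun i => fr (u i)) (fun i k => (lam k : ℂ) * A i k) (fun i k => (lam k : ℂ) * B i k)
      = Y (fun i => fr (um u i)) (fun i k => (lam k : ℂ) * A i k)
        (fun i k => (lam k : ℂ) * B i k) := by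
    funext p
    by_cases hl : -p.1 - p.2 = 0
    · rw [Y_mul, Y_mul]
      have hz : Y (fun i => fr (u i)) A B p = 0 := by
        by_cases h1 : p.1 = 0
        · exact Y_zero1 _ hA.zero _ h1
        have h3 := Y_eq_X hu hdiv hs hA hB p
        have hX : X u A B p = 0 := by
          unfold X
          rw [hl]
          simp [fr_sg_zero hu]
        rw [hX, neg_zero] at h3
        have h4 : (s : ℂ) * ((lam p.1 + lam p.2 : ℝ) : ℂ) ≠ 0 := by
          refine mul_ne_zero (by exact_mod_cast hs) ?_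
          have := lam_pos h1
          have := lam_nonneg p.2
          exact_mod_cast (by positivity : lam p.1 + lam p.2 ≠ 0)
        exact (mul_eq_zero.1 h3).resolve_left h4
      have hz2 : Y (fun i => fr (um u i)) A B p = 0 := by
        unfold Y
        rw [hl]
        simp [fr_um hu]
      rw [hz, hz2]
    · unfold Y
      have e : ∀ i, fr (um u i) (-p.1 - p.2) = fr (u i) (-p.1 - p.2) := by
        intro i
        rw [fr_um hu, indicator_of_mem]
        simpa using hl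
      simp only [e]
  rw [e] at h1
  have h3 := h1.unique h2
  exact_mod_cast h3

/-- The estimate of the production by a helical field whose curl is small in `L^r`. -/
theorem prod_le2 {r : ℝ} (hr2 : 2 ≤ r) (hr6 : r ≤ 6) : ∃ C : ℝ, 0 ≤ C ∧
    ∀ (u v w : Fin 3 → V → ℝ) (s γ : ℝ),
    (∀ i, SP (u i)) → (∀ x, ∑ i, pd i (u i) x = 0) → (∀ i, SP (v i)) → (∀ i, SP (w i)) → s ^ 2 = 1 →
    Hel s (fun i => fr (v i)) → Hel (-s) (fun i => fr (w i)) → 0 ≤ γ →
    (∀ i, eLpNorm (mul lam (v i)) (ENNReal.ofReal r) (volume.restrict cube) ≤ ENNReal.ofReal γ) →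
    (∀ i k, ‖fr (w i) k‖ ≤ ‖nC u k‖) →
    |s * trip u (fun i => mul lam (v i)) (fun i => mul lam (w i))|
      ≤ C * (γ * (hn (1 / 2) (nC u) ^ (2 - 3 / r) * hn (3 / 2) (nC u) ^ (3 / r))) := by
  have hr0 : 0 < r := by linarith
  set ρ : ℝ := 3 / r with hρ
  have hρ1 : 1 / 2 ≤ ρ := by rw [hρ, le_div_iff₀ hr0]; linarith
  have hρ2 : ρ ≤ 3 / 2 := by rw [hρ, div_le_iff₀ hr0]; linarith
  set θ : ℝ := ρ / 2 - 1 / 4 with hθ
  set τ : ℝ := ρ / 2 + 1 / 4 with hτ
  have hθ0 : 0 ≤ θ := by rw [hθ]; linarith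
  have hθ1 : θ ≤ 1 / 2 := by rw [hθ]; linarith
  have hτ0 : 1 / 2 ≤ τ := by rw [hτ]; linarith
  have hτ1 : τ ≤ 1 := by rw [hτ]; linarith
  obtain ⟨C1, hC10, hC1⟩ := sob hθ0 (by linarith)
  obtain ⟨C2, hC20, hC2⟩ := sob (show 0 ≤ τ by linarith) hτ1
  refine ⟨6 * (C1 * C2), by positivity, fun u v w s γ hu hdiv hv hw hs2 hA hB hγ hvγ hwc => ?_⟩
  have hs : s ≠ 0 := by
    intro h
    rw [h] at hs2
    norm_num at hs2
  have hs1 : |s| = 1 :=
    (pow_left_inj₀ (abs_nonneg s) zero_le_one two_ne_zero).1 (by rw [sq_abs, hs2, one_pow])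
  set c := nC u with hc
  have hrc : Rap c := rap_nC hu
  set Q := hn (1 / 2) c with hQ
  set D := hn (3 / 2) c with hD
  have hQ0 : 0 ≤ Q := hn_nonneg _ _
  have hD0 : 0 ≤ D := hn_nonneg _ _
  have hi1 : hn (θ + 1) c ≤ Q ^ (1 / 2 - θ) * D ^ (1 / 2 + θ) := by
    have h := hn_interp hrc (x := 1 / 2) (y := 3 / 2) (z := θ + 1) (θ := 1 / 2 + θ) (by norm_num)
      (by norm_num) (by linarith) (by linarith) (by linarith) (by ring)
    have e : 1 - (1 / 2 + θ) = 1 / 2 - θ := by ring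
    rwa [e] at h
  have hi2 : hn τ c ≤ Q ^ (3 / 2 - τ) * D ^ (τ - 1 / 2) := by
    have h := hn_interp hrc (x := 1 / 2) (y := 3 / 2) (z := τ) (θ := τ - 1 / 2) (by norm_num)
      (by norm_num) (by linarith) (by linarith) (by linarith) (by ring)
    have e : 1 - (τ - 1 / 2) = 3 / 2 - τ := by ring
    rwa [e] at h
  have hprod : hn (θ + 1) c * hn τ c ≤ Q ^ (2 - ρ) * D ^ ρ := by
    refine (mul_le_mul hi1 hi2 (hn_nonneg _ _) (by positivity)).trans (le_of_eq ?_)
    have e1 : Q ^ (1 / 2 - θ) * Q ^ (3 / 2 - τ) = Q ^ (2 - ρ) := by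
      rw [← Real.rpow_add_of_nonneg hQ0 (by linarith) (by linarith)]
      congr 1
      rw [hθ, hτ]; ring
    have e2 : D ^ (1 / 2 + θ) * D ^ (τ - 1 / 2) = D ^ ρ := by
      rw [← Real.rpow_add_of_nonneg hD0 (by linarith) (by linarith)]
      congr 1
      rw [hθ, hτ]; ring
    rw [← e1, ← e2]
    ring
  have hum : ∀ m, hn τ (fr (um u m)) ≤ hn τ c := by
    intro m
    refine hn_mono (by linarith) (rap_fr (sp_um hu m)) hrc fun k => ?_
    rw [fr_um hu]
    exact (norm_indicator_le' _ _ k).trans (le_nC u m k)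
  have hwl : ∀ j, hn θ (fr (mul lam (w j))) ≤ hn (θ + 1) c := by
    intro j
    rw [← hn_mul_lam hθ0]
    refine hn_mono hθ0 (rap_fr (sp_mul mlt_lam (hw j))) (mlt_lam.rap hrc) fun k => ?_
    rw [fr_mul mlt_lam (hw j), norm_mul, norm_mul]
    exact mul_le_mul_of_nonneg_left (hwc j k) (norm_nonneg _)
  have hterm : ∀ i j m, |∫ x in cube, mul lam (v i) x * (mul lam (w j) x * um u m x)|
      ≤ C1 * C2 * (γ * (Q ^ (2 - ρ) * D ^ ρ)) := by
    intro i j m
    have ha : 0 < 6 / (3 - 2 * θ) := div_pos (by norm_num) (by linarith)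
    have hb : 0 < 6 / (3 - 2 * τ) := div_pos (by norm_num) (by linarith)
    have h1 := abs_int_le3 (holder3 hr0 ha hb (by
      rw [one_div_div, one_div_div, hθ, hτ, hρ]
      field_simp
      ring) (sp_mul mlt_lam (hv i)).cont (sp_mul mlt_lam (hw j)).cont (sp_um hu m).cont)
    have h2 := hC1 (mul lam (w j)) (sp_mul mlt_lam (hw j))
      (by rw [fr_mul mlt_lam (hw j)]; simp [lam_zero])
    have h3 := hC2 (um u m) (sp_um hu m) (by rw [fr_um hu]; simp)
    have n1 := hn_nonneg (θ + 1) c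
    have n2 := hn_nonneg τ c
    have h6 : ENNReal.ofReal |∫ x in cube, mul lam (v i) x * (mul lam (w j) x * um u m x)|
        ≤ ENNReal.ofReal (γ * ((C1 * hn (θ + 1) c) * (C2 * hn τ c))) := by
      refine h1.trans ?_
      rw [ENNReal.ofReal_mul hγ, ENNReal.ofReal_mul (by positivity)]
      refine mul_le_mul' (hvγ i) (mul_le_mul' (h2.trans ?_) (h3.trans ?_))
      · exact ENNReal.ofReal_le_ofReal (mul_le_mul_of_nonneg_left (hwl j) hC10)
      · exact ENNReal.ofReal_le_ofReal (mul_le_mul_of_nonneg_left (hum m) hC20)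
    have h7 := (ENNReal.ofReal_le_ofReal_iff (by positivity)).1 h6
    refine h7.trans ?_
    calc γ * ((C1 * hn (θ + 1) c) * (C2 * hn τ c))
        = C1 * C2 * (γ * (hn (θ + 1) c * hn τ c)) := by ring
      _ ≤ _ := by gcongr
  rw [abs_mul, hs1, one_mul, trip_um hu hdiv hv hw hs hA hB]
  unfold trip
  set M := C1 * C2 * (γ * (Q ^ (2 - ρ) * D ^ ρ)) with hM
  have a1 := abs_le.1 (hterm 1 2 0)
  have a2 := abs_le.1 (hterm 2 1 0)
  have a3 := abs_le.1 (hterm 2 0 1)
  have a4 := abs_le.1 (hterm 0 2 1)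
  have a5 := abs_le.1 (hterm 0 1 2)
  have a6 := abs_le.1 (hterm 1 0 2)
  have e : 6 * (C1 * C2) * (γ * (Q ^ (2 - ρ) * D ^ ρ)) = 6 * M := by rw [hM]; ring
  rw [e, abs_le]
  constructor <;> linarith [a1.1, a1.2, a2.1, a2.2, a3.1, a3.2, a4.1, a4.2, a5.1, a5.2, a6.1, a6.2]

end Pool.Agent.R923.HC
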