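import Pool.Agent.R923.HC.E2

/-!
Estimate of the production by a helical field with a two-dimensional set of frequencies.
-/

open MeasureTheory Set Filter Topology H459R3.NS Pool.Agent.W734.NS
open scoped ContDiff ENNReal

namespace Pool.Agent.R923.HC

theorem e2_ofReal_le {f : K3 → ℝ≥0∞} {g : K3 → ℝ} {G : ℝ} (hG : 0 ≤ G)
    (hfg : ∀ k, f k ≤ ENNReal.ofReal (g k)) (hg : ∀ k, 0 ≤ g k) (hs : Summable fun k => g k ^ 2)
    (h : ∑' k, g k ^ 2 ≤ G ^ 2) : e2 f ≤ ENNReal.ofReal G := by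
  unfold e2
  have h1 : ∑' k, f k ^ 2 ≤ ENNReal.ofReal (G ^ 2) := by
    calc ∑' k, f k ^ 2 ≤ ∑' k, ENNReal.ofReal (g k ^ 2) := by
          refine ENNReal.tsum_le_tsum fun k => ?_
          rw [ENNReal.ofReal_pow (hg k)]
          exact pow_le_pow_left₀ bot_le (hfg k) 2
      _ = ENNReal.ofReal (∑' k, g k ^ 2) := (ENNReal.ofReal_tsum_of_nonneg (fun k => sq_nonneg _) hs).symm
      _ ≤ _ := ENNReal.ofReal_le_ofReal h
  calc (∑' k, f k ^ 2) ^ (1 / 2 : ℝ) ≤ (ENNReal.ofReal (G ^ 2)) ^ (1 / 2 : ℝ) := by gcongr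
    _ = ENNReal.ofReal G := by
      rw [ENNReal.ofReal_rpow_of_nonneg (sq_nonneg _) (by norm_num), ← Real.sqrt_eq_rpow,
        Real.sqrt_sq hG]

/-- `a b / (a + b) l ≤ √2 a √(b l)` if `l ≤ a + b` -/
theorem sym_le {a b l : ℝ} (ha : 0 ≤ a) (hb : 0 ≤ b) (hl : 0 ≤ l) (h : l ≤ a + b) :
    a * b / (a + b) * l ≤ Real.sqrt 2 * (a * (Real.sqrt b * Real.sqrt l)) := by
  rcases (add_nonneg ha hb).eq_or_lt with h0 | h0
  · rw [← h0, div_zero, zero_mul]; positivity
  have hsl : Real.sqrt l * Real.sqrt l = l := Real.mul_self_sqrt hl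
  have hsb : Real.sqrt b * Real.sqrt b = b := Real.mul_self_sqrt hb
  -- `b √l ≤ √2 (a + b) √b / ...`
  have key : Real.sqrt b * Real.sqrt l ≤ Real.sqrt 2 * (a + b) := by
    have h1 : Real.sqrt b ≤ Real.sqrt (a + b) := Real.sqrt_le_sqrt (by linarith)
    have h2 : Real.sqrt l ≤ Real.sqrt (a + b) := Real.sqrt_le_sqrt h
    have h3 : Real.sqrt (a + b) * Real.sqrt (a + b) = a + b := Real.mul_self_sqrt h0.le
    have h4 : (1 : ℝ) ≤ Real.sqrt 2 := by
      rw [show (1 : ℝ) = Real.sqrt 1 by simp]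
      exact Real.sqrt_le_sqrt (by norm_num)
    calc Real.sqrt b * Real.sqrt l ≤ Real.sqrt (a + b) * Real.sqrt (a + b) :=
          mul_le_mul h1 h2 (Real.sqrt_nonneg _) (Real.sqrt_nonneg _)
      _ = 1 * (a + b) := by rw [h3, one_mul]
      _ ≤ _ := by gcongr
  calc a * b / (a + b) * l
      = a * (Real.sqrt b * Real.sqrt l) * ((Real.sqrt b * Real.sqrt l) / (a + b)) := by
        have : a * b / (a + b) * l = a * (b * l) / (a + b) := by ring
        rw [this]
        nth_rewrite 1 [← hsb]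
        nth_rewrite 1 [← hsl]
        ring
    _ ≤ a * (Real.sqrt b * Real.sqrt l) * Real.sqrt 2 := by
        refine mul_le_mul_of_nonneg_left ?_ (by positivity)
        rw [div_le_iff₀ h0]
        exact key
    _ = _ := by ring

theorem len_add_le (k q : K3) : len (k + q) ≤ len k + len q := by
  have h1 : len (k + q) ^ 2 ≤ (len k + len q) ^ 2 := by
    have hk := len_sq k
    have hq := len_sq q
    have hc : (∑ j, (k j : ℝ) * (q j : ℝ)) ≤ len k * len q := by
      have := Finset.sum_mul_sq_le_sq_mul_sq (Finset.univ : Finset (Fin 3)) (fun j => (k j : ℝ))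
        (fun j => (q j : ℝ))
      rw [← hk, ← hq, ← mul_pow] at this
      exact (abs_le_of_sq_le_sq' this (mul_nonneg (len_nonneg _) (len_nonneg _))).2
    rw [len_sq, add_sq, hk, hq]
    simp only [Pi.add_apply, Int.cast_add, Fin.sum_univ_three] at hc ⊢
    nlinarith
  exact (pow_le_pow_iff_left₀ (len_nonneg _) (add_nonneg (len_nonneg _) (len_nonneg _))
    two_ne_zero).1 h1

theorem lam_third_le (p : K3 × K3) : lam (-p.1 - p.2) ≤ lam p.1 + lam p.2 := by
  have : -p.1 - p.2 = -(p.1 + p.2) := by abel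
  rw [this, lam_neg]
  unfold lam
  have := len_add_le p.1 p.2
  have := Real.pi_pos
  nlinarith

theorem sq_sqrt_lam (c : K3 → ℂ) (k : K3) :
    (Real.sqrt (lam k) * ‖c k‖) ^ 2 = lam k ^ (2 * (1 / 2 : ℝ)) * ‖c k‖ ^ 2 := by
  rw [mul_pow, Real.sq_sqrt (lam_nonneg k)]
  congr 1
  norm_num

/-- The estimate for a field with frequencies in a two-dimensional set. -/
theorem thin_le {A : ℝ} {Q : Set K3} (hQ : DimTwo A Q) {u z w : Fin 3 → V → ℝ} {s : ℝ}
    (hu : ∀ i, SP (u i)) (hdiv : ∀ x, ∑ i, pd i (u i) x = 0) (hz : ∀ i, SP (z i))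
    (hw : ∀ i, SP (w i)) (hs : s ≠ 0) (hZ : Hel s fun i => fr (z i))
    (hB : Hel (-s) fun i => fr (w i)) (hzQ : ∀ i, ∀ k ∉ Q, fr (z i) k = 0)
    (hzc : ∀ i k, ‖fr (z i) k‖ ≤ ‖nC u k‖) (hwc : ∀ i k, ‖fr (w i) k‖ ≤ ‖nC u k‖) :
    |s * trip u (fun i => mul lam (z i)) (fun i => mul lam (w i))|
      ≤ 72 * Real.sqrt A * (hn 1 (nC u) * (hn (1 / 2) (nC u) * hn (3 / 2) (nC u))) := by
  classical
  set c := nC u with hc
  have hrc : Rap c := rap_nC hu
  set Z : Fin 3 → K3 → ℂ := fun i => fr (z i) with hZ'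
  set B : Fin 3 → K3 → ℂ := fun i => fr (w i) with hB'
  have eA : (fun i => fr (mul lam (z i))) = fun i k => (lam k : ℂ) * Z i k :=
    funext fun i => fr_mul mlt_lam (hz i)
  have eB : (fun i => fr (mul lam (w i))) = fun i k => (lam k : ℂ) * B i k :=
    funext fun i => fr_mul mlt_lam (hw i)
  have h1 := (hasSum_trip hu (fun i => sp_mul mlt_lam (hz i))
    (fun i => sp_mul mlt_lam (hw i))).mul_left (s : ℂ)
  rw [eA, eB] at h1
  set xr : K3 → ℝ := fun k => if k ∈ Q then lam k * ‖c k‖ else 0 with hxr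
  set yr : K3 → ℝ := fun k => Real.sqrt (lam k) * ‖c k‖ with hyr
  have hx0 : ∀ k, 0 ≤ xr k := fun k => by
    simp only [hxr]
    have := lam_nonneg k
    split_ifs <;> positivity
  have hy0 : ∀ k, 0 ≤ yr k := fun k => by
    simp only [hyr]
    positivity
  -- bound of the terms
  have hterm : ∀ p : K3 × K3, ‖(s : ℂ) * Y (fun i => fr (u i)) (fun i k => (lam k : ℂ) * Z i k)
      (fun i k => (lam k : ℂ) * B i k) p‖
      ≤ 18 * Real.sqrt 2 * (xr p.1 * yr p.2 * yr (-p.1 - p.2)) := by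
    intro p
    have hrhs : 0 ≤ 18 * Real.sqrt 2 * (xr p.1 * yr p.2 * yr (-p.1 - p.2)) := by
      have := hx0 p.1
      have := hy0 p.2
      have := hy0 (-p.1 - p.2)
      positivity
    rw [Y_mul]
    by_cases h1 : p.1 = 0
    · rw [Y_zero1 _ hZ.zero _ h1]
      simpa using hrhs
    by_cases h2 : p.2 = 0
    · rw [Y_zero2 _ _ hB.zero h2]
      simpa using hrhs
    have hl1 := lam_pos h1
    have hl2 := lam_pos h2
    have h3 := Y_eq_X hu hdiv hs hZ hB p
    have h4 : (s : ℂ) * (((lam p.1 * lam p.2 : ℝ) : ℂ) * Y (fun i => fr (u i)) Z B p)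
        = -(((lam p.1 * lam p.2 / (lam p.1 + lam p.2) : ℝ) : ℂ) * X u Z B p) := by
      have hl : ((lam p.1 : ℝ) : ℂ) + ((lam p.2 : ℝ) : ℂ) ≠ 0 := by
        have : lam p.1 + lam p.2 ≠ 0 := by positivity
        exact_mod_cast this
      have h5 : X u Z B p = -((s : ℂ) * ((lam p.1 : ℂ) + (lam p.2 : ℂ))
          * Y (fun i => fr (u i)) Z B p) := by
        push_cast at h3
        rw [h3]; ring
      rw [h5]
      push_cast
      field_simp
    rw [h4, norm_neg, norm_mul, Complex.norm_real, Real.norm_eq_abs, abs_of_nonneg (by positivity)]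
    have hX : ‖X u Z B p‖ ≤ 18 * ((if p.1 ∈ Q then ‖c p.1‖ else 0) * ‖c p.2‖
        * (lam (-p.1 - p.2) * ‖c (-p.1 - p.2)‖)) := by
      unfold X
      have ht : ∀ i j, ‖Z i p.1 * B j p.2 * fr (sg u i j) (-p.1 - p.2)‖
          ≤ 2 * ((if p.1 ∈ Q then ‖c p.1‖ else 0) * ‖c p.2‖
            * (lam (-p.1 - p.2) * ‖c (-p.1 - p.2)‖)) := by
        intro i j
        rw [norm_mul, norm_mul]
        have a1 : ‖Z i p.1‖ ≤ if p.1 ∈ Q then ‖c p.1‖ else 0 := by
          split_ifs with h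
          · exact hzc i p.1
          · rw [hZ']
            simp only
            rw [hzQ i p.1 h, norm_zero]
        have a2 : ‖B j p.2‖ ≤ ‖c p.2‖ := hwc j p.2
        have a3 := norm_fr_sg_le hu i j (-p.1 - p.2)
        have a4 : (0 : ℝ) ≤ if p.1 ∈ Q then ‖c p.1‖ else 0 := by split_ifs <;> positivity
        calc ‖Z i p.1‖ * ‖B j p.2‖ * ‖fr (sg u i j) (-p.1 - p.2)‖
            ≤ (if p.1 ∈ Q then ‖c p.1‖ else 0) * ‖c p.2‖
              * (2 * (lam (-p.1 - p.2) * ‖c (-p.1 - p.2)‖)) := by gcongr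
          _ = _ := by ring
      refine (norm_sum_le _ _).trans ?_
      refine (Finset.sum_le_sum fun i _ => (norm_sum_le _ _).trans
        (Finset.sum_le_sum fun j _ => ht i j)).trans (le_of_eq ?_)
      simp only [Finset.sum_const, Finset.card_univ, Fintype.card_fin, nsmul_eq_mul]
      push_cast
      ring
    have hsym := sym_le hl1.le hl2.le (lam_nonneg (-p.1 - p.2)) (lam_third_le p)
    have hq0 : (0 : ℝ) ≤ if p.1 ∈ Q then ‖c p.1‖ else 0 := by split_ifs <;> positivity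
    calc lam p.1 * lam p.2 / (lam p.1 + lam p.2) * ‖X u Z B p‖
        ≤ lam p.1 * lam p.2 / (lam p.1 + lam p.2) * (18 * ((if p.1 ∈ Q then ‖c p.1‖ else 0)
          * ‖c p.2‖ * (lam (-p.1 - p.2) * ‖c (-p.1 - p.2)‖))) := by gcongr
      _ = 18 * ((if p.1 ∈ Q then ‖c p.1‖ else 0) * ‖c p.2‖ * ‖c (-p.1 - p.2)‖)
          * (lam p.1 * lam p.2 / (lam p.1 + lam p.2) * lam (-p.1 - p.2)) := by ring
      _ ≤ 18 * ((if p.1 ∈ Q then ‖c p.1‖ else 0) * ‖c p.2‖ * ‖c (-p.1 - p.2)‖)
          * (Real.sqrt 2 * (lam p.1 * (Real.sqrt (lam p.2) * Real.sqrt (lam (-p.1 - p.2))))) := by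
          gcongr
      _ = _ := by
          simp only [hxr, hyr]
          split_ifs
          · ring
          · ring
  have hnorm : Summable fun p : K3 × K3 => ‖(s : ℂ) * Y (fun i => fr (u i))
      (fun i k => (lam k : ℂ) * Z i k) (fun i k => (lam k : ℂ) * B i k) p‖ := h1.summable.norm
  have h2 : ENNReal.ofReal |s * trip u (fun i => mul lam (z i)) (fun i => mul lam (w i))|
      ≤ ENNReal.ofReal (18 * Real.sqrt 2) * tz (fun k => ENNReal.ofReal (xr k))
        (fun k => ENNReal.ofReal (yr k)) (fun k => ENNReal.ofReal (yr k)) := by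
    have e0 : |s * trip u (fun i => mul lam (z i)) (fun i => mul lam (w i))|
        = ‖(s : ℂ) * ((trip u (fun i => mul lam (z i)) (fun i => mul lam (w i)) : ℝ) : ℂ)‖ := by
      rw [← Complex.ofReal_mul, Complex.norm_real, Real.norm_eq_abs]
    rw [e0, ← h1.tsum_eq]
    refine (ENNReal.ofReal_le_ofReal (norm_tsum_le_tsum_norm hnorm)).trans ?_
    rw [ENNReal.ofReal_tsum_of_nonneg (fun p => norm_nonneg _) hnorm]
    unfold tz
    rw [← ENNReal.tsum_mul_left]
    refine ENNReal.tsum_le_tsum fun p => ?_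
    rw [← ENNReal.ofReal_mul (hx0 _), ← ENNReal.ofReal_mul (mul_nonneg (hx0 _) (hy0 _)),
      ← ENNReal.ofReal_mul (by positivity)]
    exact ENNReal.ofReal_le_ofReal (hterm p)
  have h3 := tz_le hQ (x := fun k => ENNReal.ofReal (xr k)) (y := fun k => ENNReal.ofReal (yr k))
    (z := fun k => ENNReal.ofReal (yr k)) (fun k hk => by simp only [hxr, if_neg hk, ENNReal.ofReal_zero])
    (by simp only [hyr, lam_zero]; simp) (by simp only [hyr, lam_zero]; simp)
  have hQn := hn_nonneg (1 / 2) c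
  have hDn := hn_nonneg (3 / 2) c
  have h1n := hn_nonneg 1 c
  have b1 : e2 (fun k => ENNReal.ofReal (xr k)) ≤ ENNReal.ofReal (hn 1 c) := by
    have hle : ∀ k, xr k ^ 2 ≤ lam k ^ (2 * (1 : ℝ)) * ‖c k‖ ^ 2 := by
      intro k
      simp only [hxr]
      have e : lam k ^ (2 * (1 : ℝ)) = lam k ^ 2 := by norm_cast
      rw [e]
      split_ifs
      · rw [mul_pow]
      · have := lam_nonneg k
        rw [zero_pow two_ne_zero]
        positivity
    have hsx : Summable fun k => xr k ^ 2 :=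
      Summable.of_nonneg_of_le (fun k => sq_nonneg _) hle (summable_hn zero_le_one hrc)
    refine e2_ofReal_le h1n (fun k => le_rfl) hx0 hsx ?_
    rw [hn_sq]
    exact Summable.tsum_le_tsum hle hsx (summable_hn zero_le_one hrc)
  have hsy : Summable fun k => yr k ^ 2 := by
    refine (summable_hn (s := 1 / 2) (by norm_num) hrc).congr fun k => ?_
    exact (sq_sqrt_lam c k).symm
  have b2 : e2 (fun k => ENNReal.ofReal (yr k)) ≤ ENNReal.ofReal (hn (1 / 2) c) := by
    refine e2_ofReal_le hQn (fun k => le_rfl) hy0 hsy (le_of_eq ?_)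
    rw [hn_sq]
    exact tsum_congr fun k => sq_sqrt_lam c k
  have b3 : e2 (fun k => (N k : ℝ≥0∞) * ENNReal.ofReal (yr k)) ≤ ENNReal.ofReal (hn (3 / 2) c) := by
    have e : ∀ k, (lam k * yr k) ^ 2 = lam k ^ (2 * (3 / 2 : ℝ)) * ‖c k‖ ^ 2 := by
      intro k
      have e3 : lam k ^ (2 * (3 / 2 : ℝ)) = lam k ^ 3 := by
        have : (2 * (3 / 2 : ℝ)) = ((3 : ℕ) : ℝ) := by norm_num
        rw [this, Real.rpow_natCast]
      rw [e3]
      simp only [hyr]
      rw [mul_pow, mul_pow, Real.sq_sqrt (lam_nonneg k)]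
      ring
    refine e2_ofReal_le (g := fun k => lam k * yr k) hDn (fun k => ?_)
      (fun k => mul_nonneg (lam_nonneg k) (hy0 k)) ?_ (le_of_eq ?_)
    · rw [ENNReal.ofReal_mul (lam_nonneg k)]
      refine mul_le_mul_left ?_ _
      have h4 : (N k : ℝ) ≤ lam k := by
        have h1 := N_le_len k
        have h2 := Real.pi_gt_three
        have h3 := len_nonneg k
        unfold lam
        nlinarith
      calc (N k : ℝ≥0∞) = ENNReal.ofReal (N k : ℝ) := (ENNReal.ofReal_natCast _).symm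
        _ ≤ _ := ENNReal.ofReal_le_ofReal h4
    · exact (summable_hn (s := 3 / 2) (by norm_num) hrc).congr fun k => (e k).symm
    · rw [hn_sq]
      exact tsum_congr e
  have hA := hQ.nonneg
  have h5 : ENNReal.ofReal |s * trip u (fun i => mul lam (z i)) (fun i => mul lam (w i))|
      ≤ ENNReal.ofReal (18 * Real.sqrt 2 * (Real.sqrt (2 * A)
        * (hn 1 c * hn (1 / 2) c * hn (3 / 2) c + hn 1 c * hn (1 / 2) c * hn (3 / 2) c))) := by
    refine (h2.trans (mul_le_mul_right h3 _)).trans ?_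
    calc _ ≤ ENNReal.ofReal (18 * Real.sqrt 2) * (ENNReal.ofReal (2 * A) ^ (1 / 2 : ℝ)
          * (ENNReal.ofReal (hn 1 c) * ENNReal.ofReal (hn (1 / 2) c) * ENNReal.ofReal (hn (3 / 2) c)
          + ENNReal.ofReal (hn 1 c) * ENNReal.ofReal (hn (1 / 2) c)
            * ENNReal.ofReal (hn (3 / 2) c))) := by gcongr
      _ = _ := by
        rw [ENNReal.ofReal_rpow_of_nonneg (mul_nonneg zero_le_two hA) (by norm_num),
            ← Real.sqrt_eq_rpow, ← ENNReal.ofReal_mul h1n, ← ENNReal.ofReal_mul (by positivity),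
            ← ENNReal.ofReal_add (by positivity) (by positivity),
            ← ENNReal.ofReal_mul (by positivity), ← ENNReal.ofReal_mul (by positivity)]
  have h6 := (ENNReal.ofReal_le_ofReal_iff (by positivity)).1 h5
  refine h6.trans (le_of_eq ?_)
  rw [Real.sqrt_mul zero_le_two]
  have : Real.sqrt 2 * Real.sqrt 2 = 2 := Real.mul_self_sqrt zero_le_two
  linear_combination (36 * Real.sqrt A * (hn 1 c * (hn (1 / 2) c * hn (3 / 2) c))) * this

end Pool.Agent.R923.HC
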