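import Pool.Agent.R923.HC.F1

/-!
The helical decomposition of a divergence-free field, and the production of the critical norm.
-/

open MeasureTheory Set Filter Topology H459R3.NS Pool.Agent.W734.NS
open scoped ContDiff ENNReal

namespace Pool.Agent.R923.HC

/-- The Fourier coefficients of the helical part with sign `s` of the field with Fourier
coefficients `C`: `(C(k) + s i k × C(k) / |k|) / 2` for `k ≠ 0`, and zero for `k = 0`. -/
noncomputable def hp (s : ℝ) (C : Fin 3 → K3 → ℂ) (i : Fin 3) (k : K3) : ℂ :=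
  if k = 0 then 0 else (C i k + s * Complex.I * cr k (fun j => C j k) i / len k) / 2

theorem hp_zero (s : ℝ) (C : Fin 3 → K3 → ℂ) (i : Fin 3) : hp s C i 0 = 0 := by
  unfold hp; simp

theorem hp_add (s : ℝ) (C : Fin 3 → K3 → ℂ) (i : Fin 3) {k : K3} (hk : k ≠ 0) :
    hp s C i k + hp (-s) C i k = C i k := by
  unfold hp
  rw [if_neg hk, if_neg hk]
  push_cast
  ring

theorem hp_sub (s : ℝ) (C : Fin 3 → K3 → ℂ) (i : Fin 3) {k : K3} (hk : k ≠ 0) :
    hp s C i k - hp (-s) C i k = s * Complex.I * cr k (fun j => C j k) i / len k := by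
  unfold hp
  rw [if_neg hk, if_neg hk]
  push_cast
  ring

theorem len_sq3 (k : K3) : (len k : ℂ) ^ 2 = (k 0 : ℂ) ^ 2 + (k 1 : ℂ) ^ 2 + (k 2 : ℂ) ^ 2 := by
  have h := len_sq k
  rw [Fin.sum_univ_three] at h
  have h2 : ((len k ^ 2 : ℝ) : ℂ) = (((k 0 : ℝ) ^ 2 + (k 1 : ℝ) ^ 2 + (k 2 : ℝ) ^ 2 : ℝ) : ℂ) := by
    rw [h]
  push_cast at h2
  exact h2

theorem len_ne {k : K3} (hk : k ≠ 0) : (len k : ℂ) ≠ 0 := by
  have := one_le_len hk
  exact_mod_cast (by linarith : (len k : ℝ) ≠ 0)

theorem hel_hp {s : ℝ} (hs : s ^ 2 = 1) {C : Fin 3 → K3 → ℂ}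
    (hC : ∀ k : K3, ∑ j, (k j : ℂ) * C j k = 0) : Hel s (hp s C) where
  zero := hp_zero s C
  eig := fun k i => by
    by_cases hk : k = 0
    · rw [hk, hp_zero, mul_zero]
      have : cr 0 (fun j => hp s C j 0) i = 0 := by
        fin_cases i
        · show cr 0 _ 0 = 0
          rw [cr0]; simp
        · show cr 0 _ 1 = 0
          rw [cr1]; simp
        · show cr 0 _ 2 = 0
          rw [cr2]; simp
      rw [this, mul_zero]
    · have hl := len_ne hk
      have hl2 := len_sq3 k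
      have hd := hC k
      rw [Fin.sum_univ_three] at hd
      have hs' : (s : ℂ) ^ 2 = 1 := by exact_mod_cast hs
      have hI := Complex.I_sq
      have e : ∀ j, hp s C j k = (C j k + s * Complex.I * cr k (fun j => C j k) j / len k) / 2 :=
        fun j => by unfold hp; rw [if_neg hk]
      fin_cases i
      · show Complex.I * cr k (fun j => hp s C j k) 0 = s * len k * hp s C 0 k
        rw [cr0, e, e, e, cr0, cr1, cr2]
        field_simp
        linear_combination ((s : ℂ) * Complex.I ^ 2 * C 0 k) * hl2 +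
          ((s : ℂ) * Complex.I ^ 2 * (k 0 : ℂ)) * hd - (s * (len k : ℂ) ^ 2 * C 0 k) * hI
          - (Complex.I * len k * ((k 1 : ℂ) * C 2 k - (k 2 : ℂ) * C 1 k)) * hs'
      · show Complex.I * cr k (fun j => hp s C j k) 1 = s * len k * hp s C 1 k
        rw [cr1, e, e, e, cr0, cr1, cr2]
        field_simp
        linear_combination ((s : ℂ) * Complex.I ^ 2 * C 1 k) * hl2 +
          ((s : ℂ) * Complex.I ^ 2 * (k 1 : ℂ)) * hd - (s * (len k : ℂ) ^ 2 * C 1 k) * hI
          - (Complex.I * len k * ((k 2 : ℂ) * C 0 k - (k 0 : ℂ) * C 2 k)) * hs'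
      · show Complex.I * cr k (fun j => hp s C j k) 2 = s * len k * hp s C 2 k
        rw [cr2, e, e, e, cr0, cr1, cr2]
        field_simp
        linear_combination ((s : ℂ) * Complex.I ^ 2 * C 2 k) * hl2 +
          ((s : ℂ) * Complex.I ^ 2 * (k 2 : ℂ)) * hd - (s * (len k : ℂ) ^ 2 * C 2 k) * hI
          - (Complex.I * len k * ((k 0 : ℂ) * C 1 k - (k 1 : ℂ) * C 0 k)) * hs'

end Pool.Agent.R923.HC
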