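import Pool.Agent.R923.HC.F2

/-!
The helical decomposition of a divergence-free field, and the production of the critical norm.
-/

open MeasureTheory Set Filter Topology H459R3.NS Pool.Agent.W734.NS
open scoped ContDiff ENNReal

namespace Pool.Agent.R923.HC

theorem rap_of_le {a b : K3 → ℂ} (hb : Rap b) (h : ∀ k, ‖a k‖ ≤ ‖b k‖) : Rap a := by
  intro n
  refine Summable.of_nonneg_of_le (fun k => by positivity) (fun k => ?_) (hb n)
  exact mul_le_mul_of_nonneg_left (h k) (by positivity)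

theorem cr_le (k : K3) (z : Fin 3 → ℂ) (i : Fin 3) :
    ‖cr k z i‖ ≤ len k * Real.sqrt (∑ j, ‖z j‖ ^ 2) := by
  have key : ∀ {a b : Fin 3}, a ≠ b → ‖(k a : ℂ) * z b - (k b : ℂ) * z a‖
      ≤ len k * Real.sqrt (∑ j, ‖z j‖ ^ 2) := by
    intro a b hab
    refine (norm_sub_le _ _).trans ?_
    rw [norm_mul, norm_mul, Complex.norm_intCast, Complex.norm_intCast]
    refine (pow_le_pow_iff_left₀ (by positivity) (mul_nonneg (len_nonneg _) (Real.sqrt_nonneg _))
      two_ne_zero).1 ?_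
    rw [mul_pow, len_sq, Real.sq_sqrt (by positivity)]
    have h1 : (|(k a : ℝ)| * ‖z b‖ + |(k b : ℝ)| * ‖z a‖) ^ 2
        ≤ ((k a : ℝ) ^ 2 + (k b : ℝ) ^ 2) * (‖z a‖ ^ 2 + ‖z b‖ ^ 2) := by
      rw [← sq_abs (k a : ℝ), ← sq_abs (k b : ℝ)]
      nlinarith [sq_nonneg (|(k a : ℝ)| * ‖z a‖ - |(k b : ℝ)| * ‖z b‖)]
    refine h1.trans ?_
    have h2 : (k a : ℝ) ^ 2 + (k b : ℝ) ^ 2 ≤ ∑ j, (k j : ℝ) ^ 2 := by
      have := Finset.sum_le_sum_of_subset_of_nonneg (s := {a, b}) (t := Finset.univ)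
        (f := fun j => (k j : ℝ) ^ 2) (Finset.subset_univ _) (fun _ _ _ => sq_nonneg _)
      rwa [Finset.sum_pair hab] at this
    have h3 : ‖z a‖ ^ 2 + ‖z b‖ ^ 2 ≤ ∑ j, ‖z j‖ ^ 2 := by
      have := Finset.sum_le_sum_of_subset_of_nonneg (s := {a, b}) (t := Finset.univ)
        (f := fun j => ‖z j‖ ^ 2) (Finset.subset_univ _) (fun _ _ _ => sq_nonneg _)
      rwa [Finset.sum_pair hab] at this
    gcongr
  fin_cases i
  · show ‖cr k z 0‖ ≤ _
    rw [cr0]; exact key (by decide)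
  · show ‖cr k z 1‖ ≤ _
    rw [cr1]; exact key (by decide)
  · show ‖cr k z 2‖ ≤ _
    rw [cr2]; exact key (by decide)

theorem norm_hp_le {s : ℝ} (hs : s ^ 2 = 1) (C : Fin 3 → K3 → ℂ) (i : Fin 3) (k : K3) :
    ‖hp s C i k‖ ≤ Real.sqrt (∑ j, ‖C j k‖ ^ 2) := by
  unfold hp
  split_ifs with hk
  · simp
  · have hl := lt_of_lt_of_le one_pos (one_le_len hk)
    have h1 := cr_le k (fun j => C j k) i
    have h2 : ‖C i k‖ ≤ Real.sqrt (∑ j, ‖C j k‖ ^ 2) := by
      refine Real.le_sqrt_of_sq_le ?_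
      exact Finset.single_le_sum (f := fun i => ‖C i k‖ ^ 2) (fun _ _ => sq_nonneg _)
        (Finset.mem_univ i)
    have hs' : |s| = 1 :=
      (pow_left_inj₀ (abs_nonneg s) zero_le_one two_ne_zero).1 (by rw [sq_abs, hs, one_pow])
    rw [norm_div, Complex.norm_ofNat, div_le_iff₀ (by norm_num)]
    refine (norm_add_le _ _).trans ?_
    rw [norm_div, norm_mul, norm_mul, Complex.norm_I, Complex.norm_real, Complex.norm_real,
      Real.norm_eq_abs, Real.norm_eq_abs, hs', abs_of_pos hl, one_mul, one_mul]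
    have h3 : ‖cr k (fun j => C j k) i‖ / len k ≤ Real.sqrt (∑ j, ‖C j k‖ ^ 2) := by
      rw [div_le_iff₀ hl]
      linarith
    linarith

theorem herm_hp (s : ℝ) {C : Fin 3 → K3 → ℂ} (hC : ∀ i, Herm (C i)) (i : Fin 3) :
    Herm (hp s C i) := by
  intro k
  unfold hp
  by_cases hk : k = 0
  · rw [if_pos hk, if_pos (by rw [hk]; simp), map_zero]
  · rw [if_neg hk, if_neg (by simpa using hk)]
    have e : cr (-k) (fun j => C j (-k)) i = -(starRingEnd ℂ) (cr k (fun j => C j k) i) := by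
      fin_cases i
      · show cr (-k) _ 0 = -(starRingEnd ℂ) (cr k _ 0)
        rw [cr0, cr0]
        simp only [hC _ k, Pi.neg_apply, Int.cast_neg, map_sub, map_mul, map_intCast]
        ring
      · show cr (-k) _ 1 = -(starRingEnd ℂ) (cr k _ 1)
        rw [cr1, cr1]
        simp only [hC _ k, Pi.neg_apply, Int.cast_neg, map_sub, map_mul, map_intCast]
        ring
      · show cr (-k) _ 2 = -(starRingEnd ℂ) (cr k _ 2)
        rw [cr2, cr2]
        simp only [hC _ k, Pi.neg_apply, Int.cast_neg, map_sub, map_mul, map_intCast]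
        ring
    rw [e, hC i k, len_neg]
    simp only [map_div₀, map_add, map_mul, Complex.conj_ofReal, Complex.conj_I, map_ofNat]
    ring

variable {u : Fin 3 → V → ℝ}

/-- The part with frequencies in `Q` of the helical part with sign `s`. -/
noncomputable def hf (s : ℝ) (Q : Set K3) (u : Fin 3 → V → ℝ) (i : Fin 3) : V → ℝ :=
  fn (Q.indicator (hp s (fun j => fr (u j)) i))

theorem norm_hp_le' {s : ℝ} (hs : s ^ 2 = 1) (Q : Set K3) (u : Fin 3 → V → ℝ) (i : Fin 3) (k : K3) :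
    ‖Q.indicator (hp s (fun j => fr (u j)) i) k‖ ≤ ‖nC u k‖ := by
  refine (norm_indicator_le' Q _ k).trans ?_
  rw [norm_nC]
  exact norm_hp_le hs _ i k

theorem rap_hp {s : ℝ} (hs : s ^ 2 = 1) (Q : Set K3) (hu : ∀ i, SP (u i)) (i : Fin 3) :
    Rap (Q.indicator (hp s (fun j => fr (u j)) i)) :=
  rap_of_le (rap_nC hu) (norm_hp_le' hs Q u i)

theorem herm_hp' (s : ℝ) {Q : Set K3} (hQ : ∀ k ∈ Q, -k ∈ Q) (u : Fin 3 → V → ℝ) (i : Fin 3) :
    Herm (Q.indicator (hp s (fun j => fr (u j)) i)) :=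
  herm_ind (herm_hp s (fun j => herm_fr (u j)) i) hQ

theorem sp_hf {s : ℝ} (hs : s ^ 2 = 1) (Q : Set K3) (hu : ∀ i, SP (u i)) (i : Fin 3) :
    SP (hf s Q u i) := sp_fn (rap_hp hs Q hu i)

theorem fr_hf {s : ℝ} (hs : s ^ 2 = 1) {Q : Set K3} (hQ : ∀ k ∈ Q, -k ∈ Q) (hu : ∀ i, SP (u i))
    (i : Fin 3) : fr (hf s Q u i) = Q.indicator (hp s (fun j => fr (u j)) i) :=
  fr_fn (rap_hp hs Q hu i) (herm_hp' s hQ u i)

theorem hel_hf {s : ℝ} (hs : s ^ 2 = 1) {Q : Set K3} (hQ : ∀ k ∈ Q, -k ∈ Q) (hu : ∀ i, SP (u i))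
    (hdiv : ∀ x, ∑ i, pd i (u i) x = 0) : Hel s fun i => fr (hf s Q u i) := by
  have h := hel_hp hs (C := fun j => fr (u j)) (fr_div hu hdiv)
  have e : ∀ i, fr (hf s Q u i) = Q.indicator (hp s (fun j => fr (u j)) i) := fun i =>
    fr_hf hs hQ hu i
  simp only [e]
  constructor
  · intro i
    by_cases h0 : (0 : K3) ∈ Q
    · rw [indicator_of_mem h0, hp_zero]
    · rw [indicator_of_notMem h0]
  · intro k i
    by_cases hk : k ∈ Q
    · simp only [indicator_of_mem hk]
      exact h.eig k i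
    · simp only [indicator_of_notMem hk, mul_zero]
      have : cr k (fun _ => (0 : ℂ)) i = 0 := by
        fin_cases i
        · show cr k _ 0 = 0
          rw [cr0]; simp
        · show cr k _ 1 = 0
          rw [cr1]; simp
        · show cr k _ 2 = 0
          rw [cr2]; simp
      rw [this, mul_zero]

theorem univ_neg : ∀ k ∈ (univ : Set K3), -k ∈ (univ : Set K3) := fun _ _ => mem_univ _

theorem neg_sq_one {s : ℝ} (hs : s ^ 2 = 1) : (-s) ^ 2 = 1 := by rw [neg_sq, hs]

theorem mul_lam_eq {s : ℝ} (hs : s ^ 2 = 1) (hu : ∀ i, SP (u i)) (i : Fin 3) (x : V) :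
    mul lam (u i) x = mul lam (hf s univ u i) x + mul lam (hf (-s) univ u i) x := by
  have h1 := sp_hf hs univ hu i
  have h2 := sp_hf (neg_sq_one hs) univ hu i
  have key : mul lam (u i) = fun x => mul lam (hf s univ u i) x + mul lam (hf (-s) univ u i) x := by
    refine fr_inj (sp_mul mlt_lam (hu i)) ((sp_mul mlt_lam h1).add (sp_mul mlt_lam h2))
      (funext fun k => ?_)
    rw [fr_add (sp_mul mlt_lam h1) (sp_mul mlt_lam h2), fr_mul mlt_lam (hu i), fr_mul mlt_lam h1,
      fr_mul mlt_lam h2, fr_hf hs univ_neg hu i, fr_hf (neg_sq_one hs) univ_neg hu i,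
      indicator_univ, indicator_univ]
    by_cases hk : k = 0
    · rw [hk]; simp [lam_zero]
    · simp only
      rw [← mul_add, hp_add s _ i hk]
  exact congrFun key x

theorem curl_eq {s : ℝ} (hs : s ^ 2 = 1) (hu : ∀ i, SP (u i)) {i a b : Fin 3}
    (hcr : ∀ (k : K3) (z : Fin 3 → ℂ), cr k z i = k a * z b - k b * z a) (x : V) :
    pd a (u b) x - pd b (u a) x
      = s * (mul lam (hf s univ u i) x - mul lam (hf (-s) univ u i) x) := by
  have h1 := sp_hf hs univ hu i
  have h2 := sp_hf (neg_sq_one hs) univ hu i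
  have hsub := (sp_mul mlt_lam h1).sub (sp_mul mlt_lam h2)
  have hsm : SP (fun x => s * (mul lam (hf s univ u i) x - mul lam (hf (-s) univ u i) x)) :=
    ⟨contDiff_const.mul hsub.smooth, fun i x => by simp only [hsub.per i x]⟩
  have key : (fun x => pd a (u b) x - pd b (u a) x)
      = fun x => s * (mul lam (hf s univ u i) x - mul lam (hf (-s) univ u i) x) := by
    refine fr_inj (((hu b).pd a).sub ((hu a).pd b)) hsm (funext fun k => ?_)
    have e : fr (fun x => s * (mul lam (hf s univ u i) x - mul lam (hf (-s) univ u i) x)) k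
        = (s : ℂ) * fr (fun x => mul lam (hf s univ u i) x - mul lam (hf (-s) univ u i) x) k := by
      unfold fr fc
      rw [← integral_const_mul]
      congr 1
      funext x
      push_cast
      ring
    rw [e, fr_sub ((hu b).pd a) ((hu a).pd b), fr_sub (sp_mul mlt_lam h1) (sp_mul mlt_lam h2),
      fr_pd (hu b), fr_pd (hu a), D, D, fr_mul mlt_lam h1,
      fr_mul mlt_lam h2, fr_hf hs univ_neg hu i, fr_hf (neg_sq_one hs) univ_neg hu i,
      indicator_univ, indicator_univ]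
    by_cases hk : k = 0
    · rw [hk]; simp [lam_zero]
    · simp only
      rw [← mul_sub, hp_sub s _ i hk, hcr]
      have hl := len_ne hk
      have hs' : (s : ℂ) ^ 2 = 1 := by exact_mod_cast hs
      unfold lam
      push_cast
      field_simp
      linear_combination (-((k a : ℂ) * fr (u b) k - (k b : ℂ) * fr (u a) k)) * hs'
  exact congrFun key x

theorem div_mul_lam (hu : ∀ i, SP (u i)) (hdiv : ∀ x, ∑ i, pd i (u i) x = 0) (x : V) :
    ∑ i, pd i (mul lam (u i)) x = 0 := by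
  have hz : SP (fun _ : V => (0 : ℝ)) := ⟨contDiff_const, fun _ _ => rfl⟩
  have key : (fun x => ∑ i, pd i (mul lam (u i)) x) = fun _ => (0 : ℝ) := by
    refine fr_inj (SP.sum fun i _ => (sp_mul mlt_lam (hu i)).pd i) hz (funext fun k => ?_)
    rw [fr_sum fun i _ => (sp_mul mlt_lam (hu i)).pd i]
    have e : fr (fun _ : V => (0 : ℝ)) k = 0 := by simp [fr, fc]
    rw [e]
    have h := fr_div hu hdiv k
    have e2 : ∀ i, fr (pd i (mul lam (u i))) k
        = (2 * Real.pi * Complex.I * (lam k : ℂ)) * ((k i : ℂ) * fr (u i) k) := by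
      intro i
      rw [fr_pd (sp_mul mlt_lam (hu i)), D, fr_mul mlt_lam (hu i)]
      ring
    simp_rw [e2]
    rw [← Finset.mul_sum, h, mul_zero]
  exact congrFun key x

/-- The production of the critical norm. -/
theorem prod_eq {s : ℝ} (hs : s ^ 2 = 1) (hu : ∀ i, SP (u i))
    (hdiv : ∀ x, ∑ i, pd i (u i) x = 0) :
    -∑ i, ∫ x in cube, mul lam (u i) x * conv u i x
      = 2 * (s * trip u (fun i => mul lam (hf s univ u i)) (fun i => mul lam (hf (-s) univ u i))) := by
  set a : Fin 3 → V → ℝ := fun i => mul lam (hf s univ u i) with ha'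
  set b : Fin 3 → V → ℝ := fun i => mul lam (hf (-s) univ u i) with hb'
  have ha : ∀ i, SP (a i) := fun i => sp_mul mlt_lam (sp_hf hs univ hu i)
  have hb : ∀ i, SP (b i) := fun i => sp_mul mlt_lam (sp_hf (neg_sq_one hs) univ hu i)
  have hL : ∀ i, SP (mul lam (u i)) := fun i => sp_mul mlt_lam (hu i)
  have hsum : ∀ i x, mul lam (u i) x = a i x + b i x := fun i x => mul_lam_eq hs hu i x
  have c0 : ∀ x, pd 1 (u 2) x - pd 2 (u 1) x = s * (a 0 x - b 0 x) := curl_eq hs hu cr0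
  have c1 : ∀ x, pd 2 (u 0) x - pd 0 (u 2) x = s * (a 1 x - b 1 x) := curl_eq hs hu cr1
  have c2 : ∀ x, pd 0 (u 1) x - pd 1 (u 0) x = s * (a 2 x - b 2 x) := curl_eq hs hu cr2
  -- the pressure-like term
  set q : V → ℝ := fun x => ∑ j, (1 / 2) * (u j x * u j x) with hq
  have hqs : SP q := SP.sum fun j _ => ⟨contDiff_const.mul ((hu j).mul (hu j)).smooth,
    fun i x => by simp only [(hu j).per i x]⟩
  have hpq : ∀ i x, pd i q x = ∑ j, u j x * pd i (u j) x := by
    intro i x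
    have h1 : ∀ j, SP (fun x => (1 / 2) * (u j x * u j x)) := fun j =>
      ⟨contDiff_const.mul ((hu j).mul (hu j)).smooth, fun i x => by simp only [(hu j).per i x]⟩
    rw [hq, pd_sum (fun j _ => h1 j)]
    refine Finset.sum_congr rfl fun j _ => ?_
    unfold pd
    have h2 : HasFDerivAt (fun x => (1 / 2) * (u j x * u j x)) _ x :=
      (((hu j).diff x).hasFDerivAt.mul ((hu j).diff x).hasFDerivAt).const_mul (1 / 2)
    rw [h2.fderiv]
    simp only [smul_apply, add_apply, smul_eq_mul]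
    ring
  have hp := int_press (v := fun i => mul lam (u i)) hL (div_mul_lam hu hdiv) hqs
  -- integrability
  have I : ∀ i j m, IntegrableOn (fun x => a i x * (b j x * u m x)) cube := fun i j m =>
    ((ha i).mul ((hb j).mul (hu m))).int
  have hT : trip u a b = ∫ x in cube, ((a 1 x * (b 2 x * u 0 x) - a 2 x * (b 1 x * u 0 x))
      + (a 2 x * (b 0 x * u 1 x) - a 0 x * (b 2 x * u 1 x))
      + (a 0 x * (b 1 x * u 2 x) - a 1 x * (b 0 x * u 2 x))) := by
    have i1 : IntegrableOn (fun x => a 1 x * (b 2 x * u 0 x) - a 2 x * (b 1 x * u 0 x)) cube :=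
      (I 1 2 0).sub (I 2 1 0)
    have i2 : IntegrableOn (fun x => a 2 x * (b 0 x * u 1 x) - a 0 x * (b 2 x * u 1 x)) cube :=
      (I 2 0 1).sub (I 0 2 1)
    have i3 : IntegrableOn (fun x => a 0 x * (b 1 x * u 2 x) - a 1 x * (b 0 x * u 2 x)) cube :=
      (I 0 1 2).sub (I 1 0 2)
    have i12 : IntegrableOn (fun x => (a 1 x * (b 2 x * u 0 x) - a 2 x * (b 1 x * u 0 x))
        + (a 2 x * (b 0 x * u 1 x) - a 0 x * (b 2 x * u 1 x))) cube := i1.add i2
    rw [integral_add i12 i3, integral_add i1 i2, integral_sub (I 1 2 0) (I 2 1 0),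
      integral_sub (I 2 0 1) (I 0 2 1), integral_sub (I 0 1 2) (I 1 0 2)]
    rfl
  have hpt : ∀ x, (∑ i, mul lam (u i) x * conv u i x) = (∑ i, mul lam (u i) x * pd i q x)
      - 2 * s * ((a 1 x * (b 2 x * u 0 x) - a 2 x * (b 1 x * u 0 x))
      + (a 2 x * (b 0 x * u 1 x) - a 0 x * (b 2 x * u 1 x))
      + (a 0 x * (b 1 x * u 2 x) - a 1 x * (b 0 x * u 2 x))) := by
    intro x
    simp only [hpq, hsum, conv, Fin.sum_univ_three]
    have h0 := c0 x
    have h1 := c1 x
    have h2 := c2 x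
    linear_combination ((a 2 x + b 2 x) * u 1 x - (a 1 x + b 1 x) * u 2 x) * h0
      + ((a 0 x + b 0 x) * u 2 x - (a 2 x + b 2 x) * u 0 x) * h1
      + ((a 1 x + b 1 x) * u 0 x - (a 0 x + b 0 x) * u 1 x) * h2
  have j1 : ∀ i, IntegrableOn (fun x => mul lam (u i) x * conv u i x) cube := fun i =>
    ((hL i).mul (sp_conv hu i)).int
  have j2 : ∀ i, IntegrableOn (fun x => mul lam (u i) x * pd i q x) cube := fun i =>
    ((hL i).mul (hqs.pd i)).int
  have e1 : ∑ i, ∫ x in cube, mul lam (u i) x * conv u i x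
      = ∫ x in cube, ∑ i, mul lam (u i) x * conv u i x :=
    (integral_finsetSum _ fun i _ => j1 i).symm
  have e2 : ∫ x in cube, ∑ i, mul lam (u i) x * pd i q x = 0 := by
    rw [integral_finsetSum _ fun i _ => j2 i]
    exact hp
  have jT : IntegrableOn (fun x => ((a 1 x * (b 2 x * u 0 x) - a 2 x * (b 1 x * u 0 x))
      + (a 2 x * (b 0 x * u 1 x) - a 0 x * (b 2 x * u 1 x))
      + (a 0 x * (b 1 x * u 2 x) - a 1 x * (b 0 x * u 2 x)))) cube :=
    (((I 1 2 0).sub (I 2 1 0)).add ((I 2 0 1).sub (I 0 2 1))).add ((I 0 1 2).sub (I 1 0 2))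
  have jS : IntegrableOn (fun x => ∑ i, mul lam (u i) x * pd i q x) cube :=
    integrable_finsetSum _ fun i _ => j2 i
  rw [e1]
  simp_rw [hpt]
  rw [integral_sub jS (jT.const_mul _), e2, integral_const_mul, ← hT]
  ring

end Pool.Agent.R923.HC
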