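import Pool.Agent.R923.HC.F3

/-!
Fourier coefficients of a smooth solution: uniform decay and time derivatives.
-/

open MeasureTheory Set Filter Topology H459R3.NS Pool.Agent.W734.NS
open scoped ContDiff ENNReal

namespace Pool.Agent.R923.HC

section gen

variable {T : ℝ} {f : ℝ → V → ℝ}

theorem contDiffOn_iter (hf : ContDiffOn ℝ ∞ (fun z : ℝ × V => f z.1 z.2) (Ico 0 T ×ˢ univ))
    (j : Fin 3) (n : ℕ) :
    ContDiffOn ℝ ∞ (fun z : ℝ × V => ((pd j)^[n] (f z.1)) z.2) (Ico 0 T ×ˢ univ) := by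
  induction n with
  | zero => exact hf
  | succ n ih =>
    have h := contDiffOn_pd (f := fun t => (pd j)^[n] (f t)) ih j
    refine h.congr fun z _ => ?_
    rw [Function.iterate_succ_apply']

theorem bound_compact (hf : ContinuousOn (fun z : ℝ × V => f z.1 z.2) (Ico 0 T ×ˢ univ)) {b : ℝ}
    (hb : b < T) : ∃ C, 0 ≤ C ∧ ∀ t ∈ Icc 0 b, ∀ x ∈ cube, |f t x| ≤ C := by
  have hK : IsCompact (Icc 0 b ×ˢ cube) := isCompact_Icc.prod isCompact_Icc
  have hsub : Icc 0 b ×ˢ cube ⊆ Ico 0 T ×ˢ (univ : Set V) :=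
    prod_mono (fun s hs => ⟨hs.1, hs.2.trans_lt hb⟩) (subset_univ _)
  obtain ⟨C, hC⟩ := hK.exists_bound_of_continuousOn (hf.mono hsub)
  refine ⟨max C 0, le_max_right _ _, fun t ht x hx => ?_⟩
  exact (hC (t, x) ⟨ht, hx⟩).trans (le_max_left _ _)

theorem norm_fr_le_of {g : V → ℝ} {C : ℝ} (hC : ∀ x ∈ cube, |g x| ≤ C) (k : K3) :
    ‖fr g k‖ ≤ C := by
  unfold fr fc
  have h := norm_setIntegral_le_of_norm_le_const (μ := volume) (s := cube)
    (f := fun x => ee (-k) x * (g x : ℂ)) (C := C) (by rw [volume_cube]; exact ENNReal.one_lt_top)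
    (fun x hx => by
      rw [norm_mul, norm_ee, one_mul, Complex.norm_real, Real.norm_eq_abs]
      exact hC x hx)
  rw [measureReal_def, volume_cube, ENNReal.toReal_one, mul_one] at h
  exact h

/-- Uniform decay of the Fourier coefficients. -/
theorem decay (hf : ContDiffOn ℝ ∞ (fun z : ℝ × V => f z.1 z.2) (Ico 0 T ×ˢ univ))
    (hp : ∀ t ∈ Ico 0 T, Per (f t)) {b : ℝ} (hb : b < T) (n : ℕ) :
    ∃ C, 0 ≤ C ∧ ∀ t ∈ Icc 0 b, ∀ k : K3, (1 + (N k : ℝ)) ^ n * ‖fr (f t) k‖ ≤ C := by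
  choose C hC0 hC using fun j => bound_compact (f := fun t => (pd j)^[n] (f t))
    (contDiffOn_iter hf j n).continuousOn hb
  obtain ⟨D, hD0, hD⟩ := bound_compact hf.continuousOn hb
  refine ⟨2 ^ n * (D + ∑ j, C j), mul_nonneg (by positivity)
    (add_nonneg hD0 (Finset.sum_nonneg fun j _ => hC0 j)), fun t ht k => ?_⟩
  have htI : t ∈ Ico 0 T := ⟨ht.1, ht.2.trans_lt hb⟩
  have hsp : SP (f t) := ⟨contDiff_slice hf htI, hp t htI⟩
  have h1 : ∀ j, |(k j : ℝ)| ^ n * ‖fr (f t) k‖ ≤ C j := by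
    intro j
    refine le_trans ?_ (norm_fr_le_of (fun x hx => hC j t ht x hx) k)
    rw [fr_iter hsp, norm_mul, norm_pow]
    gcongr
    rw [norm_mul, norm_mul, norm_mul, Complex.norm_I, mul_one, Complex.norm_real,
      Real.norm_eq_abs, abs_of_pos Real.pi_pos, Complex.norm_ofNat, Complex.norm_intCast]
    have h0 : 0 ≤ |(k j : ℝ)| := abs_nonneg _
    have := Real.pi_gt_three
    nlinarith
  have h2 : (N k : ℝ) ^ n * ‖fr (f t) k‖ ≤ ∑ j, C j := by
    calc (N k : ℝ) ^ n * ‖fr (f t) k‖ ≤ (∑ j, |(k j : ℝ)| ^ n) * ‖fr (f t) k‖ := by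
          gcongr
          exact N_pow_le k n
      _ = ∑ j, |(k j : ℝ)| ^ n * ‖fr (f t) k‖ := Finset.sum_mul _ _ _
      _ ≤ ∑ j, C j := Finset.sum_le_sum fun j _ => h1 j
  have h3 : ‖fr (f t) k‖ ≤ D := norm_fr_le_of (fun x hx => hD t ht x hx) k
  have h4 : (1 + (N k : ℝ)) ^ n ≤ 2 ^ n * (1 + (N k : ℝ) ^ n) := by
    have hN : (0 : ℝ) ≤ N k := by positivity
    rcases le_total (N k : ℝ) 1 with h | h
    · calc (1 + (N k : ℝ)) ^ n ≤ (1 + 1) ^ n := by gcongr
        _ = 2 ^ n * 1 := by norm_num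
        _ ≤ _ := by
          gcongr
          have := pow_nonneg hN n
          linarith
    · calc (1 + (N k : ℝ)) ^ n ≤ ((N k : ℝ) + (N k : ℝ)) ^ n := by gcongr
        _ = 2 ^ n * (N k : ℝ) ^ n := by rw [← two_mul, mul_pow]
        _ ≤ _ := by
          gcongr
          linarith
  calc (1 + (N k : ℝ)) ^ n * ‖fr (f t) k‖ ≤ (2 ^ n * (1 + (N k : ℝ) ^ n)) * ‖fr (f t) k‖ := by gcongr
    _ = 2 ^ n * (‖fr (f t) k‖ + (N k : ℝ) ^ n * ‖fr (f t) k‖) := by ring
    _ ≤ _ := by gcongr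

theorem fr_re_im (g : V → ℝ) (hg : Continuous g) (k : K3) :
    fr g k = ((∫ x in cube, (ee (-k) x).re * g x : ℝ) : ℂ)
      + Complex.I * ((∫ x in cube, (ee (-k) x).im * g x : ℝ) : ℂ) := by
  have hc := ee_continuous (-k)
  have i1 : IntegrableOn (fun x => (((ee (-k) x).re * g x : ℝ) : ℂ)) cube :=
    integrableOn_cube (by fun_prop)
  have i2 : IntegrableOn (fun x => Complex.I * (((ee (-k) x).im * g x : ℝ) : ℂ)) cube :=
    integrableOn_cube (by fun_prop)
  rw [← integral_complex_ofReal, ← integral_complex_ofReal, ← integral_const_mul,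
    ← integral_add i1 i2]
  unfold fr fc
  congr 1
  funext x
  conv_lhs => rw [← Complex.re_add_im (ee (-k) x)]
  push_cast
  ring

theorem contDiff_ee_re (k : K3) {n : WithTop ℕ∞} : ContDiff ℝ n fun x => (ee k x).re :=
  Complex.reCLM.contDiff.comp (ee_contDiff k)

theorem contDiff_ee_im (k : K3) {n : WithTop ℕ∞} : ContDiff ℝ n fun x => (ee k x).im :=
  Complex.imCLM.contDiff.comp (ee_contDiff k)

/-- Continuity in time of the Fourier coefficients. -/
theorem fr_continuousOn (hf : ContinuousOn (fun z : ℝ × V => f z.1 z.2) (Ico 0 T ×ˢ univ))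
    (k : K3) : ContinuousOn (fun t => fr (f t) k) (Ico 0 T) := by
  have hs : ∀ t ∈ Ico 0 T, Continuous (f t) := fun t ht => by
    have := hf.comp_continuous (f := fun x : V => ((t, x) : ℝ × V)) (by fun_prop)
      (fun x => ⟨ht, mem_univ _⟩)
    exact this
  have h1 := continuousOn_int (F := fun t x => (ee (-k) x).re * f t x) (T := T)
    (((contDiff_ee_re (-k) (n := 0)).continuous.comp continuous_snd).continuousOn.mul hf)
  have h2 := continuousOn_int (F := fun t x => (ee (-k) x).im * f t x) (T := T)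
    (((contDiff_ee_im (-k) (n := 0)).continuous.comp continuous_snd).continuousOn.mul hf)
  have h3 : ContinuousOn (fun t => ((∫ x in cube, (ee (-k) x).re * f t x : ℝ) : ℂ)
      + Complex.I * ((∫ x in cube, (ee (-k) x).im * f t x : ℝ) : ℂ)) (Ico 0 T) :=
    (Complex.continuous_ofReal.comp_continuousOn h1).add
      (continuousOn_const.mul (Complex.continuous_ofReal.comp_continuousOn h2))
  exact h3.congr fun t ht => fr_re_im (f t) (hs t ht) k

/-- The time derivative of the Fourier coefficients. -/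
theorem fr_hasDerivAt (hf : ContDiffOn ℝ ∞ (fun z : ℝ × V => f z.1 z.2) (Ico 0 T ×ˢ univ))
    {t : ℝ} (ht : t ∈ Ioo 0 T) (k : K3) :
    HasDerivAt (fun t => fr (f t) k) (fr (dt f t) k) t := by
  have hs : ∀ t ∈ Ico 0 T, Continuous (f t) := fun t ht => by
    have := hf.continuousOn.comp_continuous (f := fun x : V => ((t, x) : ℝ × V)) (by fun_prop)
      (fun x => ⟨ht, mem_univ _⟩)
    exact this
  have hgen : ∀ c : V → ℝ, ContDiff ℝ 1 c →
      HasDerivAt (fun t => ∫ x in cube, c x * f t x) (∫ x in cube, c x * dt f t x) t := by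
    intro c hc
    have hF : ContDiffOn ℝ 1 (fun z : ℝ × V => c z.2 * f z.1 z.2) (Ioo 0 T ×ˢ univ) :=
      (hc.comp contDiff_snd).contDiffOn.mul (mono_Ioo hf (by norm_cast))
    have key := hasDerivAt_int (F := fun t x => c x * f t x) hF ht
    refine key.congr_deriv ?_
    congr 1
    funext x
    have h2 : HasDerivAt (fun s => f s x) (dt f t x) t := by
      have := hasDerivAt_slice (F := f) (mono_Ioo hf (by norm_cast)) ht x
      rwa [← NS.dt_eq' hf ht x] at this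
    exact (h2.const_mul (c x)).deriv
  have h1 := (hgen _ (contDiff_ee_re (-k))).ofReal_comp
  have h2 := (hgen _ (contDiff_ee_im (-k))).ofReal_comp
  have h3 := h1.add (h2.const_mul Complex.I)
  have h4 : fr (dt f t) k = ((∫ x in cube, (ee (-k) x).re * dt f t x : ℝ) : ℂ)
      + Complex.I * ((∫ x in cube, (ee (-k) x).im * dt f t x : ℝ) : ℂ) :=
    fr_re_im _ (contDiff_dt hf ht).continuous k
  rw [h4]
  refine h3.congr_of_eventuallyEq ?_
  filter_upwards [Ioo_mem_nhds ht.1 ht.2] with s hs'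
  exact fr_re_im (f s) (hs s ⟨hs'.1.le, hs'.2⟩) k
where
  NS.dt_eq' {f : ℝ → V → ℝ} (hf : ContDiffOn ℝ ∞ (fun z : ℝ × V => f z.1 z.2) (Ico 0 T ×ˢ univ))
      {t : ℝ} (ht : t ∈ Ioo 0 T) (x : V) :
      dt f t x = fderiv ℝ (fun z : ℝ × V => f z.1 z.2) (t, x) (1, 0) := H459R3.NS.dt_eq hf ht x

end gen

/-- a summable weight -/
theorem summable_wt : Summable fun k : K3 => 1 / (1 + (N k : ℝ)) ^ 6 := by
  refine Summable.of_nonneg_of_le (fun k => by positivity) (fun k => ?_) summable_K3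
  have h0 := one_add_sq_le k 0
  have h1' := one_add_sq_le k 1
  have h2' := one_add_sq_le k 2
  have e : (1 / (1 + (k 0 : ℝ) ^ 2)) * ((1 / (1 + (k 1 : ℝ) ^ 2)) * (1 / (1 + (k 2 : ℝ) ^ 2)))
      = 1 / ((1 + (k 0 : ℝ) ^ 2) * ((1 + (k 1 : ℝ) ^ 2) * (1 + (k 2 : ℝ) ^ 2))) := by
    field_simp
  rw [e]
  apply one_div_le_one_div_of_le (by positivity)
  calc (1 + (k 0 : ℝ) ^ 2) * ((1 + (k 1 : ℝ) ^ 2) * (1 + (k 2 : ℝ) ^ 2))
      ≤ (1 + (N k : ℝ)) ^ 2 * ((1 + (N k : ℝ)) ^ 2 * (1 + (N k : ℝ)) ^ 2) := by gcongr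
    _ = _ := by ring

end Pool.Agent.R923.HC
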