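import Pool.Agent.R923.HC.G1

/-!
The evolution of the critical norm of a smooth solution.
-/

open MeasureTheory Set Filter Topology H459R3.NS Pool.Agent.W734.NS
open scoped ContDiff ENNReal

namespace Pool.Agent.R923.HC

variable {ν T : ℝ} {u : ℝ → V → V} {p : ℝ → V → ℝ}

/-- the components -/
def cp (u : ℝ → V → V) (t : ℝ) (i : Fin 3) (y : V) : ℝ := u t y i

theorem hn_nC_sq (s : ℝ) (v : Fin 3 → V → ℝ) :
    hn s (nC v) ^ 2 = ∑' k, lam k ^ (2 * s) * ∑ i, ‖fr (v i) k‖ ^ 2 := by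
  rw [hn_sq]
  exact tsum_congr fun k => by rw [norm_nC_sq]

theorem sol_smooth (h : IsSol ν T u p) (i : Fin 3) :
    ContDiffOn ℝ ∞ (fun z : ℝ × V => cp u z.1 i z.2) (Ico 0 T ×ˢ univ) := h.smooth_c i

theorem sol_per (h : IsSol ν T u p) (i : Fin 3) : ∀ t ∈ Ico 0 T, Per (cp u t i) :=
  fun t ht j x => by
    show u t (x + Pi.single j 1) i = u t x i
    rw [h.per_u t ht j x]

theorem decay_all (h : IsSol ν T u p) {b : ℝ} (hb : b < T) (n : ℕ) :
    ∃ C, 0 ≤ C ∧ ∀ t ∈ Icc 0 b, ∀ i, ∀ k : K3, (1 + (N k : ℝ)) ^ n * ‖fr (cp u t i) k‖ ≤ C := by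
  choose C hC0 hC using fun i => decay (f := fun t => cp u t i) (sol_smooth h i) (sol_per h i) hb n
  refine ⟨∑ i, C i, Finset.sum_nonneg fun i _ => hC0 i, fun t ht i k => (hC i t ht k).trans ?_⟩
  exact Finset.single_le_sum (f := C) (fun i _ => hC0 i) (Finset.mem_univ i)

theorem lam_rpow_le {s : ℝ} (hs : 0 ≤ s) (k : K3) :
    lam k ^ (2 * s) ≤ (16 ^ ⌈s⌉₊ * (1 + (N k : ℝ)) ^ ⌈s⌉₊) ^ 2 := by
  have h0 := lam_nonneg k
  have h2 : (1 : ℝ) ≤ 16 * (1 + (N k : ℝ)) := by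
    nlinarith [Nat.cast_nonneg (α := ℝ) (N k)]
  have h3 : lam k ^ s ≤ 16 ^ ⌈s⌉₊ * (1 + (N k : ℝ)) ^ ⌈s⌉₊ := by
    rw [← mul_pow]
    calc lam k ^ s ≤ (16 * (1 + (N k : ℝ))) ^ s := Real.rpow_le_rpow h0 (lam_le k) hs
      _ ≤ (16 * (1 + (N k : ℝ))) ^ ((⌈s⌉₊ : ℕ) : ℝ) :=
        Real.rpow_le_rpow_of_exponent_le h2 (Nat.le_ceil s)
      _ = _ := Real.rpow_natCast _ _
  have e1 : lam k ^ (2 * s) = (lam k ^ s) ^ 2 := by
    rw [← Real.rpow_natCast, ← Real.rpow_mul h0]; congr 1; push_cast; ring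
  rw [e1]
  exact pow_le_pow_left₀ (Real.rpow_nonneg h0 s) h3 2

/-- The norms are continuous functions of the time. -/
theorem hn_continuousOn (h : IsSol ν T u p) {s : ℝ} (hs : 0 ≤ s) :
    ContinuousOn (fun t => hn s (nC (cp u t)) ^ 2) (Ico 0 T) := by
  have hIcc : ∀ b < T, ContinuousOn (fun t => hn s (nC (cp u t)) ^ 2) (Icc 0 b) := by
    intro b hb
    obtain ⟨C, hC0, hC⟩ := decay_all h hb (⌈s⌉₊ + 3)
    simp_rw [hn_nC_sq]
    refine continuousOn_tsum (u := fun k => 3 * (16 ^ ⌈s⌉₊ * C) ^ 2 * (1 / (1 + (N k : ℝ)) ^ 6))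
      (fun k => ?_) (summable_wt.mul_left _) (fun k t ht => ?_)
    · refine continuousOn_const.mul (continuousOn_finsetSum _ fun i _ => ?_)
      have h1 := fr_continuousOn (f := fun t => cp u t i) (sol_smooth h i).continuousOn k
      exact ((h1.mono fun s hs => ⟨hs.1, hs.2.trans_lt hb⟩).norm).pow 2
    · have h1 := lam_rpow_le hs k
      have hl : 0 ≤ lam k ^ (2 * s) := Real.rpow_nonneg (lam_nonneg k) _
      rw [Real.norm_eq_abs, abs_of_nonneg (mul_nonneg hl (by positivity)), Finset.mul_sum]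
      have hN : (0 : ℝ) < 1 + N k := by positivity
      have ht' : ∀ i, lam k ^ (2 * s) * ‖fr (cp u t i) k‖ ^ 2
          ≤ (16 ^ ⌈s⌉₊ * C) ^ 2 * (1 / (1 + (N k : ℝ)) ^ 6) := by
        intro i
        have h2 := hC t ht i k
        rw [mul_one_div, le_div_iff₀ (by positivity)]
        calc lam k ^ (2 * s) * ‖fr (cp u t i) k‖ ^ 2 * (1 + (N k : ℝ)) ^ 6
            ≤ (16 ^ ⌈s⌉₊ * (1 + (N k : ℝ)) ^ ⌈s⌉₊) ^ 2 * ‖fr (cp u t i) k‖ ^ 2
              * (1 + (N k : ℝ)) ^ 6 := by gcongr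
          _ = (16 ^ ⌈s⌉₊ * ((1 + (N k : ℝ)) ^ (⌈s⌉₊ + 3) * ‖fr (cp u t i) k‖)) ^ 2 := by ring
          _ ≤ (16 ^ ⌈s⌉₊ * C) ^ 2 := by gcongr
      refine (Finset.sum_le_sum fun i _ => ht' i).trans (le_of_eq ?_)
      simp
      ring
  intro t ht
  obtain ⟨b, hb1, hb2⟩ := exists_between ht.2
  have h1 := hIcc b hb2 t ⟨ht.1, hb1.le⟩
  refine h1.mono_of_mem_nhdsWithin ?_
  have h2 : ∀ᶠ s in 𝓝[Ico 0 T] t, s < b := nhdsWithin_le_nhds (Iio_mem_nhds hb1)
  filter_upwards [h2, self_mem_nhdsWithin] with s hs1 hs2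
  exact ⟨hs2.1, hs1.le⟩

/-- The right-hand side of the equation. -/
noncomputable def rhs (ν : ℝ) (u : ℝ → V → V) (p : ℝ → V → ℝ) (i : Fin 3) (t : ℝ) (x : V) : ℝ :=
  ν * lap (cp u t i) x - conv (cp u t) i x - pd i (p t) x

theorem rhs_continuousOn (h : IsSol ν T u p) (i : Fin 3) :
    ContinuousOn (fun z : ℝ × V => rhs ν u p i z.1 z.2) (Ico 0 T ×ˢ univ) := by
  unfold rhs lap conv
  have h1 : ∀ i j, ContDiffOn ℝ ∞ (fun z : ℝ × V => pd j (cp u z.1 i) z.2) (Ico 0 T ×ˢ univ) :=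
    fun i j => contDiffOn_pd (f := fun t => cp u t i) (sol_smooth h i) j
  have h2 : ∀ i j, ContDiffOn ℝ ∞ (fun z : ℝ × V => pd j (pd j (cp u z.1 i)) z.2)
      (Ico 0 T ×ˢ univ) := fun i j => contDiffOn_pd (f := fun t => pd j (cp u t i)) (h1 i j) j
  have h3 := contDiffOn_pd (f := p) h.smooth_p i
  refine ((continuousOn_const.mul (continuousOn_finsetSum _ fun j _ => (h2 i j).continuousOn)).sub
    (continuousOn_finsetSum _ fun j _ => ?_)).sub h3.continuousOn
  exact (sol_smooth h j).continuousOn.mul (h1 i j).continuousOn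

theorem dt_rhs (h : IsSol ν T u p) {t : ℝ} (ht : t ∈ Ioo 0 T) (i : Fin 3) :
    dt (fun s => cp u s i) t = rhs ν u p i t := by
  funext x
  exact h.dt_eq ht i x

/-- The derivative of the square of the critical norm. -/
theorem crit_hasDerivAt0 (h : IsSol ν T u p) {t : ℝ} (ht : t ∈ Ioo 0 T) :
    HasDerivAt (fun t => hn (1 / 2) (nC (cp u t)) ^ 2)
      (∑' k, lam k * ∑ i, 2 * inner ℝ (fr (cp u t i) k) (fr (rhs ν u p i t) k)) t := by
  obtain ⟨b, hb1, hb2⟩ := exists_between ht.2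
  obtain ⟨C, hC0, hC⟩ := decay_all h hb2 7
  choose D hD0 hD using fun i => bound_compact (f := fun t => rhs ν u p i t) (rhs_continuousOn h i) hb2
  have e : (fun t => hn (1 / 2) (nC (cp u t)) ^ 2)
      = fun t => ∑' k, lam k * ∑ i, ‖fr (cp u t i) k‖ ^ 2 := by
    funext t
    rw [hn_nC_sq]
    refine tsum_congr fun k => ?_
    congr 1
    norm_num
  rw [e]
  have hsum0 : Summable fun k => lam k * ∑ i, ‖fr (cp u t i) k‖ ^ 2 := by
    have hsp : ∀ i, SP (cp u t i) := fun i => h.sp ⟨ht.1.le, ht.2⟩ i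
    have := summable_hn (s := 1 / 2) (by norm_num) (rap_nC hsp)
    refine this.congr fun k => ?_
    rw [norm_nC_sq]
    congr 1
    norm_num
  refine hasDerivAt_tsum_of_isPreconnected
    (g := fun k t => lam k * ∑ i, ‖fr (cp u t i) k‖ ^ 2)
    (g' := fun k t => lam k * ∑ i, 2 * inner ℝ (fr (cp u t i) k) (fr (rhs ν u p i t) k))
    (u := fun k => (96 * C * ∑ i, D i) * (1 / (1 + (N k : ℝ)) ^ 6)) (t := Ioo 0 b)
    (summable_wt.mul_left _) isOpen_Ioo isPreconnected_Ioo (fun k s hs => ?_)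
    (fun k s hs => ?_) (y₀ := t) ⟨ht.1, hb1⟩ hsum0 ⟨ht.1, hb1⟩
  · have hs' : s ∈ Ioo 0 T := ⟨hs.1, hs.2.trans hb2⟩
    refine HasDerivAt.const_mul _ (HasDerivAt.fun_sum fun i _ => ?_)
    have h1 := fr_hasDerivAt (f := fun t => cp u t i) (sol_smooth h i) hs' k
    rw [dt_rhs h hs'] at h1
    exact h1.norm_sq
  · have hs' : s ∈ Icc 0 b := ⟨hs.1.le, hs.2.le⟩
    rw [norm_mul, Real.norm_eq_abs, abs_of_nonneg (lam_nonneg k)]
    have hN : (0 : ℝ) < 1 + N k := by positivity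
    have h2 : ‖∑ i, 2 * inner ℝ (fr (cp u s i) k) (fr (rhs ν u p i s) k)‖
        ≤ ∑ i, 2 * (C / (1 + (N k : ℝ)) ^ 7 * D i) := by
      refine (norm_sum_le _ _).trans (Finset.sum_le_sum fun i _ => ?_)
      rw [norm_mul, Real.norm_ofNat]
      refine mul_le_mul_of_nonneg_left ?_ (by norm_num)
      refine (norm_inner_le_norm _ _).trans ?_
      refine mul_le_mul ?_ ?_ (norm_nonneg _) (by positivity)
      · rw [le_div_iff₀ (by positivity), mul_comm]
        exact hC s hs' i k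
      · exact norm_fr_le_of (fun x hx => hD i s hs' x hx) k
    have h3 : ∑ i, 2 * (C / (1 + (N k : ℝ)) ^ 7 * D i) = 2 * (C / (1 + (N k : ℝ)) ^ 7) * ∑ i, D i := by
      rw [Finset.mul_sum]
      exact Finset.sum_congr rfl fun i _ => by ring
    have hDs : 0 ≤ ∑ i, D i := Finset.sum_nonneg fun i _ => hD0 i
    calc lam k * ‖∑ i, 2 * inner ℝ (fr (cp u s i) k) (fr (rhs ν u p i s) k)‖
        ≤ (16 * (1 + (N k : ℝ))) * (2 * (C / (1 + (N k : ℝ)) ^ 7) * ∑ i, D i) := by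
          refine mul_le_mul (lam_le k) (h2.trans h3.le) (norm_nonneg _) (by positivity)
      _ = 32 * C * (∑ i, D i) * (1 / (1 + (N k : ℝ)) ^ 6) := by
          field_simp
          ring
      _ ≤ _ := by
          refine mul_le_mul_of_nonneg_right ?_ (by positivity)
          refine mul_le_mul_of_nonneg_right ?_ hDs
          linarith

theorem inner_eq (z w : ℂ) : inner ℝ z w = (z * (starRingEnd ℂ) w).re := by
  rw [Complex.inner]
  simp only [Complex.mul_re, Complex.conj_re, Complex.conj_im]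
  ring

/-- The derivative of the square of the critical norm. -/
theorem crit_hasDerivAt (h : IsSol ν T u p) {t : ℝ} (ht : t ∈ Ioo 0 T) :
    HasDerivAt (fun t => hn (1 / 2) (nC (cp u t)) ^ 2)
      (2 * (-(ν * hn (3 / 2) (nC (cp u t)) ^ 2)
        + -∑ i, ∫ x in cube, mul lam (cp u t i) x * conv (cp u t) i x)) t := by
  refine (crit_hasDerivAt0 h ht).congr_deriv ?_
  have hI : t ∈ Ico 0 T := ⟨ht.1.le, ht.2⟩
  set v : Fin 3 → V → ℝ := cp u t with hv
  have hsp : ∀ i, SP (v i) := fun i => h.sp hI i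
  have hdiv : ∀ x, ∑ i, pd i (v i) x = 0 := h.divfree t hI
  have hrs : ∀ i, SP (rhs ν u p i t) := by
    intro i
    rw [← dt_rhs h ht i]
    exact h.sp_dt ht i
  have hL : ∀ i, SP (mul lam (v i)) := fun i => sp_mul mlt_lam (hsp i)
  have h1 : HasSum (fun k => lam k * ∑ i, 2 * inner ℝ (fr (v i) k) (fr (rhs ν u p i t) k))
      (∑ i, 2 * ∫ x in cube, mul lam (v i) x * rhs ν u p i t x) := by
    have h2 := hasSum_sum (s := Finset.univ) fun (i : Fin 3) _ =>
      (parseval_re (hL i) (hrs i)).mul_left 2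
    have e : (fun k => lam k * ∑ i, 2 * inner ℝ (fr (v i) k) (fr (rhs ν u p i t) k))
        = fun k => ∑ i, 2 * (fr (mul lam (v i)) k * (starRingEnd ℂ) (fr (rhs ν u p i t) k)).re := by
      funext k
      rw [Finset.mul_sum]
      refine Finset.sum_congr rfl fun i _ => ?_
      rw [inner_eq, fr_mul mlt_lam (hsp i)]
      simp only
      rw [mul_assoc (lam k : ℂ), Complex.re_ofReal_mul]
      ring
    rw [e]
    exact h2
  rw [h1.tsum_eq]
  have e1 : ∀ i, ∫ x in cube, mul lam (v i) x * rhs ν u p i t x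
      = ν * (∫ x in cube, mul lam (v i) x * lap (v i) x)
        - (∫ x in cube, mul lam (v i) x * conv v i x) - ∫ x in cube, mul lam (v i) x * pd i (p t) x := by
    intro i
    have e : ∀ x, mul lam (v i) x * rhs ν u p i t x
        = ν * (mul lam (v i) x * lap (v i) x) - mul lam (v i) x * conv v i x
          - mul lam (v i) x * pd i (p t) x := by
      intro x
      unfold rhs
      ring
    simp_rw [e]
    have i1 : IntegrableOn (fun x => ν * (mul lam (v i) x * lap (v i) x)) cube :=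
      ((hL i).mul (hsp i).lap).int.const_mul ν
    have i2 : IntegrableOn (fun x => mul lam (v i) x * conv v i x) cube :=
      ((hL i).mul (sp_conv hsp i)).int
    have i3 : IntegrableOn (fun x => mul lam (v i) x * pd i (p t) x) cube :=
      ((hL i).mul ((h.sp_p hI).pd i)).int
    have i12 : IntegrableOn (fun x => ν * (mul lam (v i) x * lap (v i) x)
        - mul lam (v i) x * conv v i x) cube := i1.sub i2
    rw [integral_sub i12 i3, integral_sub i1 i2, integral_const_mul]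
  simp_rw [e1]
  have hpr := int_press (v := fun i => mul lam (v i)) hL (div_mul_lam hsp hdiv) (h.sp_p hI)
  have hvis : ∑ i, ∫ x in cube, mul lam (v i) x * lap (v i) x = -hn (3 / 2) (nC v) ^ 2 := by
    have h2 := hasSum_sum (s := Finset.univ) fun (i : Fin 3) _ =>
      parseval_re (hL i) (hsp i).lap
    rw [← h2.tsum_eq, hn_nC_sq, ← tsum_neg]
    refine tsum_congr fun k => ?_
    rw [Finset.mul_sum, ← Finset.sum_neg_distrib]
    refine Finset.sum_congr rfl fun i _ => ?_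
    rw [fr_mul mlt_lam (hsp i), fr_lap (hsp i)]
    have e3 : lam k ^ (2 * (3 / 2 : ℝ)) = lam k ^ 3 := by
      have : (2 * (3 / 2 : ℝ)) = ((3 : ℕ) : ℝ) := by norm_num
      rw [this, Real.rpow_natCast]
    rw [e3]
    have e4 : (lam k : ℂ) * fr (v i) k * (starRingEnd ℂ) (-((lam k ^ 2 : ℝ) : ℂ) * fr (v i) k)
        = ((-(lam k ^ 3 * ‖fr (v i) k‖ ^ 2) : ℝ) : ℂ) := by
      rw [map_mul, map_neg, Complex.conj_ofReal]
      have e5 : fr (v i) k * (starRingEnd ℂ) (fr (v i) k) = ((‖fr (v i) k‖ ^ 2 : ℝ) : ℂ) := by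
        rw [Complex.mul_conj, Complex.normSq_eq_norm_sq]
      calc (lam k : ℂ) * fr (v i) k * (-((lam k ^ 2 : ℝ) : ℂ) * (starRingEnd ℂ) (fr (v i) k))
          = -((lam k : ℂ) * ((lam k ^ 2 : ℝ) : ℂ)
            * (fr (v i) k * (starRingEnd ℂ) (fr (v i) k))) := by ring
        _ = _ := by
          rw [e5]
          push_cast
          ring
    simp only
    rw [e4, Complex.ofReal_re]
  rw [← Finset.mul_sum, Finset.sum_sub_distrib, Finset.sum_sub_distrib, ← Finset.mul_sum, hpr, hvis]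
  ring

end Pool.Agent.R923.HC
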