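import Pool.Agent.R923.HC.E3
import Pool.Agent.R923.HC.G2

/-!
The bound of the production at a fixed time.
-/

open MeasureTheory Set Filter Topology H459R3.NS Pool.Agent.W734.NS
open scoped ContDiff ENNReal

namespace Pool.Agent.R923.HC

theorem young2 {ρ ν c : ℝ} (h0 : 0 < ρ) (h2 : ρ < 2) (hν : 0 < ν) (hc : 0 ≤ c) :
    ∃ K : ℝ, 0 ≤ K ∧ ∀ γ G H : ℝ, 0 ≤ γ → 0 ≤ G → 0 ≤ H →
      c * (γ * (G ^ (2 - ρ) * H ^ ρ)) ≤ ν / 2 * H ^ 2 + K * (γ ^ (2 / (2 - ρ)) * G ^ 2) := by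
  set w1 := ρ / 2 with hw1
  set w2 := (2 - ρ) / 2 with hw2
  have h1 : 0 < w1 := by rw [hw1]; linarith
  have h2' : 0 < w2 := by rw [hw2]; linarith
  have h12 : w1 + w2 = 1 := by rw [hw1, hw2]; ring
  have hν2 : 0 < ν / 2 := by positivity
  set K : ℝ := (c * (ν / 2) ^ (-w1)) ^ (1 / w2) with hK
  have hb0 : 0 ≤ c * (ν / 2) ^ (-w1) := by positivity
  have hK0 : 0 ≤ K := Real.rpow_nonneg hb0 _
  refine ⟨K, hK0, fun γ G H hγ hG hH => ?_⟩
  have hq0 : 0 ≤ γ ^ (2 / (2 - ρ)) := Real.rpow_nonneg hγ _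
  have h := Real.geom_mean_le_arith_mean2_weighted h1.le h2'.le
    (p₁ := ν / 2 * H ^ 2) (p₂ := K * (γ ^ (2 / (2 - ρ)) * G ^ 2)) (by positivity) (by positivity)
    h12
  have e1 : (ν / 2 * H ^ 2) ^ w1 = (ν / 2) ^ w1 * H ^ ρ := by
    rw [Real.mul_rpow hν2.le (sq_nonneg H)]
    congr 1
    rw [← Real.rpow_natCast H 2, ← Real.rpow_mul hH]
    congr 1
    rw [hw1]; push_cast; ring
  have e2 : (K * (γ ^ (2 / (2 - ρ)) * G ^ 2)) ^ w2
      = c * (ν / 2) ^ (-w1) * (γ * G ^ (2 - ρ)) := by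
    rw [Real.mul_rpow hK0 (by positivity), Real.mul_rpow hq0 (sq_nonneg G)]
    have a1 : K ^ w2 = c * (ν / 2) ^ (-w1) := by
      rw [hK, ← Real.rpow_mul hb0]
      have : 1 / w2 * w2 = 1 := by field_simp
      rw [this, Real.rpow_one]
    have a2 : (γ ^ (2 / (2 - ρ))) ^ w2 = γ := by
      rw [← Real.rpow_mul hγ]
      have : 2 / (2 - ρ) * w2 = 1 := by
        rw [hw2]
        have : 2 - ρ ≠ 0 := by linarith
        field_simp
      rw [this, Real.rpow_one]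
    have a3 : (G ^ 2) ^ w2 = G ^ (2 - ρ) := by
      rw [← Real.rpow_natCast G 2, ← Real.rpow_mul hG]
      congr 1
      rw [hw2]; push_cast; ring
    rw [a1, a2, a3]
  rw [e1, e2] at h
  have e3 : (ν / 2) ^ w1 * (ν / 2) ^ (-w1) = 1 := by
    rw [← Real.rpow_add hν2]; simp
  have e4 : (ν / 2) ^ w1 * H ^ ρ * (c * (ν / 2) ^ (-w1) * (γ * G ^ (2 - ρ)))
      = ((ν / 2) ^ w1 * (ν / 2) ^ (-w1)) * (c * (γ * (G ^ (2 - ρ) * H ^ ρ))) := by ring
  rw [e4, e3, one_mul] at h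
  refine h.trans ?_
  have b1 : w1 * (ν / 2 * H ^ 2) ≤ 1 * (ν / 2 * H ^ 2) :=
    mul_le_mul_of_nonneg_right (by rw [hw1]; linarith) (by positivity)
  have b2 : w2 * (K * (γ ^ (2 / (2 - ρ)) * G ^ 2)) ≤ 1 * (K * (γ ^ (2 / (2 - ρ)) * G ^ 2)) :=
    mul_le_mul_of_nonneg_right (by rw [hw2]; linarith) (by positivity)
  linarith

theorem trip_add {u a a' b : Fin 3 → V → ℝ} (hu : ∀ i, SP (u i)) (ha : ∀ i, SP (a i))
    (ha' : ∀ i, SP (a' i)) (hb : ∀ i, SP (b i)) :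
    trip u (fun i x => a i x + a' i x) b = trip u a b + trip u a' b := by
  have key : ∀ i j m, ∫ x in cube, (a i x + a' i x) * (b j x * u m x)
      = (∫ x in cube, a i x * (b j x * u m x)) + ∫ x in cube, a' i x * (b j x * u m x) := by
    intro i j m
    rw [← integral_add ((ha i).mul ((hb j).mul (hu m))).int
      ((ha' i).mul ((hb j).mul (hu m))).int]
    congr 1
    funext x
    ring
  unfold trip
  rw [key, key, key, key, key, key]
  ring

variable {u : Fin 3 → V → ℝ}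

theorem hf_union {s : ℝ} (hs : s ^ 2 = 1) {R W : Set K3} (hR : ∀ k ∈ R, -k ∈ R)
    (hW : ∀ k ∈ W, -k ∈ W) (hRW : Disjoint R W) (hu : ∀ i, SP (u i)) (i : Fin 3) :
    mul lam (hf s (R ∪ W) u i) = fun x => mul lam (hf s R u i) x + mul lam (hf s W u i) x := by
  have hRW' : ∀ k ∈ R ∪ W, -k ∈ R ∪ W := fun k hk => hk.imp (hR k) (hW k)
  have h0 := sp_hf hs (R ∪ W) hu i
  have h1 := sp_hf hs R hu i
  have h2 := sp_hf hs W hu i
  refine fr_inj (sp_mul mlt_lam h0) ((sp_mul mlt_lam h1).add (sp_mul mlt_lam h2))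
      (funext fun k => ?_)
  rw [fr_add (sp_mul mlt_lam h1) (sp_mul mlt_lam h2), fr_mul mlt_lam h0, fr_mul mlt_lam h1,
      fr_mul mlt_lam h2, fr_hf hs hRW' hu i, fr_hf hs hR hu i, fr_hf hs hW hu i,
      indicator_union_of_disjoint hRW]
  simp only
  ring

theorem dimTwo_mono {A : ℝ} {Q R : Set K3} (h : DimTwo A Q) (hRQ : R ⊆ Q) : DimTwo A R := by
  intro x r hr
  refine le_trans ?_ (h x r hr)
  have hfin : ({q ∈ Q | ∀ j, |q j - x j| ≤ r}).Finite := by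
    refine (Set.finite_Icc (fun j => x j - r) (fun j => x j + r)).subset fun q hq => ?_
    refine ⟨fun j => ?_, fun j => ?_⟩
    · have := (abs_le.1 (hq.2 j)).1
      show x j - r ≤ q j
      linarith
    · have := (abs_le.1 (hq.2 j)).2
      show q j ≤ x j + r
      linarith
  have hsub : ({q ∈ R | ∀ j, |q j - x j| ≤ r}) ⊆ ({q ∈ Q | ∀ j, |q j - x j| ≤ r}) :=
    fun q hq => ⟨hRQ hq.1, hq.2⟩
  exact_mod_cast Set.ncard_le_ncard hsub hfin

/-- The differential inequality at a fixed time. -/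
theorem prod_total {p : ℝ≥0∞} (hp : 3 < p) {r : ℝ} (hr2 : 2 ≤ r) (hr6 : r ≤ 6) {ν : ℝ}
    (hν : 0 < ν) : ∃ K1 K2 : ℝ, 0 ≤ K1 ∧ 0 ≤ K2 ∧
    ∀ (A s β γ : ℝ) (R Q : Set K3) (v : Fin 3 → V → ℝ), (∀ i, SP (v i)) →
      (∀ x, ∑ i, pd i (v i) x = 0) → s ^ 2 = 1 → (∀ k ∈ R, -k ∈ R) → (∀ k ∈ Q, -k ∈ Q) →
      0 ≤ A → DimTwo A Q → 0 ≤ β → 0 ≤ γ →
      (∀ i, eLpNorm (hf s R v i) p (volume.restrict cube) ≤ ENNReal.ofReal β) →
      (∀ i, eLpNorm (mul lam (hf s (R ∪ Q)ᶜ v i)) (ENNReal.ofReal r) (volume.restrict cube)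
        ≤ ENNReal.ofReal γ) →
      2 * (-(ν * hn (3 / 2) (nC v) ^ 2) + -∑ i, ∫ x in cube, mul lam (v i) x * conv v i x)
        ≤ -(ν / 2 * hn (3 / 2) (nC v) ^ 2) + (K1 * β ^ (2 / (1 - th p))
          + K2 * γ ^ (2 / (2 - 3 / r)) + 41472 / ν * A * hn 1 (nC v) ^ 2)
            * hn (1 / 2) (nC v) ^ 2 := by
  obtain ⟨C1, hC10, hC1⟩ := prod_le hp
  obtain ⟨C2, hC20, hC2⟩ := prod_le2 hr2 hr6
  have hr0 : 0 < r := by linarith
  obtain ⟨K1, hK10, hK1⟩ := young (c := 4 * C1) (th_nonneg p) (th_lt_one hp) hν (by positivity)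
  obtain ⟨K2, hK20, hK2⟩ := young2 (ρ := 3 / r) (c := 4 * C2) (by positivity)
    (by rw [div_lt_iff₀ hr0]; linarith) hν (by positivity)
  refine ⟨K1, K2, hK10, hK20, fun A s β γ R Q v hv hdiv hs hR hQs hA hQ hβ hγ hRβ hWγ => ?_⟩
  have hs0 : s ≠ 0 := by
    intro h
    rw [h] at hs
    norm_num at hs
  set D := hn (3 / 2) (nC v) with hD
  set G := hn (1 / 2) (nC v) with hG
  set H := hn 1 (nC v) with hH
  have hD0 : 0 ≤ D := hn_nonneg _ _
  have hG0 : 0 ≤ G := hn_nonneg _ _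
  have hH0 : 0 ≤ H := hn_nonneg _ _
  set w : Fin 3 → V → ℝ := fun i => hf (-s) univ v i with hw'
  have hw : ∀ i, SP (w i) := fun i => sp_hf (neg_sq_one hs) univ hv i
  have hwB : Hel (-s) fun i => fr (w i) := hel_hf (neg_sq_one hs) univ_neg hv hdiv
  have hwc : ∀ i k, ‖fr (w i) k‖ ≤ ‖nC v k‖ := by
    intro i k
    rw [hw', fr_hf (neg_sq_one hs) univ_neg hv i]
    exact norm_hp_le' (neg_sq_one hs) univ v i k
  have hQR : ∀ k ∈ Q \ R, -k ∈ Q \ R := by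
    intro k hk
    refine ⟨hQs k hk.1, fun h => hk.2 ?_⟩
    have := hR _ h
    rwa [neg_neg] at this
  have hW : ∀ k ∈ (R ∪ Q)ᶜ, -k ∈ (R ∪ Q)ᶜ := by
    intro k hk h
    apply hk
    rcases h with h | h
    · left
      have := hR _ h
      rwa [neg_neg] at this
    · right
      have := hQs _ h
      rwa [neg_neg] at this
  have hRQ : ∀ k ∈ R ∪ (Q \ R), -k ∈ R ∪ (Q \ R) := fun k hk => hk.imp (hR k) (hQR k)
  have hdec : (fun i => mul lam (hf s univ v i)) = fun i x =>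
      (mul lam (hf s R v i) x + mul lam (hf s (Q \ R) v i) x) + mul lam (hf s (R ∪ Q)ᶜ v i) x := by
    funext i
    have e0 : (univ : Set K3) = (R ∪ (Q \ R)) ∪ (R ∪ Q)ᶜ := by
      rw [union_diff_self, union_compl_self]
    rw [e0, hf_union hs hRQ hW (by rw [union_diff_self]; exact disjoint_compl_right) hv i,
      hf_union hs hR hQR disjoint_sdiff_self_right hv i]
  have hb : ∀ i, SP (mul lam (w i)) := fun i => sp_mul mlt_lam (hw i)
  have ha : ∀ S : Set K3, ∀ i, SP (mul lam (hf s S v i)) := fun S i =>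
    sp_mul mlt_lam (sp_hf hs S hv i)
  have hprod := prod_eq hs hv hdiv
  rw [hdec, trip_add (a := fun i x => mul lam (hf s R v i) x + mul lam (hf s (Q \ R) v i) x)
    (a' := fun i => mul lam (hf s (R ∪ Q)ᶜ v i)) hv (fun i => (ha R i).add (ha _ i)) (ha _) hb,
    trip_add (a := fun i => mul lam (hf s R v i)) (a' := fun i => mul lam (hf s (Q \ R) v i))
    hv (ha R) (ha _) hb] at hprod
  have t1 := hC1 v (fun i => hf s R v i) w s β hv hdiv (fun i => sp_hf hs R hv i) hw hs0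
    (hel_hf hs hR hv hdiv) hwB hβ hRβ hwc
  have t2 := hC2 v (fun i => hf s (R ∪ Q)ᶜ v i) w s γ hv hdiv (fun i => sp_hf hs _ hv i) hw hs
    (hel_hf hs hW hv hdiv) hwB hγ hWγ hwc
  have t3 := thin_le (dimTwo_mono hQ diff_subset) (u := v) (z := fun i => hf s (Q \ R) v i) (w := w)
    (s := s) hv hdiv (fun i => sp_hf hs _ hv i) hw hs0 (hel_hf hs hQR hv hdiv) hwB
    (fun i k hk => by
      rw [fr_hf hs hQR hv i, indicator_of_notMem hk])
    (fun i k => by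
      rw [fr_hf hs hQR hv i]
      exact norm_hp_le' hs _ v i k) hwc
  have y1 := hK1 β G D hβ hG0 hD0
  have y2 := hK2 γ G D hγ hG0 hD0
  have y3 : 4 * (72 * Real.sqrt A * (H * (G * D)))
      ≤ ν / 2 * D ^ 2 + 41472 / ν * A * H ^ 2 * G ^ 2 := by
    have hsq : Real.sqrt A ^ 2 = A := Real.sq_sqrt hA
    have h5 : 0 ≤ (ν * D - 288 * Real.sqrt A * (H * G)) ^ 2 / (2 * ν) := by positivity
    have e : (ν * D - 288 * Real.sqrt A * (H * G)) ^ 2 / (2 * ν)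
        = ν / 2 * D ^ 2 + 41472 / ν * Real.sqrt A ^ 2 * H ^ 2 * G ^ 2
          - 4 * (72 * Real.sqrt A * (H * (G * D))) := by
      field_simp
      ring
    rw [hsq] at e
    linarith
  rw [hprod]
  have a1 := (le_abs_self _).trans t1
  have a2 := (le_abs_self _).trans t2
  have a3 := (le_abs_self _).trans t3
  have e1 : 4 * (C1 * (β * (G ^ (1 - th p) * D ^ th p * D)))
      = 4 * C1 * (β * (G ^ (1 - th p) * D ^ th p * D)) := by ring
  have e2 : 4 * (C2 * (γ * (G ^ (2 - 3 / r) * D ^ (3 / r))))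
      = 4 * C2 * (γ * (G ^ (2 - 3 / r) * D ^ (3 / r))) := by ring
  set T1 := s * trip v (fun i => mul lam (hf s R v i)) (fun i => mul lam (w i)) with hT1
  set T2 := s * trip v (fun i => mul lam (hf s (R ∪ Q)ᶜ v i)) (fun i => mul lam (w i)) with hT2
  set T3 := s * trip v (fun i => mul lam (hf s (Q \ R) v i)) (fun i => mul lam (w i)) with hT3
  have e3 : s * (trip v (fun i => mul lam (hf s R v i)) (fun i => mul lam (hf (-s) univ v i))
      + trip v (fun i => mul lam (hf s (Q \ R) v i)) (fun i => mul lam (hf (-s) univ v i))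
      + trip v (fun i => mul lam (hf s (R ∪ Q)ᶜ v i)) (fun i => mul lam (hf (-s) univ v i)))
      = T1 + T3 + T2 := by
    rw [hT1, hT2, hT3]
    ring
  rw [e3]
  nlinarith [a1, a2, a3, y1, y2, y3, e1, e2]

end Pool.Agent.R923.HC
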