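import Pool.Agent.R923.HC.G3

/-!
The Gronwall argument and the conclusion.
-/

open MeasureTheory Set Filter Topology H459R3.NS Pool.Agent.W734.NS
open scoped ContDiff ENNReal

namespace Pool.Agent.R923.HC

/-- Gronwall's inequality with a good term. -/
theorem gron_gen {T B δ : ℝ} {y y' g z : ℝ → ℝ} (hyc : ContinuousOn y (Ico 0 T))
    (hy0 : ∀ s, 0 ≤ y s) (hder : ∀ s ∈ Ioo 0 T, HasDerivAt y (y' s) s)
    (hg0 : ∀ s ∈ Ioo 0 T, 0 ≤ g s) (hgi : ∀ t ∈ Ico 0 T, IntegrableOn g (Icc 0 t))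
    (hgB : ∀ t ∈ Ico 0 T, ∫ s in (0 : ℝ)..t, g s ≤ B) (hδ : 0 ≤ δ) (hz0 : ∀ s, 0 ≤ z s)
    (hzc : ContinuousOn z (Ico 0 T)) (hd : ∀ s ∈ Ioo 0 T, y' s ≤ -(δ * z s) + g s * y s) :
    ∀ t ∈ Ico 0 T, y t ≤ y 0 * Real.exp B ∧
      δ * ∫ s in (0 : ℝ)..t, z s ≤ y 0 + y 0 * Real.exp B * B := by
  have hen : ∀ t ∈ Ico 0 T, y t ≤ y 0 * Real.exp B := by
    intro t ht
    have hyc' : ContinuousOn y (Icc 0 t) := hyc.mono fun s hs => ⟨hs.1, hs.2.trans_lt ht.2⟩
    have hlog : ∀ ε : ℝ, 0 < ε → y t + ε ≤ (y 0 + ε) * Real.exp B := by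
      intro ε hε
      have hpos : ∀ s, 0 < y s + ε := fun s => by linarith [hy0 s]
      have hc : ContinuousOn (fun s => Real.log (y s + ε)) (Icc 0 t) :=
        (hyc'.add continuousOn_const).log fun s _ => (hpos s).ne'
      have hd' : ∀ s ∈ Ioo 0 t, HasDerivWithinAt (fun s => Real.log (y s + ε))
          (y' s / (y s + ε)) (Ioi s) s := by
        intro s hs
        exact (((hder s ⟨hs.1, hs.2.trans ht.2⟩).add_const ε).log (hpos s).ne').hasDerivWithinAt
      have hle : ∀ s ∈ Ioo 0 t, y' s / (y s + ε) ≤ g s := by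
        intro s hs
        have hs' : s ∈ Ioo 0 T := ⟨hs.1, hs.2.trans ht.2⟩
        rw [div_le_iff₀ (hpos s)]
        have h1 := hd s hs'
        have h2 := mul_nonneg hδ (hz0 s)
        have h3 := mul_nonneg (hg0 s hs') hε.le
        nlinarith
      have h1 := intervalIntegral.sub_le_integral_of_hasDeriv_right_of_le ht.1 hc hd' (hgi t ht) hle
      have h2 : Real.log (y t + ε) ≤ Real.log (y 0 + ε) + B := by linarith [hgB t ht]
      calc y t + ε = Real.exp (Real.log (y t + ε)) := (Real.exp_log (hpos t)).symm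
        _ ≤ Real.exp (Real.log (y 0 + ε) + B) := Real.exp_le_exp.2 h2
        _ = (y 0 + ε) * Real.exp B := by rw [Real.exp_add, Real.exp_log (hpos 0)]
    have hlim1 : Tendsto (fun ε : ℝ => y t + ε) (𝓝[>] 0) (𝓝 (y t + 0)) :=
      (tendsto_const_nhds.add tendsto_id).mono_left nhdsWithin_le_nhds
    have hlim2 : Tendsto (fun ε : ℝ => (y 0 + ε) * Real.exp B) (𝓝[>] 0)
        (𝓝 ((y 0 + 0) * Real.exp B)) :=
      ((tendsto_const_nhds.add tendsto_id).mul_const _).mono_left nhdsWithin_le_nhds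
    have := le_of_tendsto_of_tendsto hlim1 hlim2 (by
      filter_upwards [self_mem_nhdsWithin] with ε hε
      exact hlog ε hε)
    simpa using this
  intro t ht
  refine ⟨hen t ht, ?_⟩
  set Y : ℝ := y 0 * Real.exp B with hY
  have hY0 : 0 ≤ Y := mul_nonneg (hy0 0) (Real.exp_pos _).le
  have hyc' : ContinuousOn y (Icc 0 t) := hyc.mono fun s hs => ⟨hs.1, hs.2.trans_lt ht.2⟩
  have hzc' : ContinuousOn z (Icc 0 t) := hzc.mono fun s hs => ⟨hs.1, hs.2.trans_lt ht.2⟩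
  have hz1 : IntegrableOn z (Icc 0 t) := hzc'.integrableOn_Icc
  have i2 : IntervalIntegrable z volume 0 t :=
    (intervalIntegrable_iff_integrableOn_Icc_of_le ht.1).2 hz1
  have i1 : IntervalIntegrable g volume 0 t :=
    (intervalIntegrable_iff_integrableOn_Icc_of_le ht.1).2 (hgi t ht)
  have hg1 : IntegrableOn (fun s => -(δ * z s) + Y * g s) (Icc 0 t) :=
    ((hz1.const_mul δ).neg).add ((hgi t ht).const_mul _)
  have h1 := intervalIntegral.sub_le_integral_of_hasDeriv_right_of_le ht.1 hyc'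
    (fun s hs => (hder s ⟨hs.1, hs.2.trans ht.2⟩).hasDerivWithinAt) hg1
    (fun s hs => by
      have hs' : s ∈ Ioo 0 T := ⟨hs.1, hs.2.trans ht.2⟩
      have a1 := hd s hs'
      have a2 : g s * y s ≤ Y * g s := by
        rw [mul_comm]
        exact mul_le_mul_of_nonneg_right (hen s ⟨hs'.1.le, hs'.2⟩) (hg0 s hs')
      linarith)
  have j1 : IntervalIntegrable (fun s => -(δ * z s)) volume 0 t := (i2.const_mul δ).neg
  have j2 : IntervalIntegrable (fun s => Y * g s) volume 0 t := i1.const_mul _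
  rw [intervalIntegral.integral_add j1 j2, intervalIntegral.integral_neg,
    intervalIntegral.integral_const_mul, intervalIntegral.integral_const_mul] at h1
  have a1 := mul_le_mul_of_nonneg_left (hgB t ht) hY0
  have a4 := hy0 t
  linarith

/-- A nonnegative function which is continuous on `(0, T)` with bounded integrals over `(0, t)` is
integrable. -/
theorem integrable_of_bound {T M : ℝ} {f : ℝ → ℝ} (hf0 : ∀ s ∈ Ico 0 T, 0 ≤ f s)
    (hfc : ContinuousOn f (Ico 0 T)) (hM : ∀ t ∈ Ico 0 T, ∫ s in (0 : ℝ)..t, f s ≤ M) :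
    IntegrableOn f (Ioo 0 T) := by
  rcases le_or_gt T 0 with hT | hT
  · rw [Ioo_eq_empty (not_lt.2 hT)]
    exact integrableOn_empty
  rw [← integrableOn_Ioc_iff_integrableOn_Ioo]
  obtain ⟨b, hb1, hb2, hb3⟩ := exists_seq_strictMono_tendsto' hT
  have hb : ∀ n, b n ∈ Ico 0 T := fun n => ⟨(hb2 n).1.le, (hb2 n).2⟩
  refine integrableOn_Ioc_of_intervalIntegral_norm_bounded (l := atTop) (a := fun _ : ℕ => 0)
    (b := b) (I := M) (fun n => ?_) tendsto_const_nhds hb3 (Eventually.of_forall fun n => ?_)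
  · exact ((hfc.mono fun s hs => ⟨hs.1, hs.2.trans_lt (hb n).2⟩).integrableOn_Icc).mono_set
      Ioc_subset_Icc_self
  · rw [← intervalIntegral.integral_of_le (hb n).1]
    refine le_trans (le_of_eq ?_) (hM (b n) (hb n))
    refine intervalIntegral.integral_congr fun s hs => ?_
    rw [uIcc_of_le (hb n).1] at hs
    rw [Real.norm_eq_abs, abs_of_nonneg (hf0 s ⟨hs.1, hs.2.trans_lt (hb n).2⟩)]

variable {ν T : ℝ} {u : ℝ → V → V} {p : ℝ → V → ℝ}

theorem hn_one_sq {v : Fin 3 → V → ℝ} (hv : ∀ i, SP (v i)) :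
    hn 1 (nC v) ^ 2 = ∑ i, ∑ j, ∫ x in cube, pd j (v i) x ^ 2 := by
  rw [← sum_grad hv, hn_nC_sq]
  have hs : ∀ i m, Summable fun k => ‖D m (fr (v i)) k‖ ^ 2 := fun i m =>
    summable_sq ((rap_fr (hv i)).D m).summable
  simp_rw [n2_sq]
  simp_rw [← Summable.tsum_finsetSum fun m _ => hs _ m]
  rw [← Summable.tsum_finsetSum fun i _ => summable_sum fun m _ => hs i m]
  refine tsum_congr fun k => ?_
  have e1 : lam k ^ (2 * (1 : ℝ)) = (2 * Real.pi) ^ 2 * ∑ j, (k j : ℝ) ^ 2 := by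
    rw [← lam_sq]
    norm_num
  rw [e1, Finset.mul_sum]
  refine Finset.sum_congr rfl fun i _ => ?_
  rw [Finset.mul_sum, Finset.sum_mul]
  refine Finset.sum_congr rfl fun m _ => ?_
  unfold D
  rw [norm_mul, norm_mul, norm_mul, norm_mul, Complex.norm_I, Complex.norm_intCast,
    Complex.norm_real, Complex.norm_ofNat, Real.norm_eq_abs, abs_of_pos Real.pi_pos, mul_pow,
    mul_pow, mul_pow, sq_abs]
  ring

theorem enstrophy_eq (h : IsSol ν T u p) {t : ℝ} (ht : t ∈ Ico 0 T) :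
    hn 1 (nC (cp u t)) ^ 2 = enstrophy (u t) := by
  have h1 := hn_one_sq (v := cp u t) fun i => h.sp ht i
  rw [h1]
  rfl

/-- The square of the enstrophy is integrable as soon as the critical norm is bounded, with
square integrable norm of order `3/2`. -/
theorem enstrophy_sq_le (h : IsSol ν T u p) {t : ℝ} (ht : t ∈ Ico 0 T) :
    enstrophy (u t) ^ 2 ≤ hn (1 / 2) (nC (cp u t)) ^ 2 * hn (3 / 2) (nC (cp u t)) ^ 2 := by
  rw [← enstrophy_eq h ht]
  set c := nC (cp u t) with hc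
  have hrc : Rap c := rap_nC fun i => h.sp ht i
  have hi := hn_interp hrc (x := 1 / 2) (y := 3 / 2) (z := 1) (θ := 1 / 2) (by norm_num)
      (by norm_num) (by norm_num) (by norm_num) (by norm_num) (by norm_num)
  have hQ0 := hn_nonneg (1 / 2) c
  have hD0 := hn_nonneg (3 / 2) c
  have hH0 := hn_nonneg 1 c
  have e : (1 - 1 / 2 : ℝ) = 1 / 2 := by norm_num
  rw [e, ← Real.sqrt_eq_rpow, ← Real.sqrt_eq_rpow] at hi
  have h2 : hn 1 c ^ 2 ≤ hn (1 / 2) c * hn (3 / 2) c := by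
    calc hn 1 c ^ 2 ≤ (Real.sqrt (hn (1 / 2) c) * Real.sqrt (hn (3 / 2) c)) ^ 2 := by gcongr
      _ = hn (1 / 2) c * hn (3 / 2) c := by
        rw [mul_pow, Real.sq_sqrt hQ0, Real.sq_sqrt hD0]
  calc (hn 1 c ^ 2) ^ 2 ≤ (hn (1 / 2) c * hn (3 / 2) c) ^ 2 := by gcongr
    _ = _ := by ring

/-- Bounded velocity from a bound of the critical norm. -/
theorem bounded_of_crit (h : IsSol ν T u p) (hν : 0 < ν) {Y M : ℝ}
    (hY : ∀ t ∈ Ico 0 T, hn (1 / 2) (nC (cp u t)) ^ 2 ≤ Y)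
    (hM : ∀ t ∈ Ico 0 T, ∫ s in (0 : ℝ)..t, hn (3 / 2) (nC (cp u s)) ^ 2 ≤ M) :
    ∃ M, ∀ t ∈ Ico 0 T, ∀ x i, |u t x i| ≤ M := by
  rcases le_or_gt T 0 with hT | hT
  · exact ⟨0, fun t ht => absurd (ht.1.trans_lt ht.2) (not_lt.2 hT)⟩
  have h0 : (0 : ℝ) ∈ Ico 0 T := ⟨le_rfl, hT⟩
  have hY0 : 0 ≤ Y := (sq_nonneg _).trans (hY 0 h0)
  -- the square of the enstrophy is integrable
  have hzc := hn_continuousOn h (s := 3 / 2) (by norm_num)
  have hsq : IntegrableOn (fun s => enstrophy (u s) ^ 2) (Ioo 0 T) := by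
    refine integrable_of_bound (M := Y * M) (fun s _ => sq_nonneg _)
      (h.enstrophy_continuousOn.pow 2) fun t ht => ?_
    have hsub : Icc 0 t ⊆ Ico 0 T := fun s hs => ⟨hs.1, hs.2.trans_lt ht.2⟩
    have i1 : IntervalIntegrable (fun s => enstrophy (u s) ^ 2) volume 0 t :=
      ((h.enstrophy_continuousOn.pow 2).mono hsub).intervalIntegrable_of_Icc ht.1
    have i2 : IntervalIntegrable (fun s => Y * hn (3 / 2) (nC (cp u s)) ^ 2) volume 0 t :=
      ((hzc.mono hsub).intervalIntegrable_of_Icc ht.1).const_mul Y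
    refine (intervalIntegral.integral_mono_on ht.1 i1 i2 fun s hs => ?_).trans ?_
    · exact (enstrophy_sq_le h (hsub hs)).trans
        (mul_le_mul_of_nonneg_right (hY s (hsub hs)) (sq_nonneg _))
    · rw [intervalIntegral.integral_const_mul]
      exact mul_le_mul_of_nonneg_left (hM t ht) hY0
  obtain ⟨C, hC0, hC⟩ := sobolev
  set E := energy (u 0) with hE
  have hE0 : 0 ≤ E := energy_nonneg _
  set β : ℝ → ℝ := fun t => C * Real.sqrt (enstrophy (u t) + E) with hβ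
  have hβ0 : ∀ t, 0 ≤ β t := fun t => by positivity
  have hβ4 : ∀ t, β t ^ (4 : ℝ) = C ^ 4 * (enstrophy (u t) + E) ^ 2 := by
    intro t
    have e4 : (4 : ℝ) = ((4 : ℕ) : ℝ) := by norm_num
    have h2 := Real.sq_sqrt (add_nonneg (enstrophy_nonneg (u t)) hE0)
    rw [e4, Real.rpow_natCast, hβ]
    simp only
    calc (C * Real.sqrt (enstrophy (u t) + E)) ^ 4
        = C ^ 4 * (Real.sqrt (enstrophy (u t) + E) ^ 2) ^ 2 := by ring
      _ = _ := by rw [h2]
  have hpq : 3 * ((6 : ℝ≥0∞)⁻¹).toReal + 2 / (4 : ℝ) = 1 := by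
    rw [ENNReal.toReal_inv]
    norm_num
  obtain ⟨C', -, hC'⟩ := serrin (p := 6) (by norm_num) (q := 4) hpq (ν := ν) (K := 0) (lam := 0)
    (κ := 0) hν le_rfl le_rfl (by norm_num)
  have hz : SPV (fun _ => (0 : V)) := ⟨contDiff_const, fun _ _ => rfl⟩
  have hpd0 : ∀ (j : Fin 3), pd j (fun _ : V => (0 : ℝ)) = fun _ => 0 := by
    intro j
    funext x
    unfold pd
    rw [fderiv_fun_const]
    simp
  have hen0 : enstrophy (fun _ => (0 : V)) = 0 := by
    show ∑ i : Fin 3, ∑ j : Fin 3, ∫ x in cube, pd j (fun _ : V => (0 : ℝ)) x ^ 2 = 0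
    simp [hpd0]
  have hpa0 : palin (fun _ => (0 : V)) = 0 := by
    show ∑ i : Fin 3, ∫ x in cube, (∑ j : Fin 3, pd j (pd j (fun _ : V => (0 : ℝ))) x) ^ 2 = 0
    simp [hpd0]
  have hst0 : stretch (fun _ => (0 : V)) = 0 := by
    show -∑ i : Fin 3, ∑ j : Fin 3, ∑ m : Fin 3, ∫ x in cube, pd m (fun _ : V => (0 : ℝ)) x *
      (pd i (fun _ : V => (0 : ℝ)) x * pd m (fun _ : V => (0 : ℝ)) x) = 0
    simp [hpd0]
  refine (hC' T 0 u p β (fun _ => 0) h le_rfl (fun t _ => ⟨hβ0 t, le_rfl⟩) ?_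
    (integrableOn_zero) fun t ht => ?_).2
  · -- integrability
    simp_rw [hβ4]
    refine Integrable.const_mul ?_ _
    have i1 : IntegrableOn (fun s => 2 * enstrophy (u s) ^ 2 + 2 * E ^ 2) (Ioo 0 T) := by
      refine (hsq.const_mul 2).add ?_
      exact continuous_const.integrableOn_Icc.mono_set Ioo_subset_Icc_self
    refine Integrable.mono' i1 ?_ ?_
    · exact (((h.enstrophy_continuousOn.mono Ioo_subset_Ico_self).add
        continuousOn_const).pow 2).aestronglyMeasurable measurableSet_Ioo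
    · refine Eventually.of_forall fun s => ?_
      rw [Real.norm_eq_abs, abs_of_nonneg (sq_nonneg _)]
      nlinarith [sq_nonneg (enstrophy (u s) - E)]
  · have hI : t ∈ Ico 0 T := ⟨ht.1.le, ht.2⟩
    refine ⟨fun _ => 0, fun _ => 0, ∅, hz, hz, ?_, ?_, ?_, ?_, ?_, ?_, ?_⟩
    · intro x r _
      simp
    · intro i k _
      simp [fr, fc]
    · rw [hen0]; simp
    · rw [hpa0]; simp
    · rw [hen0]; simp
    · rw [hst0]; simp
    · intro i
      have h1 := hC (cp u t i) (h.sp hI i)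
      have e : (fun x => u t x i - (fun _ : V => (0 : V)) x i - (fun _ : V => (0 : V)) x i)
          = cp u t i := by
        funext x
        simp [cp]
      rw [e]
      refine h1.trans (ENNReal.ofReal_le_ofReal ?_)
      refine mul_le_mul_of_nonneg_left (Real.sqrt_le_sqrt (add_le_add ?_ ?_)) hC0
      · have : ∑ j, ∫ x in cube, pd j (cp u t i) x ^ 2
            ≤ ∑ i, ∑ j, ∫ x in cube, pd j (cp u t i) x ^ 2 :=
          Finset.single_le_sum (f := fun i => ∑ j, ∫ x in cube, pd j (cp u t i) x ^ 2)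
            (fun i _ => Finset.sum_nonneg fun j _ => integral_nonneg fun x => sq_nonneg _)
            (Finset.mem_univ i)
        exact this
      · have : ∫ x in cube, cp u t i x ^ 2 ≤ ∑ i, ∫ x in cube, cp u t i x ^ 2 :=
          Finset.single_le_sum (f := fun i => ∫ x in cube, cp u t i x ^ 2)
            (fun i _ => integral_nonneg fun x => sq_nonneg _) (Finset.mem_univ i)
        exact this.trans (h.energy_le hν hI)

/-- The criterion, in the internal notation. -/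
theorem crit {p : ℝ≥0∞} (hp : 3 < p) {q : ℝ} (hpq : 3 * (p⁻¹).toReal + 2 / q = 1)
    {r q' : ℝ} (hr2 : 2 ≤ r) (hr6 : r ≤ 6) (hrq : 3 / r + 2 / q' = 2) {ν : ℝ} (hν : 0 < ν) :
    ∃ C : ℝ, 0 ≤ C ∧ ∀ (T A : ℝ) (u : ℝ → V → V) (P : ℝ → V → ℝ) (β γ : ℝ → ℝ), IsSol ν T u P →
      0 ≤ A → (∀ t ∈ Ioo 0 T, 0 ≤ β t ∧ 0 ≤ γ t) → IntegrableOn (fun t => β t ^ q) (Ioo 0 T) →
      IntegrableOn (fun t => γ t ^ q') (Ioo 0 T) →
      (∀ t ∈ Ioo 0 T, ∃ (s : ℝ) (R Q : Set K3), s ^ 2 = 1 ∧ (∀ k ∈ R, -k ∈ R) ∧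
        (∀ k ∈ Q, -k ∈ Q) ∧ DimTwo A Q ∧
        (∀ i, eLpNorm (hf s R (cp u t) i) p (volume.restrict cube) ≤ ENNReal.ofReal (β t)) ∧
        (∀ i, eLpNorm (mul lam (hf s (R ∪ Q)ᶜ (cp u t) i)) (ENNReal.ofReal r)
          (volume.restrict cube) ≤ ENNReal.ofReal (γ t))) →
      (∀ t ∈ Ico 0 T, hn (1 / 2) (nC (cp u t)) ^ 2 ≤ hn (1 / 2) (nC (cp u 0)) ^ 2 * Real.exp
        (C * ((∫ s in Ioo 0 T, β s ^ q) + (∫ s in Ioo 0 T, γ s ^ q') + A * energy (u 0)))) ∧
      ∃ M, ∀ t ∈ Ico 0 T, ∀ x i, |u t x i| ≤ M := by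
  have hθ1 := th_lt_one hp
  have hq : q = 2 / (1 - th p) := by
    have h1 : 2 / q = 1 - th p := by
      have : th p = 3 * (p⁻¹).toReal := rfl
      rw [this]
      linarith
    rw [← h1]
    have : q ≠ 0 := by
      intro h0
      rw [h0, div_zero] at h1
      linarith
    field_simp
  have hr0 : 0 < r := by linarith
  have hr3 : 3 / r ≤ 3 / 2 := by rw [div_le_iff₀ hr0]; linarith
  have hq' : q' = 2 / (2 - 3 / r) := by
    have h1 : 2 / q' = 2 - 3 / r := by linarith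
    rw [← h1]
    have : q' ≠ 0 := by
      intro h0
      rw [h0, div_zero] at h1
      linarith
    field_simp
  obtain ⟨K1, K2, hK1, hK2, hK⟩ := prod_total hp hr2 hr6 hν
  set K3' : ℝ := 41472 / ν with hK3
  have hK30 : 0 ≤ K3' := by positivity
  refine ⟨K1 + K2 + K3' / (2 * ν), by positivity,
    fun T A u P β γ h hA hβγ0 hβi hγi hcomp => ?_⟩
  have hβ0 : ∀ t ∈ Ioo 0 T, 0 ≤ β t := fun t ht => (hβγ0 t ht).1
  have hγ0 : ∀ t ∈ Ioo 0 T, 0 ≤ γ t := fun t ht => (hβγ0 t ht).2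
  set y : ℝ → ℝ := fun s => enstrophy (u s) with hy
  have hy0 : ∀ s, 0 ≤ y s := fun s => enstrophy_nonneg _
  set g : ℝ → ℝ := fun s => (K1 * β s ^ q + K2 * γ s ^ q') + K3' * A * y s with hg
  have hg0 : ∀ s ∈ Ioo 0 T, 0 ≤ g s := by
    intro s hs
    have h1 := Real.rpow_nonneg (hβ0 s hs) q
    have h2 := hy0 s
    have h3 := Real.rpow_nonneg (hγ0 s hs) q'
    simp only [hg]
    positivity
  have hE0 := energy_nonneg (u 0)
  have hβq0 : 0 ≤ ∫ s in Ioo 0 T, β s ^ q :=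
    setIntegral_nonneg measurableSet_Ioo fun s hs => Real.rpow_nonneg (hβ0 s hs) q
  have hγi0 : 0 ≤ ∫ s in Ioo 0 T, γ s ^ q' :=
    setIntegral_nonneg measurableSet_Ioo fun s hs => Real.rpow_nonneg (hγ0 s hs) q'
  have hβ1 : ∀ t ∈ Ico 0 T, IntegrableOn (fun s => β s ^ q) (Icc 0 t) := by
    intro t ht
    rw [integrableOn_Icc_iff_integrableOn_Ioc, integrableOn_Ioc_iff_integrableOn_Ioo]
    exact hβi.mono_set (Ioo_subset_Ioo_right ht.2.le)
  have hγ1 : ∀ t ∈ Ico 0 T, IntegrableOn (fun s => γ s ^ q') (Icc 0 t) := by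
    intro t ht
    rw [integrableOn_Icc_iff_integrableOn_Ioc, integrableOn_Ioc_iff_integrableOn_Ioo]
    exact hγi.mono_set (Ioo_subset_Ioo_right ht.2.le)
  have hy1 : ∀ t ∈ Ico 0 T, IntegrableOn y (Icc 0 t) := by
    intro t ht
    have hyc : ContinuousOn y (Icc 0 t) :=
      h.enstrophy_continuousOn.mono fun s hs => ⟨hs.1, hs.2.trans_lt ht.2⟩
    exact hyc.integrableOn_Icc
  set B : ℝ := (K1 + K2 + K3' / (2 * ν))
    * ((∫ s in Ioo 0 T, β s ^ q) + (∫ s in Ioo 0 T, γ s ^ q') + A * energy (u 0)) with hB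
  have hgB : ∀ t ∈ Ico 0 T, ∫ s in (0 : ℝ)..t, g s ≤ B := by
    intro t ht
    have i1 : IntervalIntegrable (fun s => K1 * β s ^ q) volume 0 t :=
      ((intervalIntegrable_iff_integrableOn_Icc_of_le ht.1).2 (hβ1 t ht)).const_mul _
    have i3 : IntervalIntegrable (fun s => K2 * γ s ^ q') volume 0 t :=
      ((intervalIntegrable_iff_integrableOn_Icc_of_le ht.1).2 (hγ1 t ht)).const_mul _
    have i2 : IntervalIntegrable (fun s => K3' * A * y s) volume 0 t :=
      ((intervalIntegrable_iff_integrableOn_Icc_of_le ht.1).2 (hy1 t ht)).const_mul _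
    have i13 : IntervalIntegrable (fun s => K1 * β s ^ q + K2 * γ s ^ q') volume 0 t := i1.add i3
    simp only [hg]
    rw [intervalIntegral.integral_add i13 i2, intervalIntegral.integral_add i1 i3,
      intervalIntegral.integral_const_mul, intervalIntegral.integral_const_mul,
      intervalIntegral.integral_const_mul]
    have a1 : ∫ s in (0 : ℝ)..t, β s ^ q ≤ ∫ s in Ioo 0 T, β s ^ q := by
      rw [intervalIntegral.integral_of_le ht.1, integral_Ioc_eq_integral_Ioo]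
      refine setIntegral_mono_set hβi ?_ (Ioo_subset_Ioo_right ht.2.le).eventuallyLE
      filter_upwards [ae_restrict_mem measurableSet_Ioo] with s hs
      exact Real.rpow_nonneg (hβ0 s hs) q
    have a1' : ∫ s in (0 : ℝ)..t, γ s ^ q' ≤ ∫ s in Ioo 0 T, γ s ^ q' := by
      rw [intervalIntegral.integral_of_le ht.1, integral_Ioc_eq_integral_Ioo]
      refine setIntegral_mono_set hγi ?_ (Ioo_subset_Ioo_right ht.2.le).eventuallyLE
      filter_upwards [ae_restrict_mem measurableSet_Ioo] with s hs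
      exact Real.rpow_nonneg (hγ0 s hs) q'
    have a2 := h.int_enstrophy hν ht
    have a3 : K3' * A * ∫ s in (0 : ℝ)..t, y s ≤ K3' * A * (energy (u 0) / (2 * ν)) := by gcongr
    have a4 : K3' * A * (energy (u 0) / (2 * ν)) = K3' / (2 * ν) * (A * energy (u 0)) := by
      ring
    have a5 : K1 * ∫ s in (0 : ℝ)..t, β s ^ q ≤ K1 * ∫ s in Ioo 0 T, β s ^ q := by gcongr
    have a5' : K2 * ∫ s in (0 : ℝ)..t, γ s ^ q' ≤ K2 * ∫ s in Ioo 0 T, γ s ^ q' := by gcongr
    rw [a4] at a3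
    set I1 := ∫ s in Ioo 0 T, β s ^ q with hI1
    set I2 := ∫ s in Ioo 0 T, γ s ^ q' with hI2
    set E := A * energy (u 0) with hE
    have hE' : 0 ≤ E := mul_nonneg hA hE0
    have b1 : 0 ≤ K3' / (2 * ν) * (I1 + I2) := by positivity
    have b2 : 0 ≤ K1 * (I2 + E) := by positivity
    have b3 : 0 ≤ K2 * (I1 + E) := by positivity
    have e : B = K1 * I1 + K2 * I2 + K3' / (2 * ν) * E
          + K3' / (2 * ν) * (I1 + I2) + K1 * (I2 + E) + K2 * (I1 + E) := by rw [hB]; ring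
    rw [e]
    linarith
  have key := gron_gen (T := T) (B := B) (δ := ν / 2)
    (y := fun t => hn (1 / 2) (nC (cp u t)) ^ 2)
    (y' := fun t => 2 * (-(ν * hn (3 / 2) (nC (cp u t)) ^ 2)
        + -∑ i, ∫ x in cube, mul lam (cp u t i) x * conv (cp u t) i x))
    (g := g) (z := fun t => hn (3 / 2) (nC (cp u t)) ^ 2)
    (hn_continuousOn h (by norm_num)) (fun s => sq_nonneg _)
    (fun s hs => crit_hasDerivAt h hs) hg0
    (fun t ht => (((hβ1 t ht).const_mul _).add ((hγ1 t ht).const_mul _)).add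
      ((hy1 t ht).const_mul _)) hgB (by positivity) (fun s => sq_nonneg _)
    (hn_continuousOn h (by norm_num)) (fun t ht => by
      have hI : t ∈ Ico 0 T := ⟨ht.1.le, ht.2⟩
      obtain ⟨s, R, Q, hs, hR, hQs, hQ, hRβ, hWγ⟩ := hcomp t ht
      have h1 := hK A s (β t) (γ t) R Q (cp u t) (fun i => h.sp hI i) (h.divfree t hI) hs hR hQs hA
        hQ (hβ0 t ht) (hγ0 t ht) hRβ hWγ
      rw [enstrophy_eq h hI, ← hq, ← hq'] at h1
      exact h1)
  refine ⟨fun t ht => (key t ht).1, ?_⟩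
  refine bounded_of_crit h hν (Y := hn (1 / 2) (nC (cp u 0)) ^ 2 * Real.exp B)
    (M := (hn (1 / 2) (nC (cp u 0)) ^ 2 + hn (1 / 2) (nC (cp u 0)) ^ 2 * Real.exp B * B) / (ν / 2))
    (fun t ht => (key t ht).1) fun t ht => ?_
  rw [le_div_iff₀ (by positivity)]
  have := (key t ht).2
  linarith

end Pool.Agent.R923.HC
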